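import Mathlib

/-!
# Definitions for MP_4eb9bb_ag

Polynomial automorphisms of `ℂ³`, their dynamical degrees, projective compactifications of `ℂ³`
and super-attracting fixed points at infinity.
-/

open MvPolynomial Filter Topology

namespace SuperAttracting

/-- A polynomial map `ℂ³ → ℂ³`, given by its three components. -/
abbrev PolyMap := Fin 3 → MvPolynomial (Fin 3) ℂ

/-- The value of a polynomial map at a point of `ℂ³`. -/
noncomputable def ap (p : PolyMap) (q : Fin 3 → ℂ) : Fin 3 → ℂ := fun i => eval q (p i)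

/-- Composition `p ∘ r` of polynomial maps (substitute `r` in the components of `p`). -/
noncomputable def comp (p r : PolyMap) : PolyMap := fun i => bind₁ r (p i)

/-- The `n`-th iterate `p ∘ ⋯ ∘ p` as a polynomial map. -/
noncomputable def iter (p : PolyMap) : ℕ → PolyMap
  | 0 => X
  | n + 1 => comp p (iter p n)

/-- The degree `max_i deg p_i` (total degrees). -/
noncomputable def deg (p : PolyMap) : ℕ := Finset.univ.sup fun i => (p i).totalDegree

/-- `l` is the dynamical degree of `p`: `l = lim_n (deg pⁿ)^{1/n}`. -/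
def HasDynamicalDegree (p : PolyMap) (l : ℝ) : Prop :=
  Tendsto (fun n : ℕ => ((deg (iter p n) : ℕ) : ℝ) ^ (1 / (n : ℝ))) atTop (𝓝 l)

/-- A polynomial automorphism of `ℂ³`: a polynomial bijection of `ℂ³` whose inverse is polynomial. -/
structure PolyAut where
  /-- the automorphism `f` -/
  f : PolyMap
  /-- its inverse `f⁻¹` -/
  finv : PolyMap
  left_inv : ∀ q : Fin 3 → ℂ, ap finv (ap f q) = q
  right_inv : ∀ q : Fin 3 → ℂ, ap f (ap finv q) = q

/-- Projective compactifications of `ℂ³`, in embedded form.  The data is an injective morphism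
`ι = [P₀ : ⋯ : P_N] : ℂ³ → ℙ^N` given by polynomials without a common zero.  If `X ⊂ ℙ^N` is a
projective variety and `ℂ³ → X` is an open embedding with dense image, then (every line bundle on
`ℂ³` being trivial) the embedding has this form, and `X` is the closure of `ι(ℂ³)`; so every
projective compactification of `ℂ³` gives such data, with `X := closure of ι(ℂ³)`. -/
structure ProjCompactification (N : ℕ) where
  /-- the homogeneous components of `ι` -/
  P : Fin (N + 1) → MvPolynomial (Fin 3) ℂ
  base_point_free : ∀ q : Fin 3 → ℂ, ∃ i, eval q (P i) ≠ 0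
  injective : ∀ (q q' : Fin 3 → ℂ) (c : ℂ), (∀ i, eval q (P i) = c * eval q' (P i)) → q = q'

namespace ProjCompactification

variable {N : ℕ} (X : ProjCompactification N)

/-- The vector `(P₀(q), …, P_N(q))` of homogeneous coordinates of `ι(q)`. -/
noncomputable def lift (q : Fin 3 → ℂ) : Fin (N + 1) → ℂ := fun i => eval q (X.P i)

/-- `v ∈ ℂ^{N+1} ∖ {0}` represents a point `[v]` of `X ∖ ι(ℂ³)`, where `X` is the closure of
`ι(ℂ³)` in `ℙ^N`: the vector `v` lies in the closure of the cone over `ι(ℂ³)`, but not in the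
cone itself. -/
def AtInfinity (v : Fin (N + 1) → ℂ) : Prop :=
  v ≠ 0 ∧ v ∈ closure {w | ∃ (c : ℂ) (q : Fin 3 → ℂ), w = c • X.lift q} ∧
    ∀ (c : ℂ) (q : Fin 3 → ℂ), v ≠ c • X.lift q

/-- The affine chart `{w_i ≠ 0}` of `ℙ^N`, identified with the affine space `{w_i = 1}` of
`ℂ^{N+1}`: the point `[w]` goes to `w / w_i`. -/
noncomputable def chart (i : Fin (N + 1)) (w : Fin (N + 1) → ℂ) : Fin (N + 1) → ℂ :=
  (w i)⁻¹ • w

/-- The Zariski tangent space at the point `a` (in the chart `i`) of the variety `X`: the vectors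
killed by the differentials at `a` of all polynomials which vanish on `X` in that chart. -/
def tangentSpace (i : Fin (N + 1)) (a : Fin (N + 1) → ℂ) : Set (Fin (N + 1) → ℂ) :=
  {τ | ∀ g : MvPolynomial (Fin (N + 1)) ℂ,
    (∀ q : Fin 3 → ℂ, eval q (X.P i) ≠ 0 → eval (chart i (X.lift q)) g = 0) →
      ∑ j, τ j * eval a (pderiv j g) = 0}

/-- `[v]` is a super-attracting fixed point of the birational self-map of `X` induced by `f`.
In an affine chart `i` containing `[v]`, with `a` the image of `[v]`: there is a map `Φ`,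
holomorphic in a neighbourhood of `a` in the ambient space, with `Φ a = a`, which extends `f`
from the points of `ℂ³` near `[v]` (`f` maps such points into the chart `i` and acts on them
by `Φ`), and the differential of `Φ` at `a` is nilpotent on the Zariski tangent space of `X`. -/
def IsSuperAttracting (f : PolyMap) (v : Fin (N + 1) → ℂ) : Prop :=
  ∃ (i : Fin (N + 1)) (Φ : (Fin (N + 1) → ℂ) → (Fin (N + 1) → ℂ)),
    v i ≠ 0 ∧ AnalyticAt ℂ Φ (chart i v) ∧ Φ (chart i v) = chart i v ∧
    (∀ᶠ w in 𝓝 (chart i v), ∀ q : Fin 3 → ℂ, eval q (X.P i) ≠ 0 → chart i (X.lift q) = w →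
      eval (ap f q) (X.P i) ≠ 0 ∧ chart i (X.lift (ap f q)) = Φ w) ∧
    ∃ m : ℕ, ∀ τ ∈ X.tangentSpace i (chart i v), (fderiv ℂ Φ (chart i v))^[m] τ = 0

end ProjCompactification

end SuperAttracting
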