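import Mathlib

set_option autoImplicit false
open Filter Topology Complex Set Metric

namespace Pool.Agent.Helper729.SRD

section basic

variable {X : Type*} [NormedAddCommGroup X] [NormedSpace ℂ X]

/-- the spectral radius as a real number -/
noncomputable def sr (T : X →L[ℂ] X) : ℝ := (spectralRadius ℂ T).toReal

theorem sr_nonneg (T : X →L[ℂ] X) : 0 ≤ sr T := ENNReal.toReal_nonneg

variable [CompleteSpace X]

theorem specRad_ne_top (T : X →L[ℂ] X) : spectralRadius ℂ T ≠ ⊤ := by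
  rcases subsingleton_or_nontrivial X with h | h
  · have : spectrum ℂ T = ∅ := by
      have : Subsingleton (X →L[ℂ] X) := inferInstance
      rw [Set.eq_empty_iff_forall_notMem]
      intro z hz
      exact hz (isUnit_of_subsingleton _)
    simp [spectralRadius]
  · exact (spectrum.spectralRadius_le_nnnorm T).trans_lt ENNReal.coe_lt_top |>.ne

theorem norm_le_sr {T : X →L[ℂ] X} {z : ℂ} (hz : z ∈ spectrum ℂ T) : ‖z‖ ≤ sr T := by
  have h1 : (‖z‖₊ : ENNReal) ≤ spectralRadius ℂ T := by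
    unfold spectralRadius
    exact le_iSup₂ (f := fun (k : ℂ) (_ : k ∈ spectrum ℂ T) => (‖k‖₊ : ENNReal)) z hz
  exact ENNReal.toReal_mono (specRad_ne_top T) h1

theorem sr_le {T : X →L[ℂ] X} {c : ℝ} (hc : 0 ≤ c) (h : ∀ z ∈ spectrum ℂ T, ‖z‖ ≤ c) :
    sr T ≤ c := by
  have h1 : spectralRadius ℂ T ≤ ENNReal.ofReal c := by
    unfold spectralRadius
    apply iSup₂_le
    intro z hz
    rw [ENNReal.le_ofReal_iff_toReal_le ENNReal.coe_ne_top hc]
    exact h z hz
  have h2 := ENNReal.toReal_mono ENNReal.ofReal_ne_top h1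
  rwa [ENNReal.toReal_ofReal hc] at h2

theorem exists_mem [Nontrivial X] (T : X →L[ℂ] X) : ∃ z ∈ spectrum ℂ T, ‖z‖ = sr T := by
  obtain ⟨z, hz, h⟩ := spectrum.exists_nnnorm_eq_spectralRadius T
  refine ⟨z, hz, ?_⟩
  have := congrArg ENNReal.toReal h
  exact this

theorem sr_le_norm (T : X →L[ℂ] X) : sr T ≤ ‖T‖ := by
  rcases subsingleton_or_nontrivial X with h | h
  · apply sr_le (norm_nonneg _)
    intro z hz
    have : Subsingleton (X →L[ℂ] X) := inferInstance
    exact absurd (isUnit_of_subsingleton _) hz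
  · apply sr_le (norm_nonneg _)
    intro z hz
    exact spectrum.norm_le_norm_of_mem hz

omit [CompleteSpace X] in
theorem mem_spec_iff {T : X →L[ℂ] X} {z : ℂ} :
    z ∈ spectrum ℂ T ↔ ¬ IsUnit (z • (1 : X →L[ℂ] X) - T) := by
  rw [spectrum.mem_iff, Algebra.algebraMap_eq_smul_one]

omit [CompleteSpace X] in
/-- an eigenvalue is in the spectrum -/
theorem mem_spec_of_eigen {T : X →L[ℂ] X} {z : ℂ} {v : X} (hv : v ≠ 0) (h : T v = z • v) :
    z ∈ spectrum ℂ T := by
  rw [mem_spec_iff]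
  rintro ⟨u, hu⟩
  apply hv
  have h1 : (u : X →L[ℂ] X) v = 0 := by
    rw [hu]
    simp [h]
  have h2 : ((u⁻¹ : (X →L[ℂ] X)ˣ) : X →L[ℂ] X) ((u : X →L[ℂ] X) v) = v := by
    change (((u⁻¹ : (X →L[ℂ] X)ˣ) : X →L[ℂ] X) * (u : X →L[ℂ] X)) v = v
    rw [Units.inv_mul]
    rfl
  rw [← h2, h1, map_zero]

theorem isUnit_of_sr_lt {T : X →L[ℂ] X} {w : ℂ} (h : ‖w‖ * sr T < 1) :
    IsUnit (1 - w • T) := by
  by_cases hw : w = 0
  · simp [hw]
  · have h1 : w⁻¹ ∉ spectrum ℂ T := by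
      intro h2
      have h3 := norm_le_sr h2
      rw [norm_inv] at h3
      have h4 : 0 < ‖w‖ := norm_pos_iff.2 hw
      have h5 : ‖w‖ * ‖w‖⁻¹ ≤ ‖w‖ * sr T := mul_le_mul_of_nonneg_left h3 h4.le
      rw [mul_inv_cancel₀ h4.ne'] at h5
      linarith
    rw [mem_spec_iff, not_not] at h1
    have h2 : (1 - w • T : X →L[ℂ] X) = w • (w⁻¹ • (1 : X →L[ℂ] X) - T) := by
      rw [smul_sub, smul_smul, mul_inv_cancel₀ hw, one_smul]
    rw [h2]
    exact h1.smul (Units.mk0 w hw)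

end basic


-- from A1.lean



section
variable {X : Type*} [NormedAddCommGroup X] [NormedSpace ℂ X] [CompleteSpace X]

/-- an eigenvector equation for rank one perturbations -/
theorem eigen_rank_one (T : X →L[ℂ] X) (f : X →L[ℂ] ℂ) (x : X) {w t : ℂ} (hw : w ≠ 0)
    (hu : IsUnit (1 - w • T))
    (h : 1 + t * (w * f (Ring.inverse (1 - w • T) x)) = 0) :
    w⁻¹ ∈ spectrum ℂ (T - t • f.smulRight x) := by
  set v := Ring.inverse (1 - w • T) x with hv
  have h1 : (1 - w • T) v = x := by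
    have h2 : (1 - w • T) * Ring.inverse (1 - w • T) = 1 := Ring.mul_inverse_cancel _ hu
    have h3 := congrArg (fun A : X →L[ℂ] X => A x) h2
    simpa using h3
  have h1' : v - w • T v = x := by simpa using h1
  have hv0 : v ≠ 0 := by
    intro h0
    rw [h0] at h
    simp at h
  apply mem_spec_of_eigen hv0
  have h4 : t * f v = - w⁻¹ := by
    have h5 : w * (t * f v) = -1 := by linear_combination h
    field_simp
    linear_combination h5
  have h6 : (T - t • f.smulRight x) v = T v - (t * f v) • x := by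
    simp [mul_smul]
  rw [h6, h4, ← h1']
  rw [neg_smul, sub_neg_eq_add, smul_sub, smul_smul, inv_mul_cancel₀ hw, one_smul]
  abel

theorem cauchy_est (T : X →L[ℂ] X) (f : X →L[ℂ] ℂ) (x : X) {R M : ℝ} (hR : 0 < R) (hM : 0 < M)
    (h : ∀ t : ℂ, ‖t‖ ≤ M → sr (T - t • f.smulRight x) ≤ R) : ‖f (T x)‖ ≤ R ^ 2 / M := by
  have h0 : sr T ≤ R := by simpa using h 0 (by simpa using hM.le)
  have key : ∀ ρ : ℝ, 0 < ρ → ρ * R < 1 → ‖f (T x)‖ ≤ 1 / (M * ρ ^ 2) := by
    intro ρ hρ hρR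
    have hunit : ∀ w : ℂ, ‖w‖ ≤ ρ → IsUnit (1 - w • T) := by
      intro w hw
      apply isUnit_of_sr_lt
      calc ‖w‖ * sr T ≤ ρ * R := mul_le_mul hw h0 (sr_nonneg T) hρ.le
        _ < 1 := hρR
    let k : ℂ → ℂ := fun w => f (Ring.inverse (1 - w • T) x)
    have hlin : ∀ w : ℂ, HasDerivAt (fun w : ℂ => (1 : X →L[ℂ] X) - w • T) (-T) w := by
      intro w
      have := ((hasDerivAt_id w).smul_const T).const_sub (1 : X →L[ℂ] X)
      simpa using this
    have hdiff : ∀ w : ℂ, ‖w‖ ≤ ρ → DifferentiableAt ℂ k w := by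
      intro w hw
      have h1 : DifferentiableAt ℂ (fun w : ℂ => Ring.inverse ((1 : X →L[ℂ] X) - w • T)) w :=
        DifferentiableAt.comp (g := (Ring.inverse : (X →L[ℂ] X) → (X →L[ℂ] X))) w
          (differentiableAt_inverse (hunit w hw)) (hlin w).differentiableAt
      exact f.differentiableAt.comp w (h1.clm_apply (differentiableAt_const x))
    have hder : HasDerivAt k (f (T x)) 0 := by
      have h1 : HasFDerivAt (Ring.inverse : (X →L[ℂ] X) → (X →L[ℂ] X))
          (-ContinuousLinearMap.mulLeftRight ℂ (X →L[ℂ] X) ((1 : (X →L[ℂ] X)ˣ)⁻¹ : (X →L[ℂ] X)ˣ)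
            ((1 : (X →L[ℂ] X)ˣ)⁻¹ : (X →L[ℂ] X)ˣ)) ((1 : X →L[ℂ] X) - (0:ℂ) • T) := by
        have := hasFDerivAt_ringInverse (𝕜 := ℂ) (1 : (X →L[ℂ] X)ˣ)
        simpa using this
      have h2 := h1.comp_hasDerivAt (0:ℂ) (hlin 0)
      have h3 : HasDerivAt (fun w : ℂ => Ring.inverse ((1 : X →L[ℂ] X) - w • T)) T 0 := by
        refine h2.congr_deriv ?_
        simp
      have h4 := (f.hasFDerivAt.comp_hasDerivAt (0:ℂ)
        (h3.clm_apply (hasDerivAt_const (0:ℂ) x)))
      refine h4.congr_deriv ?_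
      simp
    have hbound : ∀ w ∈ sphere (0:ℂ) ρ, ‖k w‖ ≤ 1 / (M * ρ) := by
      intro w hw
      rw [mem_sphere_zero_iff_norm] at hw
      have hw0 : w ≠ 0 := by
        intro h1; rw [h1, norm_zero] at hw; linarith
      by_contra hcon
      push Not at hcon
      have hk0 : k w ≠ 0 := by
        intro h1
        rw [h1, norm_zero] at hcon
        have : 0 < 1 / (M * ρ) := by positivity
        linarith
      have hkpos : 0 < ‖k w‖ := norm_pos_iff.2 hk0
      have h1 : 1 + (-(w * k w)⁻¹) * (w * k w) = 0 := by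
        field_simp
        ring
      have h2 := eigen_rank_one T f x hw0 (hunit w hw.le) h1
      have h3 : ‖-(w * k w)⁻¹‖ ≤ M := by
        rw [norm_neg, norm_inv, norm_mul, hw]
        rw [div_lt_iff₀ (by positivity)] at hcon
        rw [inv_le_comm₀ (by positivity) hM]
        rw [inv_eq_one_div, div_le_iff₀ hM]
        nlinarith
      have h4 := (norm_le_sr h2).trans (h _ h3)
      rw [norm_inv, hw] at h4
      rw [inv_le_iff_one_le_mul₀ hρ] at h4
      linarith
    have hcl : DiffContOnCl ℂ k (ball 0 ρ) := by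
      apply DifferentiableOn.diffContOnCl
      intro w hw
      rw [closure_ball _ hρ.ne', mem_closedBall_zero_iff] at hw
      exact (hdiff w hw).differentiableWithinAt
    have h5 := Complex.norm_deriv_le_of_forall_mem_sphere_norm_le hρ hcl hbound
    rw [hder.deriv] at h5
    refine h5.trans (le_of_eq ?_)
    field_simp
  have hlim : Tendsto (fun ρ : ℝ => 1 / (M * ρ ^ 2)) (𝓝[<] (1/R)) (𝓝 (1 / (M * (1/R) ^ 2))) := by
    apply Tendsto.mono_left _ nhdsWithin_le_nhds
    apply ContinuousAt.tendsto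
    apply ContinuousAt.div continuousAt_const (by fun_prop)
    positivity
  have h6 : 1 / (M * (1/R) ^ 2) = R ^ 2 / M := by field_simp
  rw [← h6]
  apply ge_of_tendsto hlim
  have hpos : (0:ℝ) < 1/R := by positivity
  filter_upwards [self_mem_nhdsWithin, mem_nhdsWithin_of_mem_nhds (Ioi_mem_nhds hpos)] with ρ h1 h2
  apply key ρ h2
  have h3 : ρ < 1/R := h1
  rw [lt_div_iff₀ hR] at h3
  exact h3

end


-- from sol_1943.lean



section
variable {X : Type*} [NormedAddCommGroup X] [NormedSpace ℂ X] [CompleteSpace X]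

noncomputable def kk (A1 : X →L[ℂ] X) (f : X →L[ℂ] ℂ) (x : X) (w : ℂ) : ℂ :=
  w * f (Ring.inverse (1 - w • A1) x)

theorem kk_fact1 {A1 : X →L[ℂ] X} {f : X →L[ℂ] ℂ} {x : X} {w s : ℂ} (hw : w ≠ 0)
    (hu : IsUnit (1 - w • A1)) (hk : 1 + s * kk A1 f x w = 0) :
    w⁻¹ ∈ spectrum ℂ (A1 - s • f.smulRight x) := by
  set v : X := Ring.inverse (1 - w • A1) x with hv
  have h1 : (1 - w • A1) v = x := by
    have := Ring.mul_inverse_cancel _ hu
    have h2 := congrArg (fun T : X →L[ℂ] X => T x) this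
    simpa [hv] using h2
  have hv0 : v ≠ 0 := by
    intro h0
    have : kk A1 f x w = 0 := by
      unfold kk
      rw [← hv, h0]; simp
    rw [this] at hk
    simp at hk
  apply mem_spec_of_eigen hv0
  have h3 : v - w • A1 v = x := by simpa using h1
  have h4 : A1 v = w⁻¹ • (v - x) := by
    rw [← h3]
    rw [sub_sub_cancel, smul_smul, inv_mul_cancel₀ hw, one_smul]
  have h5 : 1 + s * (w * f v) = 0 := hk
  have h6 : w⁻¹ + s * f v = 0 := by
    have : w⁻¹ * (1 + s * (w * f v)) = w⁻¹ + s * f v := by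
      field_simp
    rw [← this, h5, mul_zero]
  change A1 v - s • (f v • x) = w⁻¹ • v
  rw [h4, smul_sub, sub_sub, smul_smul, ← add_smul, h6, zero_smul, sub_zero]

theorem kk_fact2 {A1 : X →L[ℂ] X} {f : X →L[ℂ] ℂ} {x : X} {w s : ℂ}
    (hu : IsUnit (1 - w • A1)) (hk : 1 + s * kk A1 f x w ≠ 0) :
    IsUnit (1 - w • (A1 - s • f.smulRight x)) := by
  set v : X := Ring.inverse (1 - w • A1) x with hv
  have h1 : (1 - w • A1) v = x := by
    have := Ring.mul_inverse_cancel _ hu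
    have h2 := congrArg (fun T : X →L[ℂ] X => T x) this
    simpa [hv] using h2
  have h3 : v - w • A1 v = x := by simpa using h1
  have hd : 1 + (w * s) * f v ≠ 0 := by
    have : 1 + s * kk A1 f x w = 1 + (w * s) * f v := by
      unfold kk
      rw [← hv]; ring
    rwa [this] at hk
  have hfac : (1 - w • (A1 - s • f.smulRight x) : X →L[ℂ] X)
      = (1 - w • A1) * (1 + (w * s) • f.smulRight v) := by
    ext y
    change y - w • (A1 y - s • (f y • x)) =
      (y + (w * s) • (f y • v)) - w • A1 (y + (w * s) • (f y • v))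
    rw [map_add, map_smul, map_smul, ← h3]
    module
  rw [hfac]
  refine hu.mul ?_
  set d : ℂ := 1 + (w * s) * f v with hdd
  have e1 : (1 + (w * s) • f.smulRight v : X →L[ℂ] X) * (1 - ((w * s) / d) • f.smulRight v) = 1 := by
    ext y
    change (y - ((w * s) / d) • (f y • v)) + (w * s) • (f (y - ((w * s) / d) • (f y • v)) • v) = y
    rw [map_sub, map_smul, map_smul, smul_eq_mul, smul_eq_mul]
    have : y - ((w * s) / d) • (f y • v) + (w * s) • ((f y - (w * s) / d * (f y * f v)) • v)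
        = y + ((w * s) * f y * (1 - (1 + (w * s) * f v) / d)) • v := by
      match_scalars
      · ring
      · ring
    rw [this, ← hdd, div_self hd]
    simp
  have e2 : (1 - ((w * s) / d) • f.smulRight v : X →L[ℂ] X) * (1 + (w * s) • f.smulRight v) = 1 := by
    ext y
    change (y + (w * s) • (f y • v)) - ((w * s) / d) • (f (y + (w * s) • (f y • v)) • v) = y
    rw [map_add, map_smul, map_smul, smul_eq_mul, smul_eq_mul]
    have : y + (w * s) • (f y • v) - ((w * s) / d) • ((f y + (w * s) * (f y * f v)) • v)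
        = y + ((w * s) * f y * (1 - (1 + (w * s) * f v) / d)) • v := by
      match_scalars
      · ring
      · ring
    rw [this, ← hdd, div_self hd]
    simp
  exact ⟨⟨_, _, e1, e2⟩, rfl⟩

/-- TARGET -/
theorem closed_line (A : X →L[ℂ] X) (f : X →L[ℂ] ℂ) (x : X) {M : ℝ} (hM : 0 < M) :
    IsClosed {t : ℂ | sr (A - t • f.smulRight x) ≤ M} := by
  apply isClosed_of_closure_subset
  intro t ht
  rw [mem_closure_iff_frequently] at ht
  by_contra hcon
  obtain ⟨t1, ht1⟩ := ht.exists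
  set A1 : X →L[ℂ] X := A - t1 • f.smulRight x with hA1
  have hsr : sr A1 ≤ M := ht1
  have hshift : ∀ s : ℂ, A - s • f.smulRight x = A1 - (s - t1) • f.smulRight x := by
    intro s
    rw [hA1, sub_smul]; abel
  have hball : ∀ w ∈ ball (0 : ℂ) (1 / M), IsUnit (1 - w • A1) := by
    intro w hw
    apply isUnit_of_sr_lt
    rw [mem_ball_zero_iff, lt_div_iff₀ hM] at hw
    exact lt_of_le_of_lt (mul_le_mul_of_nonneg_left hsr (norm_nonneg _)) hw
  -- the bad point
  have hex : ∃ z ∈ spectrum ℂ (A - t • f.smulRight x), M < ‖z‖ := by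
    by_contra hne
    push Not at hne
    exact hcon (sr_le hM.le hne)
  obtain ⟨z0, hz0, hz0M⟩ := hex
  have hz0n : 0 < ‖z0‖ := hM.trans hz0M
  have hz00 : z0 ≠ 0 := norm_pos_iff.1 hz0n
  have hw0 : z0⁻¹ ∈ ball (0 : ℂ) (1 / M) := by
    rw [mem_ball_zero_iff, norm_inv, ← one_div]
    exact one_div_lt_one_div_of_lt hM hz0M
  have hk0 : 1 + (t - t1) * kk A1 f x z0⁻¹ = 0 := by
    by_contra hne
    have := kk_fact2 (hball _ hw0) hne
    rw [← hshift] at this
    have h2 : IsUnit (z0 • (1 : X →L[ℂ] X) - (A - t • f.smulRight x)) := by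
      have h3 : z0 • (1 : X →L[ℂ] X) - (A - t • f.smulRight x)
          = z0 • (1 - z0⁻¹ • (A - t • f.smulRight x)) := by
        rw [smul_sub, smul_smul, mul_inv_cancel₀ hz00, one_smul]
      rw [h3]
      exact this.smul (Units.mk0 z0 hz00)
    exact (mem_spec_iff.1 hz0) h2
  have hs0 : t - t1 ≠ 0 := by
    intro h
    rw [h] at hk0
    simp at hk0
  have hkv : kk A1 f x z0⁻¹ = -1 / (t - t1) := by
    rw [eq_div_iff hs0]
    linear_combination hk0
  have hkne : kk A1 f x z0⁻¹ ≠ 0 := by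
    intro h
    rw [h] at hk0
    simp at hk0
  -- analyticity
  have hdiff : DifferentiableOn ℂ (kk A1 f x) (ball (0 : ℂ) (1 / M)) := by
    intro w hw
    apply DifferentiableAt.differentiableWithinAt
    unfold kk
    have h1 : DifferentiableAt ℂ (fun w : ℂ => (1 - w • A1 : X →L[ℂ] X)) w := by fun_prop
    have h2 : DifferentiableAt ℂ (fun w : ℂ => Ring.inverse (1 - w • A1 : X →L[ℂ] X)) w :=
      DifferentiableAt.comp (g := fun T : X →L[ℂ] X => Ring.inverse T) w
        (differentiableAt_inverse (𝕜 := ℂ) (hball w hw)) h1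
    have h3 : DifferentiableAt ℂ (fun w : ℂ => Ring.inverse (1 - w • A1 : X →L[ℂ] X) x) w :=
      h2.clm_apply (differentiableAt_const x)
    exact differentiableAt_id.mul (f.differentiableAt.comp w h3)
  have hana : AnalyticOnNhd ℂ (kk A1 f x) (ball (0 : ℂ) (1 / M)) :=
    hdiff.analyticOnNhd isOpen_ball
  have hopen : 𝓝 (kk A1 f x z0⁻¹) ≤ map (kk A1 f x) (𝓝 z0⁻¹) := by
    rcases (hana _ hw0).eventually_constant_or_nhds_le_map_nhds with h | h
    · exfalso
      have hc : AnalyticOnNhd ℂ (fun _ : ℂ => kk A1 f x z0⁻¹) (ball (0 : ℂ) (1 / M)) :=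
        fun _ _ => analyticAt_const
      have heq := hana.eqOn_of_preconnected_of_eventuallyEq hc
        (convex_ball (0 : ℂ) (1 / M)).isPreconnected hw0 h
      have h0 := heq (mem_ball_self (by positivity : (0 : ℝ) < 1 / M))
      simp only at h0
      have : kk A1 f x 0 = 0 := by simp [kk]
      rw [this] at h0
      exact hkne h0.symm
    · exact h
  have hU : ball (0 : ℂ) (1 / M) ∩ {0}ᶜ ∈ 𝓝 z0⁻¹ := by
    apply inter_mem (isOpen_ball.mem_nhds hw0)
    exact isOpen_compl_singleton.mem_nhds (inv_ne_zero hz00)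
  have himg : (kk A1 f x) '' (ball (0 : ℂ) (1 / M) ∩ {0}ᶜ) ∈ 𝓝 (-1 / (t - t1)) := by
    rw [← hkv]
    exact hopen (image_mem_map hU)
  have hcont : ContinuousAt (fun s : ℂ => -1 / (s - t1)) t := by
    apply ContinuousAt.div continuousAt_const (continuousAt_id.sub continuousAt_const) hs0
  have hev : ∀ᶠ s in 𝓝 t, -1 / (s - t1) ∈ (kk A1 f x) '' (ball (0 : ℂ) (1 / M) ∩ {0}ᶜ) :=
    hcont himg
  have hev2 : ∀ᶠ s in 𝓝 t, s - t1 ≠ 0 := by
    have : ContinuousAt (fun s : ℂ => s - t1) t := by fun_prop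
    exact this.eventually_ne hs0
  obtain ⟨s, hsK, ⟨w, ⟨hwb, hw0'⟩, hwk⟩, hsne⟩ := (ht.and_eventually (hev.and hev2)).exists
  have hwne : w ≠ 0 := by simpa using hw0'
  have hfin : w⁻¹ ∈ spectrum ℂ (A1 - (s - t1) • f.smulRight x) := by
    apply kk_fact1 hwne (hball w hwb)
    rw [hwk]
    field_simp
    ring
  rw [← hshift] at hfin
  have h1 := (norm_le_sr hfin).trans hsK
  rw [norm_inv] at h1
  have hwn : 0 < ‖w‖ := norm_pos_iff.2 hwne
  rw [mem_ball_zero_iff, lt_div_iff₀ hM] at hwb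
  have h2 : ‖w‖ * ‖w‖⁻¹ ≤ ‖w‖ * M := mul_le_mul_of_nonneg_left h1 hwn.le
  rw [mul_inv_cancel₀ hwn.ne'] at h2
  linarith
end


-- from A2.lean



section
variable {X : Type*} [NormedAddCommGroup X] [NormedSpace ℂ X] [CompleteSpace X]

end

section
variable {X : Type*} [NormedAddCommGroup X] [NormedSpace ℂ X] [CompleteSpace X]

theorem weak_bdd {ι : Type*} (A : ι → X →L[ℂ] X)
    (h : ∀ (g : X →L[ℂ] ℂ) (y : X), ∃ c : ℝ, ∀ i, ‖g (A i y)‖ ≤ c) : ∃ C : ℝ, ∀ i, ‖A i‖ ≤ C := by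
  apply banach_steinhaus
  intro y
  have h1 : ∃ C', ∀ i, ‖(ContinuousLinearMap.apply ℂ ℂ (A i y) : (X →L[ℂ] ℂ) →L[ℂ] ℂ)‖ ≤ C' :=
    banach_steinhaus (fun g => by
      obtain ⟨c, hc⟩ := h g y
      exact ⟨c, fun i => by simpa using hc i⟩)
  obtain ⟨C', hC'⟩ := h1
  refine ⟨C', fun i => ?_⟩
  have hC0 : 0 ≤ C' := le_trans (norm_nonneg (ContinuousLinearMap.apply ℂ ℂ (A i y) :
    (X →L[ℂ] ℂ) →L[ℂ] ℂ)) (hC' i)
  apply NormedSpace.norm_le_dual_bound ℂ _ hC0
  intro f
  exact ((ContinuousLinearMap.apply ℂ ℂ (A i y) : (X →L[ℂ] ℂ) →L[ℂ] ℂ).le_opNorm f).trans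
    (mul_le_mul_of_nonneg_right (hC' i) (norm_nonneg _))

/-- uniform boundedness principle for the spectral radius -/
theorem ub {ι : Type*} (A : ι → X →L[ℂ] X)
    (h : ∀ (f : X →L[ℂ] ℂ) (x : X), ∃ c : ℝ, ∀ i, sr (A i - f.smulRight x) ≤ c) :
    ∃ C : ℝ, ∀ i, ‖A i‖ ≤ C := by
  apply weak_bdd
  intro g y
  let K : ℕ → Set ℂ := fun n => {t | ∀ i, sr (A i - t • g.smulRight y) ≤ (n : ℝ) + 1}
  have hK : ∀ n, IsClosed (K n) := by
    intro n
    have : K n = ⋂ i, {t | sr (A i - t • g.smulRight y) ≤ (n : ℝ) + 1} := by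
      ext t; simp [K]
    rw [this]
    exact isClosed_iInter (fun i => closed_line (A i) g y (by positivity))
  have hU : ⋃ n, K n = univ := by
    rw [eq_univ_iff_forall]
    intro t
    obtain ⟨c, hc⟩ := h g (t • y)
    obtain ⟨n, hn⟩ := exists_nat_ge c
    rw [mem_iUnion]
    refine ⟨n, fun i => ?_⟩
    have h1 : t • g.smulRight y = g.smulRight (t • y) := by
      ext v
      change t • (g v • y) = g v • (t • y)
      exact smul_comm _ _ _
    rw [h1]
    linarith [hc i]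
  obtain ⟨n, hn⟩ := nonempty_interior_of_iUnion_of_closed hK hU
  obtain ⟨t0, ht0⟩ := hn
  obtain ⟨δ, hδ, hball⟩ := Metric.isOpen_iff.1 isOpen_interior t0 ht0
  have hb : ∀ t : ℂ, ‖t‖ ≤ δ / 2 → ∀ i, sr (A i - (t0 + t) • g.smulRight y) ≤ (n : ℝ) + 1 := by
    intro t ht
    have h1 : t0 + t ∈ ball t0 δ := by
      rw [mem_ball, dist_eq_norm, add_sub_cancel_left]
      linarith
    exact interior_subset (hball h1)
  refine ⟨((n : ℝ) + 1) ^ 2 / (δ / 2) + ‖t0 * (g y * g y)‖, fun i => ?_⟩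
  have h1 := cauchy_est (A i - t0 • g.smulRight y) g y (R := (n : ℝ) + 1) (M := δ / 2)
    (by positivity) (by positivity) (by
      intro t ht
      have := hb t ht i
      rwa [add_smul, ← sub_sub] at this)
  have h2 : g (A i y) = g ((A i - t0 • g.smulRight y) y) + t0 * (g y * g y) := by
    have h3 : (A i - t0 • g.smulRight y) y = A i y - t0 • (g y • y) := rfl
    rw [h3, map_sub, map_smul, map_smul, smul_eq_mul, smul_eq_mul]
    ring
  rw [h2]
  exact (norm_add_le _ _).trans (by linarith)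
end


-- from A3.lean



section
variable {X : Type*} [NormedAddCommGroup X] [NormedSpace ℂ X] [CompleteSpace X]

theorem sr_smul_le (c : ℂ) (hc : c ≠ 0) (T : X →L[ℂ] X) : sr (c • T) ≤ ‖c‖ * sr T := by
  apply sr_le (mul_nonneg (norm_nonneg _) (sr_nonneg _))
  intro z hz
  have h1 : c • T = (Units.mk0 c hc) • T := rfl
  rw [h1, spectrum.unit_smul_eq_smul, Set.mem_smul_set] at hz
  obtain ⟨w, hw, rfl⟩ := hz
  have h2 : (Units.mk0 c hc) • w = c * w := rfl
  rw [h2, norm_mul]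
  exact mul_le_mul_of_nonneg_left (norm_le_sr hw) (norm_nonneg _)

theorem sr_smul (c : ℂ) (hc : c ≠ 0) (T : X →L[ℂ] X) : sr (c • T) = ‖c‖ * sr T := by
  apply le_antisymm (sr_smul_le c hc T)
  have h1 := sr_smul_le c⁻¹ (inv_ne_zero hc) (c • T)
  rw [smul_smul, inv_mul_cancel₀ hc, one_smul, norm_inv] at h1
  have h2 : 0 < ‖c‖ := norm_pos_iff.2 hc
  calc ‖c‖ * sr T ≤ ‖c‖ * (‖c‖⁻¹ * sr (c • T)) := mul_le_mul_of_nonneg_left h1 h2.le
    _ = sr (c • T) := by field_simp

theorem sr_neg (T : X →L[ℂ] X) : sr (-T) = sr T := by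
  have := sr_smul (-1) (by norm_num) T
  simpa using this

theorem sr_sub_comm (S T : X →L[ℂ] X) : sr (S - T) = sr (T - S) := by
  rw [← sr_neg, neg_sub]

omit [CompleteSpace X] in
theorem spec_add_smul {T : X →L[ℂ] X} {z c : ℂ} :
    z ∈ spectrum ℂ (T + c • (1 : X →L[ℂ] X)) ↔ z - c ∈ spectrum ℂ T := by
  rw [mem_spec_iff, mem_spec_iff]
  have : z • (1 : X →L[ℂ] X) - (T + c • (1 : X →L[ℂ] X)) = (z - c) • (1 : X →L[ℂ] X) - T := by
    rw [sub_smul]; abel
  rw [this]

theorem abs_sr_add_smul_sub (T : X →L[ℂ] X) (c : ℂ) :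
    |sr (T + c • (1 : X →L[ℂ] X)) - sr T| ≤ ‖c‖ := by
  have key : ∀ (T : X →L[ℂ] X) (c : ℂ), sr (T + c • (1 : X →L[ℂ] X)) ≤ sr T + ‖c‖ := by
    intro T c
    apply sr_le (add_nonneg (sr_nonneg _) (norm_nonneg _))
    intro z hz
    rw [spec_add_smul] at hz
    have h1 := norm_le_sr hz
    have h2 : ‖z‖ ≤ ‖z - c‖ + ‖c‖ := by
      have := norm_add_le (z - c) c
      rwa [sub_add_cancel] at this
    linarith
  rw [abs_le]
  constructor
  · have h1 := key (T + c • (1 : X →L[ℂ] X)) (-c)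
    rw [add_assoc, ← add_smul, add_neg_cancel, zero_smul, add_zero, norm_neg] at h1
    linarith
  · linarith [key T c]

theorem sr_smul_one [Nontrivial X] (c : ℂ) : sr (c • (1 : X →L[ℂ] X)) = ‖c‖ := by
  apply le_antisymm
  · apply sr_le (norm_nonneg _)
    intro z hz
    have h1 : c • (1 : X →L[ℂ] X) = 0 + c • (1 : X →L[ℂ] X) := (zero_add _).symm
    rw [h1, spec_add_smul, spectrum.zero_eq, Set.mem_singleton_iff, sub_eq_zero] at hz
    rw [hz]
  · have : c ∈ spectrum ℂ (c • (1 : X →L[ℂ] X)) := by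
      have h1 : c • (1 : X →L[ℂ] X) = 0 + c • (1 : X →L[ℂ] X) := (zero_add _).symm
      rw [h1, spec_add_smul, spectrum.zero_eq, Set.mem_singleton_iff, sub_self]
    exact norm_le_sr this

omit [CompleteSpace X] in
/-- a functional with prescribed values on two independent vectors -/
theorem exists_dual_pair {x y : X} (hx : x ≠ 0) (h : ∀ c : ℂ, y ≠ c • x) (a b : ℂ) :
    ∃ f : X →L[ℂ] ℂ, f x = a ∧ f y = b := by
  have hli : LinearIndependent ℂ ![x, y] := by
    rw [LinearIndependent.pair_iff' hx]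
    intro c hc
    exact h c hc.symm
  have hinj := linearIndependent_iff_injective_fintypeLinearCombination.1 hli
  have hsurj := (SeparatingDual.dualMap_surjective_iff (R := ℂ) (V := X)
    (f := Fintype.linearCombination ℂ ![x, y])).2 hinj
  obtain ⟨f, hf⟩ := hsurj ((LinearMap.proj 0 : (Fin 2 → ℂ) →ₗ[ℂ] ℂ).smulRight a +
    (LinearMap.proj 1 : (Fin 2 → ℂ) →ₗ[ℂ] ℂ).smulRight b)
  refine ⟨f, ?_, ?_⟩
  · have h1 := LinearMap.congr_fun hf ![1, 0]
    simpa [Fintype.linearCombination_apply] using h1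
  · have h1 := LinearMap.congr_fun hf ![0, 1]
    simpa [Fintype.linearCombination_apply] using h1

omit [CompleteSpace X] in
theorem exists_scalar (C : X →L[ℂ] X) (h : ∀ x, ∃ c : ℂ, C x = c • x) :
    ∃ c : ℂ, C = c • (1 : X →L[ℂ] X) := by
  obtain ⟨a, ha⟩ := LinearMap.exists_eq_smul_id_of_forall_notLinearIndependent
    (f := (C : X →ₗ[ℂ] X)) (by
      intro v hv
      obtain ⟨c, hc⟩ := h v
      rw [LinearIndependent.pair_iff] at hv
      have := hv c (-1) (by simp [hc])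
      norm_num at this)
  refine ⟨a, ?_⟩
  ext v
  have := LinearMap.congr_fun ha v
  simpa using this

/-- nilpotent perturbations of a nonscalar operator have arbitrarily large eigenvalues -/
theorem exists_nilp (C : X →L[ℂ] X) (hC : ∀ c : ℂ, C ≠ c • (1 : X →L[ℂ] X)) (n : ℝ) :
    ∃ S : X →L[ℂ] X, sr S = 0 ∧ n ≤ sr (C + S) := by
  have h1 : ∃ x, ∀ c : ℂ, C x ≠ c • x := by
    by_contra hcon
    push Not at hcon
    obtain ⟨c, hc⟩ := exists_scalar C hcon
    exact hC c hc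
  obtain ⟨x, hx⟩ := h1
  have hx0 : x ≠ 0 := by
    rintro rfl
    exact hx 0 (by simp)
  obtain ⟨f, hf1, hf2⟩ := exists_dual_pair hx0 hx 1 (n : ℂ)
  refine ⟨f.smulRight ((n : ℂ) • x - C x), ?_, ?_⟩
  · apply le_antisymm _ (sr_nonneg _)
    apply sr_le le_rfl
    intro z hz
    have h2 : (f.smulRight ((n : ℂ) • x - C x)) * (f.smulRight ((n : ℂ) • x - C x)) = 0 := by
      ext v
      simp [hf1, hf2]
    have h3 : z ^ 2 ∈ spectrum ℂ ((f.smulRight ((n : ℂ) • x - C x)) ^ 2) :=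
      spectrum.pow_mem_pow _ 2 hz
    rw [sq (f.smulRight ((n : ℂ) • x - C x)), h2] at h3
    have : Nontrivial X := ⟨x, 0, hx0⟩
    rw [spectrum.zero_eq, Set.mem_singleton_iff] at h3
    have h4 : z = 0 := by simpa using h3
    simp [h4]
  · have h2 : (n : ℂ) ∈ spectrum ℂ (C + f.smulRight ((n : ℂ) • x - C x)) := by
      apply mem_spec_of_eigen hx0
      simp [hf1]
    have h3 := norm_le_sr h2
    rw [Complex.norm_real] at h3
    exact (le_abs_self n).trans h3

/-- separation: an operator which does not change any spectral radius is zero -/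
theorem eq_zero_of_sr (D : X →L[ℂ] X) (h : ∀ G : X →L[ℂ] X, sr (D + G) = sr G) : D = 0 := by
  rcases subsingleton_or_nontrivial X with hX | hX
  · exact Subsingleton.elim _ _
  by_cases hs : ∃ c : ℂ, D = c • (1 : X →L[ℂ] X)
  · obtain ⟨c, rfl⟩ := hs
    have h1 := h 0
    rw [add_zero, sr_smul_one] at h1
    have h2 : sr (0 : X →L[ℂ] X) = 0 := by
      have := sr_smul_one (X := X) 0
      simpa using this
    rw [h2, norm_eq_zero] at h1
    rw [h1, zero_smul]
  · push Not at hs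
    obtain ⟨S, hS, h1⟩ := exists_nilp D hs 1
    rw [h S, hS] at h1
    norm_num at h1

end


-- from sol_1944.lean



section
variable {X : Type*} [NormedAddCommGroup X] [NormedSpace ℂ X] [CompleteSpace X]

/-- the vector `(1 - z⁻¹ T)⁻¹ x` -/
noncomputable def vv (T : X →L[ℂ] X) (x : X) (z : ℂ) : X :=
  Ring.inverse (1 - z⁻¹ • T) x

theorem vv_unit (T : X →L[ℂ] X) {m : ℝ} (hm : 1 ≤ m) (hT : ‖T‖ ≤ m) {z : ℂ} (hz : 2 * m ≤ ‖z‖) :
    IsUnit (1 - z⁻¹ • T) := by
  apply isUnit_one_sub_of_norm_lt_one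
  rw [norm_smul, norm_inv]
  have hz0 : 0 < ‖z‖ := by linarith
  rw [inv_mul_lt_iff₀ hz0]
  linarith

theorem vv_eq (T : X →L[ℂ] X) (x : X) {m : ℝ} (hm : 1 ≤ m) (hT : ‖T‖ ≤ m) {z : ℂ}
    (hz : 2 * m ≤ ‖z‖) : vv T x z = x + z⁻¹ • T (vv T x z) := by
  have h := Ring.mul_inverse_cancel _ (vv_unit T hm hT hz)
  have h1 : ((1 - z⁻¹ • T) * Ring.inverse (1 - z⁻¹ • T)) x = x := by
    rw [h]
    rfl
  have h2 : vv T x z - z⁻¹ • T (vv T x z) = x := h1
  rw [sub_eq_iff_eq_add] at h2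
  exact h2

theorem vv_norm (T : X →L[ℂ] X) (x : X) {m : ℝ} (hm : 1 ≤ m) (hT : ‖T‖ ≤ m) {z : ℂ}
    (hz : 2 * m ≤ ‖z‖) : ‖vv T x z‖ ≤ 2 * ‖x‖ := by
  have h := vv_eq T x hm hT hz
  have hz0 : 0 < ‖z‖ := by linarith
  have h1 : ‖z⁻¹ • T (vv T x z)‖ ≤ 1 / 2 * ‖vv T x z‖ := by
    rw [norm_smul, norm_inv, inv_mul_le_iff₀ hz0]
    calc ‖T (vv T x z)‖ ≤ ‖T‖ * ‖vv T x z‖ := T.le_opNorm _
      _ ≤ m * ‖vv T x z‖ := by gcongr
      _ ≤ ‖z‖ * (1 / 2 * ‖vv T x z‖) := by
        nlinarith [norm_nonneg (vv T x z)]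
  have h2 : ‖vv T x z‖ ≤ ‖x‖ + ‖z⁻¹ • T (vv T x z)‖ := by
    conv_lhs => rw [h]
    exact norm_add_le _ _
  linarith

theorem f_T_bound (T : X →L[ℂ] X) (f : X →L[ℂ] ℂ) (x v : X) {m p : ℝ} (hT : ‖T‖ ≤ m) (hm : 1 ≤ m)
    (hfp : ‖f‖ * ‖x‖ ≤ p) {a : ℝ} (ha : 0 ≤ a) (hv : ‖v‖ ≤ a * ‖x‖) : ‖f (T v)‖ ≤ a * p * m := by
  calc ‖f (T v)‖ ≤ ‖f‖ * ‖T v‖ := f.le_opNorm _
    _ ≤ ‖f‖ * (m * (a * ‖x‖)) := by
        gcongr
        exact (T.le_opNorm v).trans (by gcongr)
    _ = a * (‖f‖ * ‖x‖) * m := by ring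
    _ ≤ a * p * m := by gcongr

theorem vv_spec (T : X →L[ℂ] X) (f : X →L[ℂ] ℂ) (x : X) (hfx : f x = 1) {m l : ℝ}
    (hm : 1 ≤ m) (hT : ‖T‖ ≤ m) {z : ℂ} (hz : 2 * m ≤ ‖z‖) (h : (l : ℂ) * f (vv T x z) = z) :
    z ∈ spectrum ℂ (T + (l : ℂ) • f.smulRight x) := by
  have hz0 : z ≠ 0 := by
    rintro rfl
    rw [norm_zero] at hz
    linarith
  have he := vv_eq T x hm hT hz
  apply mem_spec_of_eigen (v := vv T x z)
  · intro h0
    rw [h0, map_zero, smul_zero, add_zero] at he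
    rw [← he, map_zero] at hfx
    exact zero_ne_one hfx
  · have h1 : T (vv T x z) = z • vv T x z - z • x := by
      have : z • vv T x z = z • x + T (vv T x z) := by
        conv_lhs => rw [he]
        rw [smul_add, smul_smul, mul_inv_cancel₀ hz0, one_smul]
      rw [this]
      abel
    rw [ContinuousLinearMap.add_apply, ContinuousLinearMap.smul_apply,
      ContinuousLinearMap.smulRight_apply, smul_smul, h, h1]
    abel

theorem spec_vv (T : X →L[ℂ] X) (f : X →L[ℂ] ℂ) (x : X) {m l : ℝ}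
    (hm : 1 ≤ m) (hT : ‖T‖ ≤ m) {z : ℂ} (hz : 2 * m ≤ ‖z‖)
    (h : z ∈ spectrum ℂ (T + (l : ℂ) • f.smulRight x)) : (l : ℂ) * f (vv T x z) = z := by
  by_contra hne
  have hz0 : z ≠ 0 := by
    rintro rfl
    rw [norm_zero] at hz
    linarith
  rw [mem_spec_iff] at h
  apply h
  set v := vv T x z with hv
  set c : ℂ := l / z with hc
  have hcf : 1 - c * f v ≠ 0 := by
    intro h0
    apply hne
    have : c * f v = 1 := (sub_eq_zero.1 h0).symm
    rw [hc] at this
    field_simp at this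
    exact this
  set d : ℂ := c / (1 - c * f v) with hd
  have hdc : d - c - c * d * f v = 0 := by
    rw [hd]
    field_simp
    ring
  have hunit : IsUnit (1 - c • f.smulRight v : X →L[ℂ] X) := by
    have h0 : ∀ w, ((d - c - c * d * f v) * f w) • v = 0 := fun w => by
      rw [hdc, zero_mul, zero_smul]
    have e1 : (1 - c • f.smulRight v) * (1 + d • f.smulRight v) = 1 := by
      ext w
      change (w + d • f w • v) - c • f (w + d • f w • v) • v = w
      rw [map_add, map_smul, map_smul, smul_eq_mul, smul_eq_mul, ← sub_eq_zero, ← h0 w]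
      module
    have e2 : (1 + d • f.smulRight v) * (1 - c • f.smulRight v) = 1 := by
      ext w
      change (w - c • f w • v) + d • f (w - c • f w • v) • v = w
      rw [map_sub, map_smul, map_smul, smul_eq_mul, smul_eq_mul, ← sub_eq_zero, ← h0 w]
      module
    exact ⟨⟨_, _, e1, e2⟩, rfl⟩
  have hfac : z • (1 : X →L[ℂ] X) - (T + (l : ℂ) • f.smulRight x) =
      z • ((1 - z⁻¹ • T) * (1 - c • f.smulRight v)) := by
    ext w
    have he := vv_eq T x hm hT hz
    rw [← hv] at he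
    change z • w - (T w + (l : ℂ) • f w • x) =
      z • ((w - c • f w • v) - z⁻¹ • T (w - c • f w • v))
    have h1 : T v = z • v - z • x := by
      have : z • v = z • x + T v := by
        conv_lhs => rw [he]
        rw [smul_add, smul_smul, mul_inv_cancel₀ hz0, one_smul]
      rw [this]
      abel
    have hl : (l : ℂ) = c * z := by
      rw [hc]
      field_simp
    rw [map_sub, map_smul, map_smul, h1, smul_sub z, smul_smul z z⁻¹, mul_inv_cancel₀ hz0,
      one_smul, hl]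
    module
  rw [hfac]
  exact ((vv_unit T hm hT hz).mul hunit).smul (Units.mk0 z hz0)

theorem vv_est1 (T : X →L[ℂ] X) (f : X →L[ℂ] ℂ) (x : X) (hfx : f x = 1) {m p : ℝ}
    (hm : 1 ≤ m) (hT : ‖T‖ ≤ m) (hfp : ‖f‖ * ‖x‖ ≤ p) {z : ℂ} (hz : 2 * m ≤ ‖z‖) :
    ‖f (vv T x z) - 1‖ ≤ 2 * p * m / ‖z‖ := by
  have he := vv_eq T x hm hT hz
  have hz0 : 0 < ‖z‖ := by linarith
  have e : f (vv T x z) - 1 = z⁻¹ * f (T (vv T x z)) := by
    conv_lhs => rw [he]
    rw [map_add, hfx, map_smul, smul_eq_mul]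
    ring
  rw [e, norm_mul, norm_inv, inv_mul_eq_div]
  apply div_le_div_of_nonneg_right _ hz0.le
  exact f_T_bound T f x _ hT hm hfp zero_le_two (vv_norm T x hm hT hz)

theorem vv_est2 (T : X →L[ℂ] X) (f : X →L[ℂ] ℂ) (x : X) (hfx : f x = 1) {m p l : ℝ}
    (hm : 1 ≤ m) (hp : 1 ≤ p) (hT : ‖T‖ ≤ m) (hfp : ‖f‖ * ‖x‖ ≤ p) (hl : 100 * p * m ≤ l)
    {z : ℂ} (hz : l / 2 ≤ ‖z‖) (h : (l : ℂ) * f (vv T x z) = z) :
    ‖z - (l + f (T x))‖ ≤ 100 * p ^ 2 * m ^ 2 / l := by
  have hpm : 1 ≤ p * m := by nlinarith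
  have hmp : m ≤ p * m := by nlinarith
  have hl0 : 0 < l := by nlinarith
  have hz2 : 2 * m ≤ ‖z‖ := by nlinarith
  have hz0 : 0 < ‖z‖ := by linarith
  have hzne : z ≠ 0 := norm_pos_iff.1 hz0
  have he := vv_eq T x hm hT hz2
  have h1 := vv_est1 T f x hfx hm hT hfp hz2
  have hTx : ‖f (T x)‖ ≤ 1 * p * m := f_T_bound T f x x hT hm hfp zero_le_one (by simp)
  have hTv : ‖T (vv T x z)‖ ≤ (2 * m) * ‖x‖ := by
    calc ‖T (vv T x z)‖ ≤ ‖T‖ * ‖vv T x z‖ := T.le_opNorm _
      _ ≤ m * (2 * ‖x‖) := by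
        gcongr
        exact vv_norm T x hm hT hz2
      _ = (2 * m) * ‖x‖ := by ring
  have hTTv : ‖f (T (T (vv T x z)))‖ ≤ (2 * m) * p * m :=
    f_T_bound T f x _ hT hm hfp (by linarith) hTv
  have e1 : z - (l + f (T x)) = (l - z) / z * f (T x) + l * f (T (T (vv T x z))) / z ^ 2 := by
    have e2 : f (vv T x z) = 1 + z⁻¹ * f (T x) + z⁻¹ * (z⁻¹ * f (T (T (vv T x z)))) := by
      conv_lhs => rw [he]
      rw [map_add, hfx, map_smul, smul_eq_mul]
      conv_lhs => rw [he]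
      rw [map_add, map_add, map_smul, map_smul, smul_eq_mul]
      ring
    conv_lhs => rw [← h]
    rw [e2]
    field_simp
    ring
  have hzl : ‖(l : ℂ) - z‖ ≤ 4 * p * m := by
    have e3 : (l : ℂ) - z = -(l * (f (vv T x z) - 1)) := by
      rw [mul_sub, h]
      ring
    rw [e3, norm_neg, norm_mul, Complex.norm_real, Real.norm_of_nonneg hl0.le]
    calc l * ‖f (vv T x z) - 1‖ ≤ l * (2 * p * m / ‖z‖) := by gcongr
      _ ≤ 4 * p * m := by
        rw [mul_div_assoc', div_le_iff₀ hz0]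
        nlinarith
  rw [e1]
  refine (norm_add_le _ _).trans ?_
  rw [norm_mul, norm_div, norm_div, norm_mul, norm_pow, Complex.norm_real,
    Real.norm_of_nonneg hl0.le]
  have t1 : ‖(l : ℂ) - z‖ / ‖z‖ * ‖f (T x)‖ ≤ 8 * p ^ 2 * m ^ 2 / l := by
    calc ‖(l : ℂ) - z‖ / ‖z‖ * ‖f (T x)‖ ≤ (4 * p * m) / (l / 2) * (1 * p * m) := by
          gcongr
      _ = 8 * p ^ 2 * m ^ 2 / l := by
          field_simp
          ring
  have t2 : l * ‖f (T (T (vv T x z)))‖ / ‖z‖ ^ 2 ≤ 8 * p * m ^ 2 / l := by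
    calc l * ‖f (T (T (vv T x z)))‖ / ‖z‖ ^ 2 ≤ l * ((2 * m) * p * m) / (l / 2) ^ 2 := by
          gcongr
      _ = 8 * p * m ^ 2 / l := by
          field_simp
          ring
  have t3 : 8 * p ^ 2 * m ^ 2 / l + 8 * p * m ^ 2 / l ≤ 100 * p ^ 2 * m ^ 2 / l := by
    rw [← add_div]
    apply div_le_div_of_nonneg_right _ hl0.le
    nlinarith [mul_nonneg (sub_nonneg.2 hp) (mul_nonneg (by linarith : (0 : ℝ) ≤ p) (sq_nonneg m)),
      mul_nonneg (sq_nonneg p) (sq_nonneg m)]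
  linarith

theorem vv_lip (T : X →L[ℂ] X) (f : X →L[ℂ] ℂ) (x : X) {m p : ℝ}
    (hm : 1 ≤ m) (hT : ‖T‖ ≤ m) (hfp : ‖f‖ * ‖x‖ ≤ p) {z z' : ℂ}
    (hz : 2 * m ≤ ‖z‖) (hz' : 2 * m ≤ ‖z'‖) :
    ‖f (vv T x z) - f (vv T x z')‖ ≤ 4 * p * m * (‖z - z'‖ / (‖z‖ * ‖z'‖)) := by
  have he := vv_eq T x hm hT hz
  have he' := vv_eq T x hm hT hz'
  have hz0 : 0 < ‖z‖ := by linarith
  have hz0' : 0 < ‖z'‖ := by linarith
  have hzne : z ≠ 0 := norm_pos_iff.1 hz0
  have hzne' : z' ≠ 0 := norm_pos_iff.1 hz0'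
  set v := vv T x z
  set v' := vv T x z'
  have e : v - v' = z⁻¹ • T (v - v') + (z⁻¹ - z'⁻¹) • T v' := by
    rw [map_sub, smul_sub, sub_smul]
    conv_lhs => rw [he, he']
    abel
  have h1 : ‖z⁻¹ • T (v - v')‖ ≤ 1 / 2 * ‖v - v'‖ := by
    rw [norm_smul, norm_inv, inv_mul_le_iff₀ hz0]
    calc ‖T (v - v')‖ ≤ ‖T‖ * ‖v - v'‖ := T.le_opNorm _
      _ ≤ m * ‖v - v'‖ := by gcongr
      _ ≤ ‖z‖ * (1 / 2 * ‖v - v'‖) := by
        nlinarith [norm_nonneg (v - v')]
  have h2 : ‖(z⁻¹ - z'⁻¹) • T v'‖ ≤ ‖z - z'‖ / (‖z‖ * ‖z'‖) * (m * (2 * ‖x‖)) := by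
    rw [norm_smul]
    have e2 : z⁻¹ - z'⁻¹ = (z' - z) / (z * z') := by
      field_simp
    rw [e2, norm_div, norm_mul, norm_sub_rev z' z]
    gcongr
    calc ‖T v'‖ ≤ ‖T‖ * ‖v'‖ := T.le_opNorm _
      _ ≤ m * (2 * ‖x‖) := by
        gcongr
        exact vv_norm T x hm hT hz'
  have h3 : ‖v - v'‖ ≤ 4 * m * ‖x‖ * (‖z - z'‖ / (‖z‖ * ‖z'‖)) := by
    have : ‖v - v'‖ ≤ ‖z⁻¹ • T (v - v')‖ + ‖(z⁻¹ - z'⁻¹) • T v'‖ := by
      conv_lhs => rw [e]
      exact norm_add_le _ _
    linarith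
  rw [← map_sub]
  calc ‖f (v - v')‖ ≤ ‖f‖ * ‖v - v'‖ := f.le_opNorm _
    _ ≤ ‖f‖ * (4 * m * ‖x‖ * (‖z - z'‖ / (‖z‖ * ‖z'‖))) := by gcongr
    _ = 4 * (‖f‖ * ‖x‖) * m * (‖z - z'‖ / (‖z‖ * ‖z'‖)) := by ring
    _ ≤ 4 * p * m * (‖z - z'‖ / (‖z‖ * ‖z'‖)) := by gcongr

/-- TARGET -/
theorem busemann (T : X →L[ℂ] X) (f : X →L[ℂ] ℂ) (x : X) (hfx : f x = 1) {m p l : ℝ}
    (hm : 1 ≤ m) (hp : 1 ≤ p) (hT : ‖T‖ ≤ m) (hfp : ‖f‖ * ‖x‖ ≤ p) (hl : 100 * p * m ≤ l) :
    (∃ z ∈ spectrum ℂ (T + (l : ℂ) • f.smulRight x),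
      ‖z - (l + f (T x))‖ ≤ 100 * p ^ 2 * m ^ 2 / l) ∧
    ∀ z ∈ spectrum ℂ (T + (l : ℂ) • f.smulRight x),
      ‖z - (l + f (T x))‖ ≤ 100 * p ^ 2 * m ^ 2 / l ∨ ‖z‖ ≤ 4 * p * m := by
  have hpm : 1 ≤ p * m := by nlinarith
  have hmp : m ≤ p * m := by nlinarith
  have hl0 : 0 < l := by nlinarith
  constructor
  · -- the fixed point
    let Ψ : ℂ → ℂ := fun z => (l : ℂ) * f (vv T x z)
    set D : Set ℂ := closedBall (l : ℂ) (4 * p * m) with hD
    have hDn : ∀ z ∈ D, l / 2 ≤ ‖z‖ := by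
      intro z hz
      rw [hD, mem_closedBall, dist_eq_norm] at hz
      have h1 : ‖(l : ℂ)‖ ≤ ‖z‖ + ‖z - l‖ := by
        calc ‖(l : ℂ)‖ = ‖z - (z - l)‖ := by rw [sub_sub_cancel]
          _ ≤ ‖z‖ + ‖z - l‖ := norm_sub_le _ _
      rw [Complex.norm_real, Real.norm_of_nonneg hl0.le] at h1
      nlinarith
    have hmaps : MapsTo Ψ D D := by
      intro z hz
      have h1 := hDn z hz
      have hz2 : 2 * m ≤ ‖z‖ := by nlinarith
      have hz0 : 0 < ‖z‖ := by linarith
      have h2 := vv_est1 T f x hfx hm hT hfp hz2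
      rw [hD, mem_closedBall, dist_eq_norm]
      have e3 : Ψ z - l = l * (f (vv T x z) - 1) := by
        simp only [Ψ]
        ring
      rw [e3, norm_mul, Complex.norm_real, Real.norm_of_nonneg hl0.le]
      calc l * ‖f (vv T x z) - 1‖ ≤ l * (2 * p * m / ‖z‖) := by gcongr
        _ ≤ 4 * p * m := by
          rw [mul_div_assoc', div_le_iff₀ hz0]
          nlinarith
    have hcontr : ContractingWith (1 / 2 : NNReal) (hmaps.restrict Ψ D D) := by
      refine ⟨by
        rw [← NNReal.coe_lt_coe]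
        norm_num, ?_⟩
      apply LipschitzWith.of_dist_le_mul
      rintro ⟨z, hz⟩ ⟨z', hz'⟩
      have h1 := hDn z hz
      have h1' := hDn z' hz'
      have hz2 : 2 * m ≤ ‖z‖ := by nlinarith
      have hz2' : 2 * m ≤ ‖z'‖ := by nlinarith
      have h2 := vv_lip T f x hm hT hfp hz2 hz2'
      rw [Subtype.dist_eq, Subtype.dist_eq]
      simp only [MapsTo.val_restrict_apply]
      rw [dist_eq_norm, dist_eq_norm]
      have e3 : Ψ z - Ψ z' = l * (f (vv T x z) - f (vv T x z')) := by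
        simp only [Ψ]
        ring
      rw [e3, norm_mul, Complex.norm_real, Real.norm_of_nonneg hl0.le]
      have hc : ((1 / 2 : NNReal) : ℝ) = 1 / 2 := by norm_num
      rw [hc]
      calc l * ‖f (vv T x z) - f (vv T x z')‖
          ≤ l * (4 * p * m * (‖z - z'‖ / (‖z‖ * ‖z'‖))) := by gcongr
        _ ≤ l * (4 * p * m * (‖z - z'‖ / ((l / 2) * (l / 2)))) := by gcongr
        _ = (16 * p * m / l) * ‖z - z'‖ := by
          field_simp
          ring
        _ ≤ 1 / 2 * ‖z - z'‖ := by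
          refine mul_le_mul_of_nonneg_right ?_ (norm_nonneg _)
          rw [div_le_iff₀ hl0]
          nlinarith
    obtain ⟨z, hzD, hzfix, -⟩ := ContractingWith.exists_fixedPoint' (f := Ψ) (s := D)
      isClosed_closedBall.isComplete hmaps hcontr (x := (l : ℂ))
      (mem_closedBall_self (by positivity)) (edist_ne_top _ _)
    have hz : (l : ℂ) * f (vv T x z) = z := hzfix
    have h1 := hDn z hzD
    exact ⟨z, vv_spec T f x hfx hm hT (by nlinarith) hz,
      vv_est2 T f x hfx hm hp hT hfp hl h1 hz⟩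
  · intro z hz
    by_cases hsmall : ‖z‖ ≤ 4 * p * m
    · exact Or.inr hsmall
    · left
      push Not at hsmall
      have hz2 : 2 * m ≤ ‖z‖ := by nlinarith
      have hz0 : 0 < ‖z‖ := by linarith
      have h := spec_vv T f x hm hT hz2 hz
      refine vv_est2 T f x hfx hm hp hT hfp hl ?_ h
      by_contra hlt
      push Not at hlt
      have h2 := vv_est1 T f x hfx hm hT hfp hz2
      have e3 : z - (l : ℂ) = l * (f (vv T x z) - 1) := by
        rw [mul_sub, h]
        ring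
      have h3 : ‖z - (l : ℂ)‖ ≤ l * (2 * p * m / ‖z‖) := by
        rw [e3, norm_mul, Complex.norm_real, Real.norm_of_nonneg hl0.le]
        gcongr
      have h4 : ‖(l : ℂ)‖ ≤ ‖z‖ + ‖z - l‖ := by
        calc ‖(l : ℂ)‖ = ‖z - (z - l)‖ := by rw [sub_sub_cancel]
          _ ≤ ‖z‖ + ‖z - l‖ := norm_sub_le _ _
      rw [Complex.norm_real, Real.norm_of_nonneg hl0.le] at h4
      have h5 : l / 2 < l * (2 * p * m / ‖z‖) := by linarith
      rw [mul_div_assoc', lt_div_iff₀ hz0] at h5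
      nlinarith
end


-- from sol_1945.lean



section
variable {X : Type*} [NormedAddCommGroup X] [NormedSpace ℂ X] [CompleteSpace X]


theorem continuous_pow_line (a b : X →L[ℂ] X) (n : ℕ) :
    Continuous (fun ζ : ℂ => ‖(a + ζ • b) ^ n‖) := by
  have : Continuous (fun ζ : ℂ => a + ζ • b) := by fun_prop
  exact (this.pow n).norm

/-- TARGET 1 -/
theorem measurable_sr_line (a b : X →L[ℂ] X) : Measurable (fun ζ : ℂ => sr (a + ζ • b)) := by
  unfold sr
  refine ENNReal.measurable_toReal.comp ?_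
  refine measurable_of_tendsto_metrizable
    (f := fun (n : ℕ) (ζ : ℂ) => ENNReal.ofReal (‖(a + ζ • b) ^ n‖ ^ (1 / (n : ℝ)))) ?_ ?_
  · intro n
    exact ((continuous_pow_line a b n).measurable.pow_const _).ennreal_ofReal
  · rw [tendsto_pi_nhds]
    intro ζ
    exact spectrum.pow_norm_pow_one_div_tendsto_nhds_spectralRadius (a + ζ • b)

theorem sr_pow_le [Nontrivial X] (c : X →L[ℂ] X) (n : ℕ) : sr c ^ n ≤ ‖c ^ n‖ := by
  obtain ⟨z, hz, h⟩ := exists_mem c
  rw [← h, ← norm_pow]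
  exact spectrum.norm_le_norm_of_mem (spectrum.pow_mem_pow c n hz)

theorem tendsto_log_pow (c : X →L[ℂ] X) (hc : 1 ≤ sr c) :
    Tendsto (fun n : ℕ => (1 / (n : ℝ)) * Real.log ‖c ^ n‖) atTop (𝓝 (Real.log (sr c))) := by
  have hX : Nontrivial X := by
    by_contra h
    rw [not_nontrivial_iff_subsingleton] at h
    have h1 : sr c ≤ ‖c‖ := sr_le_norm c
    have h2 : c = 0 := by ext x; exact Subsingleton.elim _ _
    rw [h2, norm_zero] at h1
    rw [h2] at hc
    linarith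
  have h1 := spectrum.pow_norm_pow_one_div_tendsto_nhds_spectralRadius c
  have h2 := (ENNReal.tendsto_toReal (specRad_ne_top c)).comp h1
  have h3 : Tendsto (fun n : ℕ => ‖c ^ n‖ ^ (1 / (n : ℝ))) atTop (𝓝 (sr c)) := by
    refine h2.congr fun n => ?_
    simp only [Function.comp_apply]
    rw [ENNReal.toReal_ofReal (Real.rpow_nonneg (norm_nonneg _) _)]
  have h4 := h3.log (by linarith)
  refine h4.congr fun n => ?_
  have h5 : 1 ≤ ‖c ^ n‖ := (one_le_pow₀ hc).trans (sr_pow_le c n)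
  rw [Real.log_rpow (by linarith)]

theorem jensen_ineq {h : ℂ → ℂ} (hh : Differentiable ℂ h) (h0 : h 0 ≠ 0) {ρ : ℝ} (hρ : 0 < ρ) :
    Real.log ‖h 0‖ ≤ Real.circleAverage (fun ζ => Real.log ‖h ζ‖) 0 ρ := by
  have han : AnalyticOnNhd ℂ h (closedBall 0 |ρ|) := fun z _ => hh.analyticAt z
  rw [AnalyticOnNhd.circleAverage_log_norm hρ.ne' han h0]
  refine le_add_of_nonneg_left (finsum_nonneg fun u => ?_)
  by_cases hu : u ∈ closedBall (0 : ℂ) |ρ|
  · refine mul_nonneg (mod_cast MeromorphicOn.AnalyticOnNhd.divisor_nonneg han u) ?_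
    by_cases hu0 : u = 0
    · simp [hu0]
    · refine Real.log_nonneg ?_
      rw [mem_closedBall, dist_zero_right, abs_of_pos hρ] at hu
      have hpos : 0 < ‖u‖ := norm_pos_iff.2 hu0
      rw [zero_sub, norm_neg, ← div_eq_mul_inv, one_le_div hpos]
      exact hu
  · simp [hu]

/-- TARGET 2 -/
theorem submean (a b : X →L[ℂ] X) {ρ : ℝ} (hρ : 0 < ρ) (ha : 1 ≤ sr a)
    (h : ∀ ζ : ℂ, ‖ζ‖ = ρ → 1 ≤ sr (a + ζ • b)) :
    Real.log (sr a) ≤ Real.circleAverage (fun ζ => Real.log (sr (a + ζ • b))) 0 ρ := by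
  have hX : Nontrivial X := by
    by_contra h
    rw [not_nontrivial_iff_subsingleton] at h
    have h1 : sr a ≤ ‖a‖ := sr_le_norm a
    have h2 : a = 0 := by ext x; exact Subsingleton.elim _ _
    rw [h2, norm_zero] at h1
    rw [h2] at ha
    linarith
  have hN1 : ∀ (n : ℕ) (ζ : ℂ), ‖ζ‖ = ρ → 1 ≤ ‖(a + ζ • b) ^ n‖ := fun n ζ hζ =>
    (one_le_pow₀ (h ζ hζ)).trans (sr_pow_le _ n)
  have hsph : ∀ ζ ∈ sphere (0 : ℂ) |ρ|, ‖ζ‖ = ρ := by
    intro ζ hζ
    rwa [mem_sphere, dist_zero_right, abs_of_pos hρ] at hζ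
  have hcm : ∀ θ : ℝ, ‖circleMap 0 ρ θ‖ = ρ := by
    intro θ
    rw [norm_circleMap_zero, abs_of_pos hρ]
  have hcont : ∀ n : ℕ, Continuous fun θ : ℝ => Real.log ‖(a + circleMap 0 ρ θ • b) ^ n‖ := by
    intro n
    refine Continuous.log ((continuous_pow_line a b n).comp (continuous_circleMap 0 ρ)) ?_
    intro θ
    have := hN1 n _ (hcm θ)
    exact (lt_of_lt_of_le one_pos this).ne'
  have hcint : ∀ n : ℕ, CircleIntegrable (fun ζ : ℂ => Real.log ‖(a + ζ • b) ^ n‖) 0 ρ := fun n =>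
    (hcont n).intervalIntegrable _ _
  have step : ∀ n : ℕ, n ≠ 0 → Real.log (sr a)
      ≤ Real.circleAverage (fun ζ => (1 / (n : ℝ)) * Real.log ‖(a + ζ • b) ^ n‖) 0 ρ := by
    intro n hn
    have hn' : (0 : ℝ) < n := by exact_mod_cast Nat.pos_of_ne_zero hn
    have han1 : 1 ≤ ‖a ^ n‖ := (one_le_pow₀ ha).trans (sr_pow_le a n)
    obtain ⟨l, hl1, hl2⟩ := exists_dual_vector ℂ (a ^ n) (by linarith)
    let hf : ℂ → ℂ := fun ζ => l ((a + ζ • b) ^ n)
    have hdiff : Differentiable ℂ hf := by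
      have : Differentiable ℂ fun ζ : ℂ => a + ζ • b := by fun_prop
      exact l.differentiable.comp (this.pow n)
    have hf0 : hf 0 = (‖a ^ n‖ : ℂ) := by
      show l ((a + (0 : ℂ) • b) ^ n) = _
      rw [zero_smul, add_zero, hl2]
      rfl
    have hf0n : ‖hf 0‖ = ‖a ^ n‖ := by rw [hf0]; simp
    have hne : hf 0 ≠ 0 := by
      rw [← norm_pos_iff, hf0n]; linarith
    have hJ := jensen_ineq hdiff hne hρ
    rw [hf0n] at hJ
    have hmono : Real.circleAverage (fun ζ => Real.log ‖hf ζ‖) 0 ρ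
        ≤ Real.circleAverage (fun ζ => Real.log ‖(a + ζ • b) ^ n‖) 0 ρ := by
      refine Real.circleAverage_mono ?_ (hcint n) ?_
      · have han : MeromorphicOn hf (sphere 0 |ρ|) := fun z _ => (hdiff.analyticAt z).meromorphicAt
        exact han.circleIntegrable_log_norm
      · intro ζ hζ
        have h1 := hN1 n ζ (hsph ζ hζ)
        have h2 : ‖hf ζ‖ ≤ ‖(a + ζ • b) ^ n‖ := by
          have := l.le_opNorm ((a + ζ • b) ^ n)
          rwa [hl1, one_mul] at this
        by_cases hz : hf ζ = 0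
        · simp only [hz, norm_zero, Real.log_zero]
          exact Real.log_nonneg h1
        · exact Real.log_le_log (norm_pos_iff.2 hz) h2
    have e1 : (n : ℝ) * Real.log (sr a) ≤ Real.log ‖a ^ n‖ := by
      rw [← Real.log_pow]
      exact Real.log_le_log (by positivity) (sr_pow_le a n)
    have e2 : Real.circleAverage (fun ζ => (1 / (n : ℝ)) * Real.log ‖(a + ζ • b) ^ n‖) 0 ρ
        = (1 / (n : ℝ)) * Real.circleAverage (fun ζ => Real.log ‖(a + ζ • b) ^ n‖) 0 ρ := by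
      have := Real.circleAverage_fun_smul (a := (1 / (n : ℝ))) (c := (0 : ℂ)) (R := ρ)
        (f := fun ζ : ℂ => Real.log ‖(a + ζ • b) ^ n‖)
      simpa only [smul_eq_mul] using this
    rw [e2, one_div, ← div_eq_inv_mul, le_div_iff₀ hn']
    linarith
  -- the limit
  have hlim : Tendsto (fun n : ℕ => Real.circleAverage
      (fun ζ => (1 / (n : ℝ)) * Real.log ‖(a + ζ • b) ^ n‖) 0 ρ) atTop
      (𝓝 (Real.circleAverage (fun ζ => Real.log (sr (a + ζ • b))) 0 ρ)) := by
    unfold Real.circleAverage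
    refine Filter.Tendsto.const_smul ?_ _
    refine intervalIntegral.tendsto_integral_filter_of_dominated_convergence
      (fun _ => Real.log (‖a‖ + ρ * ‖b‖)) ?_ ?_ ?_ ?_
    · refine Eventually.of_forall fun n => ?_
      exact ((hcont n).const_mul _).aestronglyMeasurable
    · filter_upwards [eventually_ne_atTop 0] with n hn
      refine Eventually.of_forall fun θ _ => ?_
      have hn' : (0 : ℝ) < n := by exact_mod_cast Nat.pos_of_ne_zero hn
      have h1 := hN1 n _ (hcm θ)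
      have h1' := hN1 1 _ (hcm θ)
      rw [pow_one] at h1'
      have h0 : 0 ≤ Real.log ‖(a + circleMap 0 ρ θ • b) ^ n‖ := Real.log_nonneg h1
      rw [Real.norm_of_nonneg (by positivity)]
      have h2 : ‖(a + circleMap 0 ρ θ • b) ^ n‖ ≤ ‖a + circleMap 0 ρ θ • b‖ ^ n := norm_pow_le _ n
      have h3 : ‖a + circleMap 0 ρ θ • b‖ ≤ ‖a‖ + ρ * ‖b‖ := by
        refine (norm_add_le _ _).trans ?_
        rw [norm_smul, hcm]
      have h4 : Real.log ‖(a + circleMap 0 ρ θ • b) ^ n‖ ≤ n * Real.log (‖a‖ + ρ * ‖b‖) := by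
        rw [← Real.log_pow]
        refine Real.log_le_log (by linarith) (h2.trans ?_)
        exact pow_le_pow_left₀ (norm_nonneg _) h3 n
      rw [one_div, ← div_eq_inv_mul, div_le_iff₀ hn']
      linarith
    · simp
    · refine Eventually.of_forall fun θ _ => ?_
      exact tendsto_log_pow _ (h _ (hcm θ))
  refine ge_of_tendsto hlim ?_
  filter_upwards [eventually_ne_atTop 0] with n hn
  exact step n hn
end


-- from sol_1946.lean




theorem lmv_area (f : ℂ → ℝ) (hf : Measurable f) (c : ℂ) (R : ℝ) (hR : 0 < R) (S : ℝ)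
    (hS : ∀ ζ ∈ ball c R, |f ζ| ≤ S)
    (hmv : ∀ ρ : ℝ, 0 < ρ → Real.circleAverage f c ρ = f c) :
    ∫ ζ in ball c R, f ζ = Real.pi * R ^ 2 * f c := by
  have hpi := Real.pi_pos
  have h1 : ∫ ζ in ball c R, f ζ = ∫ w, (ball (0 : ℂ) R).indicator (fun w => f (c + w)) w := by
    rw [← MeasureTheory.integral_indicator measurableSet_ball,
      ← MeasureTheory.integral_add_left_eq_self _ c]
    congr 1
    funext w
    simp only [Set.indicator, mem_ball, dist_eq_norm, add_sub_cancel_left, sub_zero]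
  have h2 : ∫ p in polarCoord.target,
      p.1 • (ball (0 : ℂ) R).indicator (fun w => f (c + w)) (Complex.polarCoord.symm p) =
      ∫ p in polarCoord.target, (Prod.fst ⁻¹' (Iio R) : Set (ℝ × ℝ)).indicator
        (fun p : ℝ × ℝ => p.1 * f (circleMap c p.1 p.2)) p := by
    refine MeasureTheory.setIntegral_congr_fun polarCoord.open_target.measurableSet fun p hp => ?_
    rw [polarCoord_target] at hp
    have hp1 : 0 < p.1 := hp.1
    have hmem : (Complex.polarCoord.symm p ∈ ball (0 : ℂ) R) ↔ p.1 < R := by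
      rw [mem_ball, dist_zero_right, Complex.norm_polarCoord_symm, abs_of_pos hp1]
    have hval : c + Complex.polarCoord.symm p = circleMap c p.1 p.2 := by
      rw [Complex.polarCoord_symm_apply, circleMap, Complex.exp_mul_I]
      push_cast
      ring
    by_cases hlt : p.1 < R
    · rw [Set.indicator_of_mem (hmem.mpr hlt), Set.indicator_of_mem (show p ∈ _ from hlt), hval,
        smul_eq_mul]
    · rw [Set.indicator_of_notMem (fun h => hlt (hmem.mp h)),
        Set.indicator_of_notMem (show p ∉ (Prod.fst ⁻¹' (Iio R) : Set (ℝ × ℝ)) from hlt), smul_zero]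
  have hset : polarCoord.target ∩ (Prod.fst ⁻¹' (Iio R) : Set (ℝ × ℝ)) =
      Ioo 0 R ×ˢ Ioo (-Real.pi) Real.pi := by
    rw [polarCoord_target]
    ext p
    simp only [mem_inter_iff, mem_prod, mem_Ioi, mem_Ioo, mem_preimage, mem_Iio]
    tauto
  rw [h1, ← Complex.integral_comp_polarCoord_symm, h2,
    MeasureTheory.setIntegral_indicator (measurable_fst measurableSet_Iio), hset,
    MeasureTheory.Measure.volume_eq_prod, MeasureTheory.setIntegral_prod]
  · have h3 : ∀ r ∈ Ioo (0 : ℝ) R, ∫ y in Ioo (-Real.pi) Real.pi, r * f (circleMap c r y) =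
        (2 * Real.pi * f c) * r := by
      intro r hr
      rw [MeasureTheory.integral_const_mul, ← MeasureTheory.integral_Ioc_eq_integral_Ioo,
        ← intervalIntegral.integral_of_le (by linarith)]
      have hper : Function.Periodic (fun y => f (circleMap c r y)) (2 * Real.pi) := by
        intro y
        show f (circleMap c r (y + 2 * Real.pi)) = f (circleMap c r y)
        rw [periodic_circleMap c r y]
      have h4 := hper.intervalIntegral_add_eq (-Real.pi) 0
      rw [show -Real.pi + 2 * Real.pi = Real.pi by ring, zero_add] at h4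
      rw [h4]
      have h5 := hmv r hr.1
      rw [Real.circleAverage_def, smul_eq_mul] at h5
      have h6 : ∫ θ in (0:ℝ)..2 * Real.pi, f (circleMap c r θ) = 2 * Real.pi * f c := by
        rw [← h5]
        field_simp
      rw [h6]
      ring
    rw [MeasureTheory.setIntegral_congr_fun measurableSet_Ioo h3, MeasureTheory.integral_const_mul,
      ← MeasureTheory.integral_Ioc_eq_integral_Ioo, ← intervalIntegral.integral_of_le hR.le,
      integral_id]
    ring
  · refine MeasureTheory.IntegrableOn.of_bound ?_ ?_ (R * S) ?_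
    · rw [MeasureTheory.Measure.prod_prod]
      exact ENNReal.mul_lt_top (by simp) (by simp)
    · refine Measurable.aestronglyMeasurable ?_
      refine measurable_fst.mul (hf.comp ?_)
      have : Continuous fun p : ℝ × ℝ => circleMap c p.1 p.2 := by
        unfold circleMap
        fun_prop
      exact this.measurable
    · refine (MeasureTheory.ae_restrict_iff' (measurableSet_Ioo.prod measurableSet_Ioo)).mpr
        (Filter.Eventually.of_forall fun p hp => ?_)
      have hp1 := hp.1.1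
      have hp2 := hp.1.2
      rw [Real.norm_eq_abs, abs_mul, abs_of_pos hp1]
      refine mul_le_mul hp2.le (hS _ ?_) (abs_nonneg _) hR.le
      rw [mem_ball, dist_eq_norm, circleMap_sub_center, norm_circleMap_zero, abs_of_pos hp1]
      exact hp2

theorem lmv_vol (c : ℂ) (r : ℝ) (hr : 0 ≤ r) :
    MeasureTheory.volume.real (ball c r) = Real.pi * r ^ 2 := by
  rw [MeasureTheory.measureReal_def, Complex.volume_ball, ENNReal.toReal_mul, ENNReal.toReal_pow,
    ENNReal.toReal_ofReal hr]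
  simp [mul_comm]

theorem lmv_diff (c c' : ℂ) (R : ℝ) (hR : 0 < R) (h : ‖c' - c‖ ≤ R) :
    MeasureTheory.volume.real (ball c R \ ball c' R) ≤ 2 * Real.pi * R * ‖c' - c‖ := by
  set a := ‖c' - c‖ with ha
  have ha0 : 0 ≤ a := norm_nonneg _
  have hpi := Real.pi_pos
  have hsub : ball c (R - a) ⊆ ball c' R := by
    intro x hx
    rw [mem_ball, dist_eq_norm] at hx ⊢
    have h1 : x - c' = (x - c) - (c' - c) := by ring
    rw [h1]
    calc ‖(x - c) - (c' - c)‖ ≤ ‖x - c‖ + ‖c' - c‖ := norm_sub_le _ _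
      _ < (R - a) + a := by linarith
      _ = R := by ring
  have hsub2 : ball c (R - a) ⊆ ball c R := ball_subset_ball (by linarith)
  calc MeasureTheory.volume.real (ball c R \ ball c' R)
      ≤ MeasureTheory.volume.real (ball c R \ ball c (R - a)) := by
        refine MeasureTheory.measureReal_mono (fun x hx => ⟨hx.1, fun h => hx.2 (hsub h)⟩) ?_
        exact ((MeasureTheory.measure_mono sdiff_subset).trans_lt MeasureTheory.measure_ball_lt_top).ne
    _ = Real.pi * R ^ 2 - Real.pi * (R - a) ^ 2 := by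
        rw [MeasureTheory.measureReal_sdiff hsub2 measurableSet_ball MeasureTheory.measure_ball_lt_top.ne,
          lmv_vol _ _ hR.le, lmv_vol _ _ (by linarith)]
    _ ≤ 2 * Real.pi * R * a := by nlinarith [sq_nonneg a]

theorem lmv_lip (f : ℂ → ℝ) (hf : Measurable f)
    (hmv : ∀ (c : ℂ) (ρ : ℝ), 0 < ρ → Real.circleAverage f c ρ = f c)
    (c a : ℂ) (R S : ℝ) (hR : 0 < R) (ha : ‖a‖ ≤ R)
    (hS : ∀ ζ, ‖ζ - c‖ ≤ R + ‖a‖ → |f ζ| ≤ S) :
    |f (c + a) - f c| ≤ 4 * ‖a‖ / R * S := by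
  have hpi := Real.pi_pos
  have hS1 : ∀ ζ ∈ ball c R, |f ζ| ≤ S := by
    intro ζ hζ
    rw [mem_ball, dist_eq_norm] at hζ
    exact hS ζ (by linarith [norm_nonneg a])
  have hS2 : ∀ ζ ∈ ball (c + a) R, |f ζ| ≤ S := by
    intro ζ hζ
    rw [mem_ball, dist_eq_norm] at hζ
    refine hS ζ ?_
    have h1 : ζ - c = (ζ - (c + a)) + a := by ring
    rw [h1]
    exact (norm_add_le _ _).trans (by linarith)
  have hS0 : 0 ≤ S := (abs_nonneg _).trans (hS c (by simp; positivity))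
  have hi : ∀ x, (∀ ζ ∈ ball x R, |f ζ| ≤ S) → MeasureTheory.IntegrableOn f (ball x R) := by
    intro x hx
    refine MeasureTheory.IntegrableOn.of_bound MeasureTheory.measure_ball_lt_top hf.aestronglyMeasurable S ?_
    exact (MeasureTheory.ae_restrict_iff' measurableSet_ball).mpr
      (Filter.Eventually.of_forall fun p hp => hx p hp)
  have h1 := lmv_area f hf c R hR S hS1 (hmv c)
  have h2 := lmv_area f hf (c + a) R hR S hS2 (hmv (c + a))
  have h3 := MeasureTheory.integral_inter_add_sdiff (s := ball c R) (t := ball (c + a) R)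
    measurableSet_ball (hi _ hS1)
  have h4 := MeasureTheory.integral_inter_add_sdiff (s := ball (c + a) R) (t := ball c R)
    measurableSet_ball (hi _ hS2)
  rw [Set.inter_comm] at h4
  have hn : ‖(c + a) - c‖ = ‖a‖ := by rw [add_sub_cancel_left]
  have hn' : ‖c - (c + a)‖ = ‖a‖ := by rw [norm_sub_rev, hn]
  have h5 : |∫ x in ball c R \ ball (c + a) R, f x| ≤ S * (2 * Real.pi * R * ‖a‖) := by
    refine (MeasureTheory.norm_setIntegral_le_of_norm_le_const (f := f) (C := S)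
      ((MeasureTheory.measure_mono sdiff_subset).trans_lt MeasureTheory.measure_ball_lt_top)
      (fun x hx => hS1 x hx.1)).trans ?_
    refine mul_le_mul_of_nonneg_left ?_ hS0
    have := lmv_diff c (c + a) R hR (by rw [hn]; exact ha)
    rwa [hn] at this
  have h6 : |∫ x in ball (c + a) R \ ball c R, f x| ≤ S * (2 * Real.pi * R * ‖a‖) := by
    refine (MeasureTheory.norm_setIntegral_le_of_norm_le_const (f := f) (C := S)
      ((MeasureTheory.measure_mono sdiff_subset).trans_lt MeasureTheory.measure_ball_lt_top)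
      (fun x hx => hS2 x hx.1)).trans ?_
    refine mul_le_mul_of_nonneg_left ?_ hS0
    have := lmv_diff (c + a) c R hR (by rw [hn']; exact ha)
    rwa [hn'] at this
  have h7 : Real.pi * R ^ 2 * |f (c + a) - f c| ≤ 4 * Real.pi * R * ‖a‖ * S := by
    rw [← abs_of_pos (show 0 < Real.pi * R ^ 2 by positivity), ← abs_mul, mul_sub, ← h1, ← h2,
      ← h3, ← h4]
    rw [add_sub_add_left_eq_sub]
    refine (abs_sub _ _).trans ?_
    linarith
  have h8 : 4 * ‖a‖ / R * S = (4 * Real.pi * R * ‖a‖ * S) / (Real.pi * R ^ 2) := by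
    field_simp
  rw [h8, le_div_iff₀ (by positivity)]
  linarith

theorem lmv_shift (f : ℂ → ℝ) (a c : ℂ) (ρ : ℝ) :
    Real.circleAverage (fun z => f (z + a)) c ρ = Real.circleAverage f (c + a) ρ := by
  rw [Real.circleAverage_def, Real.circleAverage_def]
  congr 2
  funext θ
  congr 1
  unfold circleMap
  ring

/-- TARGET -/
theorem liouville_mv (B : ℂ → ℝ) (hB : Measurable B) (C : ℝ)
    (hC : ∀ ζ, |B ζ| ≤ C * (1 + ‖ζ‖) ^ (3 / 2 : ℝ))
    (hmv : ∀ (c : ℂ) (ρ : ℝ), 0 < ρ → Real.circleAverage B c ρ = B c) :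
    ∀ z a b : ℂ, B (z + a + b) - B (z + a) - B (z + b) + B z = 0 := by
  intro z a b
  have hC0 : 0 ≤ C := by
    have h := (abs_nonneg _).trans (hC 0)
    simpa using h
  -- the first difference
  set D : ℂ → ℝ := fun z => B (z + a) - B z with hD
  have hDm : Measurable D := (hB.comp (measurable_id.add_const a)).sub hB
  have hint : ∀ (c : ℂ) (ρ : ℝ), 0 < ρ → CircleIntegrable B c ρ := by
    intro c ρ hρ
    have hm : Measurable fun θ => B (circleMap c ρ θ) := hB.comp (continuous_circleMap c ρ).measurable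
    refine (intervalIntegrable_iff_integrableOn_Ioc_of_le (by positivity)).mpr ?_
    refine MeasureTheory.IntegrableOn.of_bound measure_Ioc_lt_top hm.aestronglyMeasurable
      (C * (1 + (‖c‖ + ρ)) ^ (3 / 2 : ℝ)) ?_
    refine Filter.Eventually.of_forall fun θ => ?_
    refine (hC _).trans (mul_le_mul_of_nonneg_left ?_ hC0)
    refine Real.rpow_le_rpow (by positivity) ?_ (by norm_num)
    have h1 : ‖circleMap c ρ θ‖ ≤ ‖c‖ + ρ := by
      unfold circleMap
      refine (norm_add_le _ _).trans ?_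
      rw [norm_mul, Complex.norm_exp_ofReal_mul_I, mul_one, Complex.norm_real, Real.norm_of_nonneg hρ.le]
    linarith
  have hDmv : ∀ (c : ℂ) (ρ : ℝ), 0 < ρ → Real.circleAverage D c ρ = D c := by
    intro c ρ hρ
    have h1 : Real.circleAverage D c ρ =
        Real.circleAverage (fun z => B (z + a)) c ρ - Real.circleAverage B c ρ := by
      refine Real.circleAverage_fun_sub ?_ (hint c ρ hρ)
      have := hint (c + a) ρ hρ
      have h2 : (fun θ => (fun z => B (z + a)) (circleMap c ρ θ)) = fun θ => B (circleMap (c + a) ρ θ) := by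
        funext θ
        show B (circleMap c ρ θ + a) = _
        congr 1
        unfold circleMap
        ring
      unfold CircleIntegrable at this ⊢
      rw [h2]
      exact this
    rw [h1, lmv_shift, hmv _ _ hρ, hmv _ _ hρ]
  set K : ℝ := 4 * ‖a‖ * C * 2 ^ (3 / 2 : ℝ) with hK
  have hK0 : 0 ≤ K := by positivity
  have hDb : ∀ (ζ : ℂ) (R : ℝ), 1 + ‖ζ‖ + ‖a‖ ≤ R → |D ζ| ≤ K * R ^ (1 / 2 : ℝ) := by
    intro ζ R hR
    have hζ := norm_nonneg ζ
    have ha := norm_nonneg a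
    have hRpos : 0 < R := by linarith
    have h1 := lmv_lip B hB hmv ζ a R (C * (2 * R) ^ (3 / 2 : ℝ)) hRpos (by linarith) (by
      intro ξ hξ
      refine (hC ξ).trans (mul_le_mul_of_nonneg_left ?_ hC0)
      refine Real.rpow_le_rpow (by positivity) ?_ (by norm_num)
      have : ‖ξ‖ ≤ ‖ξ - ζ‖ + ‖ζ‖ := by
        have := norm_add_le (ξ - ζ) ζ
        simpa using this
      linarith)
    refine h1.trans (le_of_eq ?_)
    rw [Real.mul_rpow (by norm_num) hRpos.le, hK]
    have h2 : R ^ (3 / 2 : ℝ) = R * R ^ (1 / 2 : ℝ) := by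
      rw [show (3 / 2 : ℝ) = 1 + 1 / 2 by norm_num, Real.rpow_add hRpos, Real.rpow_one]
    rw [h2]
    field_simp
  have hlim : ∀ R : ℝ, 1 + ‖z‖ + ‖a‖ + ‖b‖ ≤ R →
      |D (z + b) - D z| ≤ (4 * ‖b‖ * K * 2 ^ (1 / 2 : ℝ)) * R ^ (-(1 / 2) : ℝ) := by
    intro R hR
    have hz := norm_nonneg z
    have ha := norm_nonneg a
    have hb := norm_nonneg b
    have hRpos : 0 < R := by linarith
    have h1 := lmv_lip D hDm hDmv z b R (K * (2 * R) ^ (1 / 2 : ℝ)) hRpos (by linarith) (by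
      intro ξ hξ
      refine hDb ξ (2 * R) ?_
      have : ‖ξ‖ ≤ ‖ξ - z‖ + ‖z‖ := by
        have := norm_add_le (ξ - z) z
        simpa using this
      linarith)
    refine h1.trans (le_of_eq ?_)
    rw [Real.mul_rpow (by norm_num) hRpos.le]
    have h2 : R ^ (-(1 / 2) : ℝ) = R ^ (1 / 2 : ℝ) / R := by
      rw [show (-(1 / 2) : ℝ) = 1 / 2 - 1 by norm_num, Real.rpow_sub hRpos, Real.rpow_one]
    rw [h2]
    ring
  have hzero : |D (z + b) - D z| ≤ 0 := by
    have h1 : Filter.Tendsto (fun R : ℝ => (4 * ‖b‖ * K * 2 ^ (1 / 2 : ℝ)) * R ^ (-(1 / 2) : ℝ))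
        Filter.atTop (nhds ((4 * ‖b‖ * K * 2 ^ (1 / 2 : ℝ)) * 0)) :=
      (tendsto_rpow_neg_atTop (by norm_num)).const_mul _
    rw [mul_zero] at h1
    refine ge_of_tendsto h1 ?_
    filter_upwards [Filter.eventually_ge_atTop (1 + ‖z‖ + ‖a‖ + ‖b‖)] with R hR
    exact hlim R hR
  have h0 : D (z + b) - D z = 0 := abs_eq_zero.mp (le_antisymm hzero (abs_nonneg _))
  simp only [hD] at h0
  rw [show z + a + b = z + b + a by ring]
  linarith



-- from sol_1947.lean



section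
variable {Y : Type*} [NormedAddCommGroup Y] [NormedSpace ℂ Y] [CompleteSpace Y]

theorem inv_apply {T : Y →L[ℂ] Y} (hT : IsUnit T) (y : Y) : T (Ring.inverse T y) = y := by
  have h : (T * Ring.inverse T) y = (1 : Y →L[ℂ] Y) y := by
    rw [Ring.mul_inverse_cancel _ hT]
  exact h

theorem inv_apply' {T : Y →L[ℂ] Y} (hT : IsUnit T) (y : Y) : Ring.inverse T (T y) = y := by
  have h : (Ring.inverse T * T) y = (1 : Y →L[ℂ] Y) y := by
    rw [Ring.inverse_mul_cancel _ hT]
  exact h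

theorem res_bound {E : Y →L[ℂ] Y} {g : Y →L[ℂ] ℂ} {y : Y} {C : ℝ} (hC0 : 0 ≤ C)
    (hC : ∀ t z : ℂ, z ∈ spectrum ℂ (E + t • g.smulRight y) → |z.im| ≤ C * ‖t‖) {z : ℂ}
    (hz : IsUnit (z • (1 : Y →L[ℂ] Y) - E)) (him : z.im ≠ 0) :
    ‖g (Ring.inverse (z • (1 : Y →L[ℂ] Y) - E) y)‖ ≤ C / |z.im| := by
  set v := Ring.inverse (z • (1 : Y →L[ℂ] Y) - E) y with hv
  have him' : 0 < |z.im| := abs_pos.mpr him
  by_cases h0 : g v = 0
  · rw [h0, norm_zero]
    positivity
  have h1 : (z • (1 : Y →L[ℂ] Y) - E) v = y := inv_apply hz y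
  have h2 : E v = z • v - y := by
    rw [← h1]
    simp
  have hv0 : v ≠ 0 := by
    intro h
    apply h0
    rw [h, map_zero]
  have h3 : (E + (g v)⁻¹ • g.smulRight y) v = z • v := by
    show E v + (g v)⁻¹ • (g v • y) = z • v
    rw [h2, smul_smul, inv_mul_cancel₀ h0, one_smul]
    abel
  have h4 := hC _ z (mem_spec_of_eigen hv0 h3)
  have h5 : 0 < ‖g v‖ := norm_pos_iff.mpr h0
  rw [norm_inv, ← div_eq_mul_inv, le_div_iff₀ h5] at h4
  rw [le_div_iff₀ him']
  linarith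

theorem exists_root {q : ℂ} (hq : ‖q‖ ≤ 1 / 8) : ∃ z : ℂ, z * (z - 1) = q ∧ ‖z‖ ≤ 1 / 4 := by
  obtain ⟨s, hs⟩ := IsAlgClosed.exists_pow_nat_eq (1 + 4 * q) (n := 2) two_pos
  have key : ∀ a b : ℂ, a + b = 1 → a * b = -q → ‖a‖ ≤ ‖b‖ → a * (a - 1) = q ∧ ‖a‖ ≤ 1 / 4 := by
    intro a b h1 h2 h3
    constructor
    · linear_combination a * h1 - h2
    · have h4 : ‖a‖ * ‖b‖ = ‖q‖ := by rw [← norm_mul, h2, norm_neg]
      have h5 : 1 ≤ ‖a‖ + ‖b‖ := by
        calc (1 : ℝ) = ‖(1 : ℂ)‖ := norm_one.symm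
          _ = ‖a + b‖ := by rw [h1]
          _ ≤ _ := norm_add_le _ _
      nlinarith [norm_nonneg a]
  have e1 : (1 - s) / 2 + (1 + s) / 2 = 1 := by ring
  have e2 : (1 - s) / 2 * ((1 + s) / 2) = -q := by linear_combination (-1 / 4) * hs
  rcases le_total ‖(1 - s) / 2‖ ‖(1 + s) / 2‖ with h | h
  · exact ⟨_, key _ _ e1 e2 h⟩
  · exact ⟨_, key _ _ (by rw [add_comm]; exact e1) (by rw [mul_comm]; exact e2) h⟩

theorem isUnit_of_spec {E : Y →L[ℂ] Y} (hE : spectrum ℂ E ⊆ {0, 1}) {z : ℂ} (h0 : z ≠ 0)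
    (h1 : z ≠ 1) : IsUnit (z • (1 : Y →L[ℂ] Y) - E) := by
  by_contra h
  have := hE (mem_spec_iff.mpr h)
  rcases this with h | h
  · exact h0 h
  · exact h1 h

theorem isUnit_one_add {E : Y →L[ℂ] Y} (hE : spectrum ℂ E ⊆ {0, 1}) (w : ℂ) :
    IsUnit ((1 : Y →L[ℂ] Y) + w • (E - E * E)) := by
  by_cases hw : w = 0
  · rw [hw, zero_smul, add_zero]
    exact isUnit_one
  obtain ⟨s, hs⟩ := IsAlgClosed.exists_pow_nat_eq (1 + 4 * w⁻¹) (n := 2) two_pos
  set z := (1 + s) / 2 with hz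
  have hq : z * (z - 1) = w⁻¹ := by
    rw [hz]
    linear_combination (1 / 4) * hs
  have hwi : w⁻¹ ≠ 0 := inv_ne_zero hw
  have h0 : z ≠ 0 := by
    intro h
    rw [h, zero_mul] at hq
    exact hwi hq.symm
  have h1 : z ≠ 1 := by
    intro h
    rw [h, sub_self, mul_zero] at hq
    exact hwi hq.symm
  have u1 := isUnit_of_spec hE h0 h1
  have u2 : IsUnit ((1 - z) • (1 : Y →L[ℂ] Y) - E) := by
    refine isUnit_of_spec hE ?_ ?_
    · intro h
      exact h1 (sub_eq_zero.mp h).symm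
    · intro h
      apply h0
      linear_combination -h
  have hfac : (1 : Y →L[ℂ] Y) + w • (E - E * E) =
      (-w) • ((z • (1 : Y →L[ℂ] Y) - E) * ((1 - z) • (1 : Y →L[ℂ] Y) - E)) := by
    have h2 : w * (z * (z - 1)) = 1 := by rw [hq, mul_inv_cancel₀ hw]
    have h3 : (z • (1 : Y →L[ℂ] Y) - E) * ((1 - z) • (1 : Y →L[ℂ] Y) - E) =
        (z * (1 - z)) • (1 : Y →L[ℂ] Y) - E + E * E := by
      simp only [sub_mul, mul_sub, smul_mul_assoc, mul_smul_comm, one_mul, mul_one]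
      module
    rw [h3]
    have h4 : (1 : Y →L[ℂ] Y) = (w * (z * (z - 1))) • (1 : Y →L[ℂ] Y) := by
      rw [h2, one_smul]
    conv_lhs => rw [h4]
    module
  rw [hfac]
  exact (u1.mul u2).smul (Units.mk0 (-w) (neg_ne_zero.mpr hw))

theorem far_bound {E : Y →L[ℂ] Y} (hE : spectrum ℂ E ⊆ {0, 1}) {g : Y →L[ℂ] ℂ} {y : Y} {C : ℝ}
    (hC0 : 0 ≤ C)
    (hC : ∀ t z : ℂ, z ∈ spectrum ℂ (E + t • g.smulRight y) → |z.im| ≤ C * ‖t‖) {w : ℂ}
    (him : w.im ≠ 0) (hw : 8 ≤ ‖w‖) :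
    ‖g (Ring.inverse ((1 : Y →L[ℂ] Y) + w • (E - E * E)) y)‖ ≤ 8 * C * (‖w‖ / |w.im|) := by
  have hw0 : w ≠ 0 := by
    intro h
    rw [h] at him
    exact him rfl
  have hwpos : 0 < ‖w‖ := norm_pos_iff.mpr hw0
  have hwim : 0 < |w.im| := abs_pos.mpr him
  obtain ⟨z, hz, hz4⟩ := exists_root (q := w⁻¹) (by
    rw [norm_inv, one_div]
    exact inv_anti₀ (by norm_num) hw)
  have hqim : |(w⁻¹).im| = |w.im| / ‖w‖ ^ 2 := by
    rw [Complex.inv_im, abs_div, abs_neg, Complex.normSq_eq_norm_sq,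
      abs_of_nonneg (sq_nonneg ‖w‖)]
  have hqim0 : 0 < |(w⁻¹).im| := by
    rw [hqim]
    positivity
  have hqz : (w⁻¹).im = z.im * (2 * z.re - 1) := by
    rw [← hz]
    simp only [Complex.mul_im, Complex.sub_re, Complex.sub_im, Complex.one_re, Complex.one_im]
    ring
  have hre : |z.re| ≤ 1 / 4 := (Complex.abs_re_le_norm z).trans hz4
  have hzim : |(w⁻¹).im| ≤ 2 * |z.im| := by
    rw [hqz, abs_mul]
    have : |2 * z.re - 1| ≤ 2 := by
      rw [abs_le] at hre ⊢
      constructor <;> linarith [hre.1, hre.2]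
    nlinarith [abs_nonneg z.im]
  have hzim0 : 0 < |z.im| := by linarith
  have hzne : z.im ≠ 0 := abs_pos.mp hzim0
  have h2z : 1 / 2 ≤ ‖2 * z - 1‖ := by
    have h1 : ‖(1 : ℂ)‖ ≤ ‖2 * z - 1‖ + ‖2 * z‖ := by
      calc ‖(1 : ℂ)‖ = ‖2 * z - (2 * z - 1)‖ := by
            congr 1
            ring
        _ ≤ ‖2 * z‖ + ‖2 * z - 1‖ := norm_sub_le _ _
        _ = _ := add_comm _ _
    rw [norm_one, norm_mul, Complex.norm_ofNat] at h1
    linarith
  have h2z0 : 2 * z - 1 ≠ 0 := by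
    intro h
    rw [h, norm_zero] at h2z
    linarith
  have u1 : IsUnit (z • (1 : Y →L[ℂ] Y) - E) := by
    refine isUnit_of_spec hE ?_ ?_ <;> · intro h; rw [h] at hzne; exact hzne (by simp)
  have u2 : IsUnit ((1 - z) • (1 : Y →L[ℂ] Y) - E) := by
    refine isUnit_of_spec hE ?_ ?_
    · intro h
      have h' : z = 1 := (sub_eq_zero.mp h).symm
      rw [h'] at hzne
      exact hzne (by simp)
    · intro h
      have h' : z = 0 := by linear_combination -h
      rw [h'] at hzne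
      exact hzne (by simp)
  have b1 := res_bound hC0 hC u1 hzne
  have b2 := res_bound hC0 hC u2 (by simpa using hzne)
  set a := Ring.inverse (z • (1 : Y →L[ℂ] Y) - E) y with ha
  set b := Ring.inverse ((1 - z) • (1 : Y →L[ℂ] Y) - E) y with hb
  have ha1 : (z • (1 : Y →L[ℂ] Y) - E) a = y := inv_apply u1 y
  have hb1 : ((1 - z) • (1 : Y →L[ℂ] Y) - E) b = y := inv_apply u2 y
  have ha2 : E a = z • a - y := by
    rw [← ha1]
    simp
  have hb2 : E b = (1 - z) • b - y := by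
    rw [← hb1]
    simp
  have hu : Ring.inverse ((1 : Y →L[ℂ] Y) + w • (E - E * E)) y =
      (w⁻¹ / (2 * z - 1)) • (a - b) := by
    have h1 : ((1 : Y →L[ℂ] Y) + w • (E - E * E)) ((w⁻¹ / (2 * z - 1)) • (a - b)) = y := by
      have e1 : (E - E * E) a = (-w⁻¹) • a + (z - 1) • y + E y := by
        have : (E - E * E) a = E a - E (E a) := rfl
        rw [this, ha2, map_sub, map_smul, ha2, ← hz]
        module
      have e2 : (E - E * E) b = (-w⁻¹) • b - z • y + E y := by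
        have : (E - E * E) b = E b - E (E b) := rfl
        rw [this, hb2, map_sub, map_smul, hb2, ← hz]
        module
      have e3 : ((1 : Y →L[ℂ] Y) + w • (E - E * E)) ((w⁻¹ / (2 * z - 1)) • (a - b)) =
          (w⁻¹ / (2 * z - 1)) • ((a - b) + w • ((E - E * E) a - (E - E * E) b)) := by
        rw [map_smul]
        congr 1
        show (a - b) + w • ((E - E * E) (a - b)) = _
        rw [map_sub]
      rw [e3, e1, e2]
      have e4 : (a - b) + w • ((-w⁻¹) • a + (z - 1) • y + E y - ((-w⁻¹) • b - z • y + E y)) =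
          (1 - w * w⁻¹) • (a - b) + (w * (2 * z - 1)) • y := by module
      rw [e4, mul_inv_cancel₀ hw0, sub_self, zero_smul, zero_add, smul_smul]
      have e5 : w⁻¹ / (2 * z - 1) * (w * (2 * z - 1)) = 1 := by
        field_simp
      rw [e5, one_smul]
    conv_lhs => rw [← h1]
    exact inv_apply' (isUnit_one_add hE w) _
  rw [hu, map_smul, norm_smul, map_sub, norm_div, norm_inv]
  have him1 : |(1 - z).im| = |z.im| := by simp
  rw [him1] at b2
  have b3 : ‖g a - g b‖ ≤ 2 * (C / |z.im|) := by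
    have := norm_sub_le (g a) (g b)
    linarith
  have b4 : C / |z.im| ≤ 2 * (C * ‖w‖ ^ 2 / |w.im|) := by
    rw [div_le_iff₀ hzim0]
    have h1 : |w.im| / ‖w‖ ^ 2 ≤ 2 * |z.im| := hqim ▸ hzim
    calc C = 2 * (C * ‖w‖ ^ 2 / |w.im|) * ((|w.im| / ‖w‖ ^ 2) / 2) := by
          field_simp
      _ ≤ 2 * (C * ‖w‖ ^ 2 / |w.im|) * |z.im| := by
          apply mul_le_mul_of_nonneg_left _ (by positivity)
          linarith
  calc ‖w‖⁻¹ / ‖2 * z - 1‖ * ‖g a - g b‖ ≤ ‖w‖⁻¹ / (1 / 2) * (2 * (2 * (C * ‖w‖ ^ 2 / |w.im|))) := by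
        apply mul_le_mul _ (b3.trans (by linarith)) (norm_nonneg _) (by positivity)
        exact div_le_div_of_nonneg_left (by positivity) (by norm_num) h2z
    _ = 8 * C * (‖w‖ / |w.im|) := by
        field_simp
        ring

theorem inv_hasDerivAt {Z : Y →L[ℂ] Y} (hU : ∀ w : ℂ, IsUnit ((1 : Y →L[ℂ] Y) + w • Z)) (w : ℂ) :
    HasDerivAt (fun w : ℂ => Ring.inverse ((1 : Y →L[ℂ] Y) + w • Z))
      (-(Ring.inverse ((1 : Y →L[ℂ] Y) + w • Z) * Z * Ring.inverse ((1 : Y →L[ℂ] Y) + w • Z)))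
      w := by
  obtain ⟨u, hu⟩ := hU w
  have h1 := hasFDerivAt_ringInverse (𝕜 := ℂ) u
  rw [hu] at h1
  have h2 : HasDerivAt (fun w : ℂ => (1 : Y →L[ℂ] Y) + w • Z) Z w := by
    simpa using ((hasDerivAt_id w).smul_const Z).const_add (1 : Y →L[ℂ] Y)
  have h3 := h1.comp_hasDerivAt w h2
  refine h3.congr_deriv ?_
  rw [← hu, Ring.inverse_unit]
  simp

/-- TARGET -/
theorem idem_of_im (E : Y →L[ℂ] Y) (hE : spectrum ℂ E ⊆ {0, 1})
    (h : ∀ (g : Y →L[ℂ] ℂ) (y : Y), ∃ C : ℝ, ∀ t z : ℂ,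
      z ∈ spectrum ℂ (E + t • g.smulRight y) → |z.im| ≤ C * ‖t‖) : E * E = E := by
  have hU := isUnit_one_add hE
  have main : ∀ (g : Y →L[ℂ] ℂ) (y : Y), g ((E - E * E) y) = 0 := by
    intro g y
    obtain ⟨C', hC'⟩ := h g y
    obtain ⟨C, hC0, hC⟩ : ∃ C : ℝ, 0 ≤ C ∧
        ∀ t z : ℂ, z ∈ spectrum ℂ (E + t • g.smulRight y) → |z.im| ≤ C * ‖t‖ :=
      ⟨|C'|, abs_nonneg _, fun t z hz => (hC' t z hz).trans
        (mul_le_mul_of_nonneg_right (le_abs_self _) (norm_nonneg _))⟩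
    set A : ℂ → ℂ := fun w => g (Ring.inverse ((1 : Y →L[ℂ] Y) + w • (E - E * E)) y) with hA
    have hAd : ∀ w, HasDerivAt A (g ((-(Ring.inverse ((1 : Y →L[ℂ] Y) + w • (E - E * E)) *
        (E - E * E) * Ring.inverse ((1 : Y →L[ℂ] Y) + w • (E - E * E)))) y)) w := by
      intro w
      exact (g.comp (ContinuousLinearMap.apply ℂ Y y)).hasFDerivAt.comp_hasDerivAt w
        (inv_hasDerivAt hU w)
    have hA0 : HasDerivAt A (-g ((E - E * E) y)) 0 := by
      have := hAd 0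
      simpa using this
    have hbound : ∀ ρ : ℝ, 8 ≤ ρ → ‖g ((E - E * E) y)‖ ≤ 16 * C / ρ := by
      intro ρ hρ
      have hρ0 : 0 < ρ := by linarith
      set B : ℂ → ℂ := fun w => (w ^ 2 - (ρ : ℂ) ^ 2) * A w with hB
      have hBd : Differentiable ℂ B := by
        intro w
        exact DifferentiableAt.mul (by fun_prop) (hAd w).differentiableAt
      have hB0 : deriv B 0 = (ρ : ℂ) ^ 2 * g ((E - E * E) y) := by
        have h1 : HasDerivAt (fun w : ℂ => w ^ 2 - (ρ : ℂ) ^ 2) 0 0 := by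
          have := (hasDerivAt_pow 2 (0 : ℂ)).sub_const ((ρ : ℂ) ^ 2)
          simpa using this
        have h2 := h1.mul hA0
        have h3 : deriv B 0 = _ := h2.deriv
        rw [h3]
        ring
      have hsph : ∀ w ∈ sphere (0 : ℂ) ρ, ‖B w‖ ≤ 16 * C * ρ ^ 2 := by
        intro w hw
        have hwn : ‖w‖ = ρ := mem_sphere_zero_iff_norm.mp hw
        have hsq : w ^ 2 - (ρ : ℂ) ^ 2 = w * (w - (starRingEnd ℂ) w) := by
          have h1 : (ρ : ℂ) ^ 2 = w * (starRingEnd ℂ) w := by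
            rw [Complex.mul_conj, Complex.normSq_eq_norm_sq, hwn]
            push_cast
            rfl
          rw [h1]
          ring
        have hn : ‖w ^ 2 - (ρ : ℂ) ^ 2‖ = 2 * ρ * |w.im| := by
          rw [hsq, norm_mul, hwn, Complex.sub_conj, norm_mul, Complex.norm_I, mul_one,
            Complex.norm_real, Real.norm_eq_abs, abs_mul, abs_two]
          ring
        show ‖(w ^ 2 - (ρ : ℂ) ^ 2) * A w‖ ≤ _
        rw [norm_mul, hn]
        by_cases him : w.im = 0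
        · rw [him, abs_zero, mul_zero, zero_mul]
          positivity
        · have h1 := far_bound hE hC0 hC him (by rw [hwn]; exact hρ)
          have him' : 0 < |w.im| := abs_pos.mpr him
          rw [hwn] at h1
          calc 2 * ρ * |w.im| * ‖A w‖ ≤ 2 * ρ * |w.im| * (8 * C * (ρ / |w.im|)) := by
                gcongr
            _ = 16 * C * ρ ^ 2 := by
                field_simp
                ring
      have hc := Complex.norm_deriv_le_of_forall_mem_sphere_norm_le hρ0 hBd.diffContOnCl hsph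
      rw [hB0, norm_mul, norm_pow, Complex.norm_real, Real.norm_of_nonneg hρ0.le] at hc
      have h4 : 16 * C * ρ ^ 2 / ρ = 16 * C / ρ * ρ ^ 2 := by
        field_simp
      rw [h4, mul_comm] at hc
      exact le_of_mul_le_mul_right hc (by positivity)
    have hlim : Tendsto (fun ρ : ℝ => 16 * C / ρ) atTop (𝓝 0) :=
      tendsto_const_nhds.div_atTop tendsto_id
    have hfin : ‖g ((E - E * E) y)‖ ≤ 0 := by
      refine ge_of_tendsto hlim ?_
      filter_upwards [eventually_ge_atTop 8] with ρ hρ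
      exact hbound ρ hρ
    exact norm_le_zero_iff.mp hfin
  have hZ : E - E * E = 0 := by
    ext1 y
    by_contra hne
    obtain ⟨g, -, hg⟩ := exists_dual_vector ℂ ((E - E * E) y) (norm_ne_zero_iff.mpr hne)
    rw [main g y] at hg
    apply hne
    have : (‖(E - E * E) y‖ : ℂ) = 0 := hg.symm
    rw [Complex.ofReal_eq_zero, norm_eq_zero] at this
    rw [this]
    rfl
  exact (sub_eq_zero.mp hZ).symm
end


-- from sol_1948.lean


section
variable {X Y : Type*} [NormedAddCommGroup X] [NormedSpace ℂ X] [CompleteSpace X]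
  [NormedAddCommGroup Y] [NormedSpace ℂ Y] [CompleteSpace Y]

theorem dich_core {g0 : Y →L[ℂ] ℂ} {y0 : Y} (hg : g0 y0 = 1) (M : Y →L[ℂ] Y)
    (h1 : ∀ v, (g0.smulRight y0 + M) ((g0.smulRight y0 + M) v) = (g0.smulRight y0 + M) v)
    (h2 : ∀ v, (g0.smulRight y0 - M) ((g0.smulRight y0 - M) v) = (g0.smulRight y0 - M) v) :
    (∀ v, M v = g0 (M v) • y0 + g0 v • M y0) ∧ (M y0 = 0 ∨ g0.comp M = 0) := by
  have hE : ∀ v, (g0.smulRight y0) v = g0 v • y0 := fun v => rfl
  have key1 : ∀ v, M v = g0 (M v) • y0 + g0 v • M y0 := by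
    intro v
    have a := h1 v
    have b := h2 v
    simp only [add_apply, sub_apply, hE, map_add, map_sub, map_smul, smul_eq_mul, hg, one_smul,
      smul_add, smul_sub, sub_smul, add_smul] at a b
    linear_combination (norm := module) (-1/2 : ℂ) • a + (1/2 : ℂ) • b
  have key2 : ∀ v, M (M v) = 0 := by
    intro v
    have a := h1 v
    have b := key1 v
    simp only [add_apply, hE, map_add, map_smul, smul_eq_mul, hg, one_smul, smul_add,
      add_smul] at a
    linear_combination (norm := module) (1 : ℂ) • a + (1 : ℂ) • b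
  refine ⟨key1, ?_⟩
  by_contra hcon
  push Not at hcon
  obtain ⟨hc1, hc2⟩ := hcon
  apply hc2
  ext v
  have a : M (M v) = g0 (M v) • M y0 := by
    conv_lhs => rw [key1 v]
    rw [map_add, map_smul, map_smul, key2 y0, smul_zero, add_zero]
  rw [key2 v] at a
  have b := smul_eq_zero.1 a.symm
  rcases b with b | b
  · simpa using b
  · exact absurd b hc1

theorem dich {V : Type*} [AddCommGroup V] (K : V → Prop) (hK : ∀ x x', K x → K x' → K (x + x'))
    (M : V → (Y →L[ℂ] Y)) (hM : ∀ x x', M (x + x') = M x + M x')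
    {g0 : Y →L[ℂ] ℂ} {y0 : Y} (hg : g0 y0 = 1)
    (h1 : ∀ x, K x → ∀ v, (g0.smulRight y0 + M x) ((g0.smulRight y0 + M x) v)
      = (g0.smulRight y0 + M x) v)
    (h2 : ∀ x, K x → ∀ v, (g0.smulRight y0 - M x) ((g0.smulRight y0 - M x) v)
      = (g0.smulRight y0 - M x) v) :
    (∀ x, K x → M x = g0.smulRight (M x y0)) ∨
    (∀ x, K x → M x = (g0.comp (M x)).smulRight y0) := by
  by_cases hP : ∀ x, K x → M x y0 = 0
  · right
    intro x hx
    ext v
    have := (dich_core hg (M x) (h1 x hx) (h2 x hx)).1 v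
    rw [hP x hx, smul_zero, add_zero] at this
    exact this
  · left
    have hQ : ∀ x, K x → g0.comp (M x) = 0 := by
      by_contra hcon
      push Not at hcon hP
      obtain ⟨x1, hx1, hn1⟩ := hcon
      obtain ⟨x2, hx2, hn2⟩ := hP
      have a1 := (dich_core hg (M x1) (h1 x1 hx1) (h2 x1 hx1)).2.resolve_right hn1
      have a2 := (dich_core hg (M x2) (h1 x2 hx2) (h2 x2 hx2)).2.resolve_left hn2
      rcases (dich_core hg (M (x1 + x2)) (h1 _ (hK _ _ hx1 hx2)) (h2 _ (hK _ _ hx1 hx2))).2 with h | h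
      · rw [hM, add_apply, a1, zero_add] at h
        exact hn2 h
      · rw [hM, ContinuousLinearMap.comp_add, a2, add_zero] at h
        exact hn1 h
    intro x hx
    ext v
    have := (dich_core hg (M x) (h1 x hx) (h2 x hx)).1 v
    have h3 : g0 (M x v) = 0 := by
      have := congrArg (fun φ => φ v) (hQ x hx)
      simpa using this
    rw [h3, zero_smul, zero_add] at this
    exact this

omit [CompleteSpace Y] in
theorem idem_of {g : Y →L[ℂ] ℂ} {y : Y} (h : g y = 1) (v : Y) :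
    (g.smulRight y) ((g.smulRight y) v) = (g.smulRight y) v := by
  simp [h]

theorem dichotomyX (L : (X →L[ℂ] X) → (Y →L[ℂ] Y))
    (hadd : ∀ S T, L (S + T) = L S + L T) {σ : ℂ →+* ℂ} (hsmul : ∀ (c : ℂ) T, L (c • T) = σ c • L T)
    (h1 : ∀ (f : X →L[ℂ] ℂ) (x : X), f x = 1 → ∃ (g : Y →L[ℂ] ℂ) (y : Y), g y = 1 ∧
      L (f.smulRight x) = g.smulRight y)
    {f0 : X →L[ℂ] ℂ} {x0 : X} {g0 : Y →L[ℂ] ℂ} {y0 : Y} (hf : f0 x0 = 1) (hg : g0 y0 = 1)
    (hL : L (f0.smulRight x0) = g0.smulRight y0) :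
    (∀ x, f0 x = 0 → L (f0.smulRight x) = g0.smulRight (L (f0.smulRight x) y0)) ∨
    (∀ x, f0 x = 0 → L (f0.smulRight x) = (g0.comp (L (f0.smulRight x))).smulRight y0) := by
  have hL0 : L 0 = 0 := by
    have := hadd 0 0
    rw [add_zero] at this
    exact left_eq_add.1 this
  have hneg : ∀ T, L (-T) = - L T := by
    intro T
    have := hadd T (-T)
    rw [add_neg_cancel, hL0] at this
    exact eq_neg_of_add_eq_zero_right this.symm
  have hsub : ∀ S T, L (S - T) = L S - L T := by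
    intro S T
    rw [sub_eq_add_neg, hadd, hneg, ← sub_eq_add_neg]
  refine dich (V := X) (fun x => f0 x = 0) ?_ (fun x => L (f0.smulRight x)) ?_ hg ?_ ?_
  · intro x x' hx hx'
    beta_reduce at hx hx' ⊢
    rw [map_add, hx, hx', add_zero]
  · intro x x'
    have : f0.smulRight (x + x') = f0.smulRight x + f0.smulRight x' := by
      ext v; simp
    beta_reduce
    rw [this, hadd]
  · intro x hx v
    obtain ⟨g, y, hgy, hLgy⟩ := h1 f0 (x0 + x) (by
      have hx' : f0 x = 0 := hx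
      rw [map_add, hf, hx', add_zero])
    have : f0.smulRight (x0 + x) = f0.smulRight x0 + f0.smulRight x := by
      ext v; simp
    rw [this, hadd, hL] at hLgy
    beta_reduce
    rw [hLgy]
    exact idem_of hgy v
  · intro x hx v
    obtain ⟨g, y, hgy, hLgy⟩ := h1 f0 (x0 - x) (by
      have hx' : f0 x = 0 := hx
      rw [map_sub, hf, hx', sub_zero])
    have : f0.smulRight (x0 - x) = f0.smulRight x0 - f0.smulRight x := by
      ext v; simp [smul_sub]
    rw [this, hsub, hL] at hLgy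
    beta_reduce
    rw [hLgy]
    exact idem_of hgy v

theorem dichotomyF (L : (X →L[ℂ] X) → (Y →L[ℂ] Y))
    (hadd : ∀ S T, L (S + T) = L S + L T) {σ : ℂ →+* ℂ} (hsmul : ∀ (c : ℂ) T, L (c • T) = σ c • L T)
    (h1 : ∀ (f : X →L[ℂ] ℂ) (x : X), f x = 1 → ∃ (g : Y →L[ℂ] ℂ) (y : Y), g y = 1 ∧
      L (f.smulRight x) = g.smulRight y)
    {f0 : X →L[ℂ] ℂ} {x0 : X} {g0 : Y →L[ℂ] ℂ} {y0 : Y} (hf : f0 x0 = 1) (hg : g0 y0 = 1)
    (hL : L (f0.smulRight x0) = g0.smulRight y0) :
    (∀ k : X →L[ℂ] ℂ, k x0 = 0 → L (k.smulRight x0) = g0.smulRight (L (k.smulRight x0) y0)) ∨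
    (∀ k : X →L[ℂ] ℂ, k x0 = 0 →
      L (k.smulRight x0) = (g0.comp (L (k.smulRight x0))).smulRight y0) := by
  have hL0 : L 0 = 0 := by
    have := hadd 0 0
    rw [add_zero] at this
    exact left_eq_add.1 this
  have hneg : ∀ T, L (-T) = - L T := by
    intro T
    have := hadd T (-T)
    rw [add_neg_cancel, hL0] at this
    exact eq_neg_of_add_eq_zero_right this.symm
  have hsub : ∀ S T, L (S - T) = L S - L T := by
    intro S T
    rw [sub_eq_add_neg, hadd, hneg, ← sub_eq_add_neg]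
  refine dich (V := X →L[ℂ] ℂ) (fun k => k x0 = 0) ?_ (fun k => L (k.smulRight x0)) ?_ hg ?_ ?_
  · intro x x' hx hx'
    beta_reduce at hx hx' ⊢
    rw [add_apply, hx, hx', add_zero]
  · intro x x'
    have : (x + x').smulRight x0 = x.smulRight x0 + x'.smulRight x0 := by
      ext v; simp [add_smul]
    beta_reduce
    rw [this, hadd]
  · intro x hx v
    obtain ⟨g, y, hgy, hLgy⟩ := h1 (f0 + x) x0 (by
      have hx' : x x0 = 0 := hx
      rw [add_apply, hf, hx', add_zero])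
    have : (f0 + x).smulRight x0 = f0.smulRight x0 + x.smulRight x0 := by
      ext v; simp [add_smul]
    rw [this, hadd, hL] at hLgy
    beta_reduce
    rw [hLgy]
    exact idem_of hgy v
  · intro x hx v
    obtain ⟨g, y, hgy, hLgy⟩ := h1 (f0 - x) x0 (by
      have hx' : x x0 = 0 := hx
      rw [sub_apply, hf, hx', sub_zero])
    have : (f0 - x).smulRight x0 = f0.smulRight x0 - x.smulRight x0 := by
      ext v; simp [sub_smul]
    rw [this, hsub, hL] at hLgy
    beta_reduce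
    rw [hLgy]
    exact idem_of hgy v
end


-- from sol_1949.lean



section
variable {X Y : Type*} [NormedAddCommGroup X] [NormedSpace ℂ X] [CompleteSpace X]
  [NormedAddCommGroup Y] [NormedSpace ℂ Y] [CompleteSpace Y]

end

section
variable {X Y : Type*} [NormedAddCommGroup X] [NormedSpace ℂ X] [CompleteSpace X]
  [NormedAddCommGroup Y] [NormedSpace ℂ Y] [CompleteSpace Y]

theorem rank_one_trace {g h : Y →L[ℂ] ℂ} {y w : Y} (hg : g y = 1)
    (e : g.smulRight y = h.smulRight w) (S : Y →L[ℂ] Y) : g (S y) = h (S w) := by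
  have ev : ∀ z, g z • y = h z • w := fun z => by
    have := congrArg (fun T : Y →L[ℂ] Y => T z) e
    simpa using this
  have h1 : y = h y • w := by
    have := ev y
    rwa [hg, one_smul] at this
  have hw : w ≠ 0 := by
    rintro rfl
    rw [smul_zero] at h1
    rw [h1, map_zero] at hg
    exact zero_ne_one hg
  have h2 : g (S y) = h y * g (S w) := by
    conv_lhs => rw [h1]
    simp
  have h3 : h (S w) • w = (g (S w) * h y) • w := by
    rw [← ev (S w)]
    conv_lhs => rw [h1]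
    rw [smul_smul]
  have h4 := smul_left_injective ℂ hw h3
  rw [h2]
  rw [h4, mul_comm]

theorem rank_one_trace' {g h : Y →L[ℂ] ℂ} {y w : Y} (hg : g y = 1)
    (e : g.smulRight y = h.smulRight w) : h w = 1 := by
  have := rank_one_trace hg e (ContinuousLinearMap.id ℂ Y)
  simp only [ContinuousLinearMap.id_apply] at this
  rw [← this, hg]

/-- TARGET -/
theorem type_one {σ : ℂ →+* ℂ} [RingHomInvPair σ σ] [RingHomIsometric σ]
    (L : (X →L[ℂ] X) → (Y →L[ℂ] Y))
    (hadd : ∀ S T, L (S + T) = L S + L T) (hsmul : ∀ (c : ℂ) T, L (c • T) = σ c • L T)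
    (hbij : Function.Bijective L) (hbd : ∃ K : ℝ, ∀ T, ‖L T‖ ≤ K * ‖T‖)
    (h1 : ∀ (f : X →L[ℂ] ℂ) (x : X), f x = 1 → ∃ (g : Y →L[ℂ] ℂ) (y : Y), g y = 1 ∧
      L (f.smulRight x) = g.smulRight y ∧ ∀ T : X →L[ℂ] X, g (L T y) = σ (f (T x)))
    (h2 : ∀ (g : Y →L[ℂ] ℂ) (y : Y), g y = 1 → ∃ (f : X →L[ℂ] ℂ) (x : X), f x = 1 ∧
      L (f.smulRight x) = g.smulRight y)
    {f0 : X →L[ℂ] ℂ} {x0 : X} {g0 : Y →L[ℂ] ℂ} {y0 : Y} (hf : f0 x0 = 1) (hg : g0 y0 = 1)
    (hL : L (f0.smulRight x0) = g0.smulRight y0)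
    (hI : ∀ x, f0 x = 0 → L (f0.smulRight x) = g0.smulRight (L (f0.smulRight x) y0)) :
    ∃ A : X ≃SL[σ] Y, ∀ (T : X →L[ℂ] X) (x : X), L T (A x) = A (T x) := by
  have hσσ : ∀ c : ℂ, σ (σ c) = c := fun c => RingHomInvPair.comp_apply_eq (σ := σ) (σ' := σ)
  have hσ0 : ∀ c : ℂ, c ≠ 0 → σ c ≠ 0 := fun c hc h => hc (by rw [← hσσ c, h, map_zero])
  have L0 : L 0 = 0 := by
    have := hsmul 0 0
    simpa using this
  have hneg : ∀ T, L (-T) = -L T := fun T => by
    have := hsmul (-1) T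
    simpa using this
  have hsub : ∀ S T, L (S - T) = L S - L T := fun S T => by
    rw [sub_eq_add_neg, hadd, hneg, ← sub_eq_add_neg]
  have hx0 : x0 ≠ 0 := by rintro rfl; simp at hf
  -- the map
  set Af : X → Y := fun x => L (f0.smulRight x) y0 with hAf
  have sr_add : ∀ (f : X →L[ℂ] ℂ) (x z : X), f.smulRight (x + z) = f.smulRight x + f.smulRight z := by
    intro f x z; ext w; simp
  have sr_smul : ∀ (f : X →L[ℂ] ℂ) (c : ℂ) (x : X), f.smulRight (c • x) = c • f.smulRight x := by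
    intro f c x
    ext w
    simp only [ContinuousLinearMap.smulRight_apply, ContinuousLinearMap.smul_apply]
    rw [smul_comm]
  have Aadd : ∀ x z, Af (x + z) = Af x + Af z := by
    intro x z; simp only [hAf, sr_add, hadd, ContinuousLinearMap.add_apply]
  have Asmul : ∀ (c : ℂ) x, Af (c • x) = σ c • Af x := by
    intro c x
    simp only [hAf, sr_smul, hsmul, ContinuousLinearMap.smul_apply]
  have Ax0 : Af x0 = y0 := by
    simp only [hAf, hL, ContinuousLinearMap.smulRight_apply, hg, one_smul]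
  have Aneg : ∀ x, Af (-x) = -Af x := by
    intro x
    have := Asmul (-1) x
    simpa using this
  have Asub : ∀ x z, Af (x - z) = Af x - Af z := by
    intro x z; rw [sub_eq_add_neg, Aadd, Aneg, ← sub_eq_add_neg]
  have form : ∀ x, L (f0.smulRight x) = g0.smulRight (Af x) := by
    intro x
    have hx' : f0 (x - f0 x • x0) = 0 := by simp [hf]
    have hdec : x = f0 x • x0 + (x - f0 x • x0) := by abel
    have e1 : L (f0.smulRight x) = σ (f0 x) • g0.smulRight y0
        + g0.smulRight (L (f0.smulRight (x - f0 x • x0)) y0) := by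
      conv_lhs => rw [hdec, sr_add, hadd, sr_smul, hsmul, hL, hI _ hx']
    have e2 : Af x = σ (f0 x) • y0 + L (f0.smulRight (x - f0 x • x0)) y0 := by
      simp only [hAf]
      rw [e1]
      simp [hg]
    rw [e1, e2]
    ext z
    simp only [ContinuousLinearMap.smulRight_apply, ContinuousLinearMap.smul_apply,
      ContinuousLinearMap.add_apply]
    module
  have Ainj0 : ∀ x, Af x = 0 → x = 0 := by
    intro x hx
    have h := form x
    rw [hx] at h
    have h3 : L (f0.smulRight x) = L 0 := by rw [h, L0]; ext z; simp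
    have h4 := hbij.1 h3
    have h5 := congrArg (fun T : X →L[ℂ] X => T x0) h4
    simpa [hf] using h5
  have trA : ∀ x, f0 x = 0 → g0 (Af x) = 0 := by
    intro x hx
    obtain ⟨g, y, hgy, hLy, _⟩ := h1 f0 (x0 + x) (by rw [map_add, hf, hx, add_zero])
    rw [form] at hLy
    have := rank_one_trace' hgy hLy.symm
    rw [Aadd, Ax0, map_add, hg] at this
    simpa using this
  have g0A : ∀ x, g0 (Af x) = σ (f0 x) := by
    intro x
    have hx' : f0 (x - f0 x • x0) = 0 := by simp [hf]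
    have := trA _ hx'
    rw [Asub, Asmul, Ax0, map_sub, map_smul, hg, smul_eq_mul, mul_one, sub_eq_zero] at this
    exact this
  -- surjectivity
  have hS : ∀ y, ∃ x, Af x = y := by
    by_cases hker : ∀ x, f0 x = 0 → x = 0
    · intro y
      obtain ⟨T, hT⟩ := hbij.2 (g0.smulRight y)
      have hx : ∀ x, x = f0 x • x0 := by
        intro x
        have := hker (x - f0 x • x0) (by simp [hf])
        exact sub_eq_zero.mp this
      have hT1 : T = f0.smulRight (T x0) := by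
        ext z
        conv_lhs => rw [hx z]
        simp
      refine ⟨T x0, ?_⟩
      rw [hT1, form] at hT
      have := congrArg (fun S : Y →L[ℂ] Y => S y0) hT
      simpa [hg] using this
    · push Not at hker
      obtain ⟨x', hx'0, hx'ne⟩ := hker
      -- inverse
      obtain ⟨L', hLL', hL'L⟩ := Function.bijective_iff_has_inverse.mp hbij
      have hadd' : ∀ S T, L' (S + T) = L' S + L' T := by
        intro S T
        apply hbij.1
        rw [hadd, hL'L, hL'L, hL'L]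
      have hsmul' : ∀ (c : ℂ) T, L' (c • T) = σ c • L' T := by
        intro c T
        apply hbij.1
        rw [hsmul, hL'L, hL'L, hσσ]
      have h1' : ∀ (g : Y →L[ℂ] ℂ) (y : Y), g y = 1 → ∃ (f : X →L[ℂ] ℂ) (x : X), f x = 1 ∧
          L' (g.smulRight y) = f.smulRight x := by
        intro g y hgy
        obtain ⟨f, x, hfx, hLx⟩ := h2 g y hgy
        exact ⟨f, x, hfx, by rw [← hLx, hLL']⟩
      have hL' : L' (g0.smulRight y0) = f0.smulRight x0 := by rw [← hL, hLL']
      have hy' : ∀ y, g0 y = 0 → ∃ x, Af x = y := by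
        rcases dichotomyX L' hadd' hsmul' h1' hg hf hL' with hd | hd
        · intro y hy
          refine ⟨L' (g0.smulRight y) x0, ?_⟩
          have h3 := congrArg L (hd y hy)
          rw [hL'L, form] at h3
          have := congrArg (fun S : Y →L[ℂ] Y => S y0) h3
          simpa [hg] using this.symm
        · exfalso
          have h3 := hd (Af x') (trA x' hx'0)
          rw [← form, hLL'] at h3
          have h4 := congrArg (fun S : X →L[ℂ] X => S x0) h3
          simp only [ContinuousLinearMap.smulRight_apply, hf, one_smul,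
            ContinuousLinearMap.comp_apply, hx'0, zero_smul] at h4
          exact hx'ne h4
      intro y
      obtain ⟨x, hx⟩ := hy' (y - g0 y • y0) (by simp [hg])
      refine ⟨σ (g0 y) • x0 + x, ?_⟩
      rw [Aadd, Asmul, Ax0, hσσ, hx]
      abel
  -- the functionals
  have base1 : ∀ x, f0 x = 1 → ∀ f : X →L[ℂ] ℂ, ∃ h : Y →L[ℂ] ℂ,
      L (f.smulRight x) = h.smulRight (Af x) := by
    intro x hx f
    have hxne : x ≠ 0 := by rintro rfl; simp at hx
    have hgAx : g0 (Af x) = 1 := by rw [g0A, hx, map_one]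
    have hk0 : ∀ k : X →L[ℂ] ℂ, k x = 0 → ∃ h : Y →L[ℂ] ℂ,
        L (k.smulRight x) = h.smulRight (Af x) := by
      intro k hk
      rcases dichotomyF L hadd hsmul (fun f x hfx => by
        obtain ⟨g, y, a, b, _⟩ := h1 f x hfx
        exact ⟨g, y, a, b⟩) hx hgAx (form x) with hd | hd
      · have h3 := hd k hk
        obtain ⟨x'', hx''⟩ := hS (L (k.smulRight x) (Af x))
        rw [← hx'', ← form] at h3
        have h4 := hbij.1 h3
        have h5 := congrArg (fun S : X →L[ℂ] X => S x) h4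
        simp only [ContinuousLinearMap.smulRight_apply, hk, zero_smul, hx, one_smul] at h5
        have h6 : k.smulRight x = 0 := by
          rw [h4, ← h5]; ext z; simp
        refine ⟨0, ?_⟩
        rw [h6, L0]; ext z; simp
      · exact ⟨_, hd k hk⟩
    obtain ⟨h, hh⟩ := hk0 (f - f x • f0) (by simp [hx])
    refine ⟨σ (f x) • g0 + h, ?_⟩
    have e1 : f.smulRight x = f x • f0.smulRight x + (f - f x • f0).smulRight x := by
      ext z
      simp only [ContinuousLinearMap.smulRight_apply, ContinuousLinearMap.add_apply,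
        ContinuousLinearMap.smul_apply, ContinuousLinearMap.sub_apply, smul_eq_mul]
      rw [sub_smul, smul_smul]
      abel
    rw [e1, hadd, hsmul, form, hh]
    ext z
    simp [add_smul, smul_smul]
  set C : (X →L[ℂ] ℂ) → (Y →L[ℂ] ℂ) := fun f => g0.comp (L (f.smulRight x0)) with hC
  have C0 : ∀ f, L (f.smulRight x0) = (C f).smulRight (Af x0) := by
    intro f
    obtain ⟨h, hh⟩ := base1 x0 hf f
    have : C f = h := by
      simp only [hC]
      rw [hh, Ax0]
      ext z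
      simp [hg]
    rw [this]; exact hh
  have C1 : ∀ x, f0 x = 1 → ∀ f, L (f.smulRight x) = (C f).smulRight (Af x) := by
    intro x hx f
    by_cases hxe : x = x0
    · rw [hxe]; exact C0 f
    · set x' := x - x0 with hx'
      have hx'ne : x' ≠ 0 := sub_ne_zero.mpr hxe
      have hx'0 : f0 x' = 0 := by rw [hx', map_sub, hx, hf, sub_self]
      have hAx' : Af x' ≠ 0 := fun h => hx'ne (Ainj0 _ h)
      have hxx : x = x0 + x' := by rw [hx']; abel
      obtain ⟨h, hh⟩ := base1 x hx f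
      obtain ⟨h', hh'⟩ := base1 (x0 + (2 : ℂ) • x') (by simp [hf, hx'0]) f
      have key : ∀ z, h z = C f z := by
        intro z
        have e1 : f.smulRight (x0 + (2 : ℂ) • x') = (2 : ℂ) • f.smulRight x - f.smulRight x0 := by
          ext w
          simp only [ContinuousLinearMap.smulRight_apply, ContinuousLinearMap.sub_apply,
            ContinuousLinearMap.smul_apply]
          rw [hxx]
          module
        have e2 := congrArg L e1
        rw [hsub, hsmul, hh, hh', C0, map_ofNat, Aadd, Asmul, Ax0, map_ofNat, hxx, Aadd, Ax0] at e2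
        have e3 := congrArg (fun S : Y →L[ℂ] Y => S z) e2
        simp only [ContinuousLinearMap.smulRight_apply, ContinuousLinearMap.sub_apply,
            ContinuousLinearMap.smul_apply] at e3
        have e4 := congrArg g0 e3
        simp only [map_sub, map_add, map_smul, hg, trA x' hx'0, smul_eq_mul, mul_one,
          mul_zero, add_zero] at e4
        -- e4 : h' z = 2 * h z - C f z
        have e5 : (2 * h' z - 2 * h z) • Af x' = 0 := by
          have : (2 * h' z - 2 * h z) • Af x' = (h' z • (y0 + (2 : ℂ) • Af x'))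
              - ((2 : ℂ) • h z • (y0 + Af x') - C f z • y0) - (h' z - (2 * h z - C f z)) • y0 := by
            module
          rw [this, e3, e4]
          simp
        rcases smul_eq_zero.mp e5 with h6 | h6
        · linear_combination h6 / 2 - e4
        · exact absurd h6 hAx'
      rw [hh]
      congr 1
      ext z
      exact key z
  have C2 : ∀ x f, L (f.smulRight x) = (C f).smulRight (Af x) := by
    have C3 : ∀ x, f0 x ≠ 0 → ∀ f, L (f.smulRight x) = (C f).smulRight (Af x) := by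
      intro x hx f
      have h3 : x = f0 x • ((f0 x)⁻¹ • x) := by rw [smul_smul, mul_inv_cancel₀ hx, one_smul]
      have h4 : f0 ((f0 x)⁻¹ • x) = 1 := by rw [map_smul, smul_eq_mul, inv_mul_cancel₀ hx]
      have h5 := C1 _ h4 f
      have h6 : L (f.smulRight x) = σ (f0 x) • L (f.smulRight ((f0 x)⁻¹ • x)) := by
        rw [← hsmul, ← sr_smul, ← h3]
      have h7 : Af x = σ (f0 x) • Af ((f0 x)⁻¹ • x) := by
        rw [← Asmul, ← h3]
      rw [h6, h5, h7]
      ext z
      simp only [ContinuousLinearMap.smulRight_apply, ContinuousLinearMap.smul_apply]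
      rw [smul_comm]
    intro x f
    by_cases hx : f0 x = 0
    · have e1 : f.smulRight x = f.smulRight (x + x0) - f.smulRight x0 := by
        rw [sr_add]; abel
      rw [e1, hsub, C1 (x + x0) (by rw [map_add, hx, hf, zero_add]), C0, Aadd]
      ext z
      simp [smul_add]
    · exact C3 x hx f
  -- the two trace identities
  have ext1 : ∀ (f : X →L[ℂ] ℂ), f ≠ 0 → ∀ (P : X → ℂ) (Q : X → ℂ),
      (∀ x z, P (x - z) = P x - P z) → (∀ x z, Q (x - z) = Q x - Q z) →
      (∀ (c : ℂ) x, P (c • x) = σ c * P x) → (∀ (c : ℂ) x, Q (c • x) = σ c * Q x) →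
      (∀ x, f x = 1 → P x = Q x) → ∀ x, P x = Q x := by
    intro f hfne P Q hP hQ hPc hQc h3 x
    obtain ⟨x1, hx1⟩ : ∃ x1, f x1 = 1 := by
      obtain ⟨w, hw⟩ : ∃ w, f w ≠ 0 := by
        by_contra hcon
        push Not at hcon
        exact hfne (by ext w; simpa using hcon w)
      exact ⟨(f w)⁻¹ • w, by rw [map_smul, smul_eq_mul, inv_mul_cancel₀ hw]⟩
    by_cases hx : f x = 0
    · have e1 : x = (x + x1) - x1 := by abel
      rw [e1, hP, hQ, h3 (x + x1) (by rw [map_add, hx, hx1, zero_add]), h3 x1 hx1]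
    · have e1 : x = f x • ((f x)⁻¹ • x) := by rw [smul_smul, mul_inv_cancel₀ hx, one_smul]
      rw [e1, hPc, hQc, h3 ((f x)⁻¹ • x) (by rw [map_smul, smul_eq_mul, inv_mul_cancel₀ hx])]
  have tr1 : ∀ f : X →L[ℂ] ℂ, f ≠ 0 → ∀ x, C f (Af x) = σ (f x) := by
    intro f hfne
    apply ext1 f hfne (fun x => C f (Af x)) (fun x => σ (f x))
    · intro x z; simp only [Asub, map_sub]
    · intro x z; simp only [map_sub]
    · intro c x; simp only [Asmul, map_smul, smul_eq_mul]
    · intro c x; simp only [map_smul, smul_eq_mul, map_mul]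
    · intro x hx
      obtain ⟨g, y, hgy, hLy, _⟩ := h1 f x hx
      rw [C2] at hLy
      simp only [hx, map_one]
      exact rank_one_trace' hgy hLy.symm
  have tr2 : ∀ f : X →L[ℂ] ℂ, f ≠ 0 → ∀ (T : X →L[ℂ] X) x, C f (L T (Af x)) = σ (f (T x)) := by
    intro f hfne T
    apply ext1 f hfne (fun x => C f (L T (Af x))) (fun x => σ (f (T x)))
    · intro x z; simp only [Asub, map_sub]
    · intro x z; simp only [map_sub]
    · intro c x; simp only [Asmul, map_smul, smul_eq_mul]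
    · intro c x; simp only [map_smul, smul_eq_mul, map_mul]
    · intro x hx
      obtain ⟨g, y, hgy, hLy, hT⟩ := h1 f x hx
      rw [C2] at hLy
      rw [← hT T]
      exact (rank_one_trace hgy hLy.symm (L T)).symm
  have final : ∀ (T : X →L[ℂ] X) (x : X), L T (Af x) = Af (T x) := by
    intro T x
    by_contra hne
    have hne' : L T (Af x) - Af (T x) ≠ 0 := sub_ne_zero.mpr hne
    obtain ⟨g, hgy⟩ := SeparatingDual.exists_eq_one (R := ℂ) hne'
    obtain ⟨f, u, hfu, hLu⟩ := h2 g _ hgy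
    have hfne : f ≠ 0 := by rintro rfl; simp at hfu
    rw [C2] at hLu
    have h3 := congrArg (fun S : Y →L[ℂ] Y => S (L T (Af x) - Af (T x))) hLu
    simp only [ContinuousLinearMap.smulRight_apply, hgy, one_smul] at h3
    rw [map_sub, tr1 f hfne, tr2 f hfne, sub_self, zero_smul] at h3
    exact hne' h3.symm
  obtain ⟨K, hK⟩ := hbd
  let Al : X →ₛₗ[σ] Y :=
    { toFun := Af
      map_add' := Aadd
      map_smul' := Asmul }
  let Ac : X →SL[σ] Y := Al.mkContinuous (|K| * ‖f0‖ * ‖y0‖) (by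
    intro x
    show ‖L (f0.smulRight x) y0‖ ≤ _
    calc ‖L (f0.smulRight x) y0‖ ≤ ‖L (f0.smulRight x)‖ * ‖y0‖ := ContinuousLinearMap.le_opNorm _ _
      _ ≤ (|K| * ‖f0.smulRight x‖) * ‖y0‖ := by
          apply mul_le_mul_of_nonneg_right _ (norm_nonneg _)
          exact (hK _).trans (mul_le_mul_of_nonneg_right (le_abs_self K) (norm_nonneg _))
      _ = |K| * ‖f0‖ * ‖y0‖ * ‖x‖ := by
          rw [ContinuousLinearMap.norm_smulRight_apply]; ring)
  have hAc : ∀ x, Ac x = Af x := fun x => rfl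
  refine ⟨ContinuousLinearEquiv.ofBijective Ac ?_ ?_, ?_⟩
  · rw [LinearMap.ker_eq_bot']
    intro x hx
    exact Ainj0 x hx
  · rw [LinearMap.range_eq_top]
    intro y
    obtain ⟨x, hx⟩ := hS y
    exact ⟨x, hx⟩
  · intro T x
    exact final T x
end


-- from sol_1950.lean



section
variable {X Y : Type*} [NormedAddCommGroup X] [NormedSpace ℂ X] [CompleteSpace X]
  [NormedAddCommGroup Y] [NormedSpace ℂ Y] [CompleteSpace Y]

end


namespace TypeTwoAux

section
variable {X Y : Type*} [NormedAddCommGroup X] [NormedSpace ℂ X]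
  [NormedAddCommGroup Y] [NormedSpace ℂ Y]

theorem sr_add_left (f g : X →L[ℂ] ℂ) (x : X) :
    (f + g).smulRight x = f.smulRight x + g.smulRight x := by
  ext z; simp [add_smul]

theorem sr_add_right (f : X →L[ℂ] ℂ) (x x' : X) :
    f.smulRight (x + x') = f.smulRight x + f.smulRight x' := by
  ext z; simp [smul_add]

theorem sr_smul_left (c : ℂ) (f : X →L[ℂ] ℂ) (x : X) :
    (c • f).smulRight x = c • f.smulRight x := by
  ext z; simp [mul_smul]

theorem sr_smul_right (c : ℂ) (f : X →L[ℂ] ℂ) (x : X) :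
    f.smulRight (c • x) = c • f.smulRight x := by
  ext z; simp [smul_smul, mul_comm]

theorem sr_zero_left (x : X) : (0 : X →L[ℂ] ℂ).smulRight x = 0 := by
  ext z; simp

theorem sr_zero_right (f : X →L[ℂ] ℂ) : f.smulRight (0 : X) = 0 := by
  ext z; simp

/-- extension from `f x = 1` to everything -/
theorem ext_all {σ : ℂ →+* ℂ} (Ψ : (X →L[ℂ] ℂ) → X → ℂ)
    (hx : ∀ (f : X →L[ℂ] ℂ) (x x' : X), Ψ f (x + x') = Ψ f x + Ψ f x')
    (hf : ∀ (c : ℂ) (f : X →L[ℂ] ℂ) (x : X), Ψ (c • f) x = σ c * Ψ f x)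
    (h1 : ∀ (f : X →L[ℂ] ℂ) (x : X), f x = 1 → Ψ f x = 0) :
    ∀ (f : X →L[ℂ] ℂ) (x : X), Ψ f x = 0 := by
  have h2 : ∀ (f : X →L[ℂ] ℂ) (x : X), f x ≠ 0 → Ψ f x = 0 := by
    intro f x hfx
    have h := h1 ((f x)⁻¹ • f) x (by simp [hfx])
    rw [hf] at h
    have h3 : σ (f x)⁻¹ ≠ 0 := by
      rw [map_ne_zero]
      exact inv_ne_zero hfx
    exact (mul_eq_zero.mp h).resolve_left h3
  intro f x
  by_cases hfx : f x ≠ 0
  · exact h2 f x hfx
  · push Not at hfx
    by_cases hf0 : f = 0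
    · subst hf0
      have h0 := hf (0 : ℂ) (0 : X →L[ℂ] ℂ) x
      have h00 : (0 : ℂ) • (0 : X →L[ℂ] ℂ) = 0 := by ext z; simp
      rw [h00, map_zero, zero_mul] at h0
      exact h0
    · obtain ⟨z, hz⟩ : ∃ z, f z ≠ 0 := by
        by_contra hcon
        push Not at hcon
        exact hf0 (ContinuousLinearMap.ext (fun z => by simpa using hcon z))
      have e1 := h2 f (x + z) (by rw [map_add, hfx, zero_add]; exact hz)
      rw [hx, h2 f z hz, add_zero] at e1
      exact e1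

/-- trace relation at a base -/
theorem trace_base {σ : ℂ →+* ℂ} (L : (X →L[ℂ] X) → (Y →L[ℂ] Y))
    {f : X →L[ℂ] ℂ} {x : X} {g1 : Y →L[ℂ] ℂ} {y1 : Y}
    (h : ∃ (g : Y →L[ℂ] ℂ) (y : Y), g y = 1 ∧
      L (f.smulRight x) = g.smulRight y ∧ ∀ T : X →L[ℂ] X, g (L T y) = σ (f (T x)))
    (hL : L (f.smulRight x) = g1.smulRight y1) :
    g1 y1 = 1 ∧ ∀ T : X →L[ℂ] X, g1 (L T y1) = σ (f (T x)) := by
  obtain ⟨g, y, hgy, hLg, hT⟩ := h
  rw [hL] at hLg
  -- g1.smulRight y1 = g.smulRight y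
  have e1 : ∀ z, g1 z • y1 = g z • y := fun z => by
    have := congrArg (fun S : Y →L[ℂ] Y => S z) hLg
    simpa using this
  have e2 : y = (g1 y) • y1 := by
    have := e1 y
    rw [hgy, one_smul] at this
    exact this.symm
  set c := g1 y with hc
  have hy0 : y ≠ 0 := by
    intro h0
    rw [h0, map_zero] at hgy
    exact zero_ne_one hgy
  have hy1 : y1 ≠ 0 := by
    rintro rfl
    apply hy0
    rw [e2, smul_zero]
  have hc0 : c ≠ 0 := by
    intro h0
    apply hy0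
    rw [e2, h0, zero_smul]
  have e3 : ∀ z, g1 z = c * g z := by
    intro z
    have h := e1 z
    rw [e2, smul_smul] at h
    have h4 := smul_left_injective ℂ hy1 h
    rw [h4, mul_comm]
  have e4 : g1 y1 = 1 := by
    have h5 : c = c * g1 y1 := by
      conv_lhs => rw [hc, e2, map_smul, smul_eq_mul]
    have h6 : c * (g1 y1 - 1) = 0 := by rw [mul_sub, mul_one, ← h5, sub_self]
    have := (mul_eq_zero.mp h6).resolve_left hc0
    exact sub_eq_zero.mp this
  refine ⟨e4, fun T => ?_⟩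
  rw [← hT T, e3]
  rw [show g (L T y) = g (L T (c • y1)) by rw [← e2]]
  rw [map_smul, map_smul, smul_eq_mul]

end

end TypeTwoAux

open TypeTwoAux

section
variable {X Y : Type*} [NormedAddCommGroup X] [NormedSpace ℂ X] [CompleteSpace X]
  [NormedAddCommGroup Y] [NormedSpace ℂ Y] [CompleteSpace Y]

/-- TARGET -/
theorem type_two {σ : ℂ →+* ℂ} [RingHomInvPair σ σ] [RingHomIsometric σ]
    (L : (X →L[ℂ] X) → (Y →L[ℂ] Y))
    (hadd : ∀ S T, L (S + T) = L S + L T) (hsmul : ∀ (c : ℂ) T, L (c • T) = σ c • L T)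
    (hbij : Function.Bijective L) (hbd : ∃ K : ℝ, ∀ T, ‖L T‖ ≤ K * ‖T‖)
    (h1 : ∀ (f : X →L[ℂ] ℂ) (x : X), f x = 1 → ∃ (g : Y →L[ℂ] ℂ) (y : Y), g y = 1 ∧
      L (f.smulRight x) = g.smulRight y ∧ ∀ T : X →L[ℂ] X, g (L T y) = σ (f (T x)))
    (h2 : ∀ (g : Y →L[ℂ] ℂ) (y : Y), g y = 1 → ∃ (f : X →L[ℂ] ℂ) (x : X), f x = 1 ∧
      L (f.smulRight x) = g.smulRight y)
    {f0 : X →L[ℂ] ℂ} {x0 : X} {g0 : Y →L[ℂ] ℂ} {y0 : Y} (hf : f0 x0 = 1) (hg : g0 y0 = 1)
    (hL : L (f0.smulRight x0) = g0.smulRight y0)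
    (hne : ∃ x : X, f0 x = 0 ∧ x ≠ 0)
    (hII : ∀ x, f0 x = 0 → L (f0.smulRight x) = (g0.comp (L (f0.smulRight x))).smulRight y0) :
    ∃ A : (X →L[ℂ] ℂ) ≃SL[σ] Y, ∀ (T : X →L[ℂ] X) (f : X →L[ℂ] ℂ), L T (A f) = A (f.comp T) := by
  classical
  obtain ⟨K, hK⟩ := hbd
  have hL0 : L 0 = 0 := by
    have h := hadd 0 0
    rw [add_zero] at h
    exact left_eq_add.mp h
  have hneg : ∀ T, L (-T) = - L T := fun T => by
    have h := hsmul (-1) T
    rw [map_neg, map_one, neg_one_smul, neg_one_smul] at h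
    exact h
  have hsub : ∀ S T, L (S - T) = L S - L T := fun S T => by
    rw [sub_eq_add_neg, hadd, hneg, ← sub_eq_add_neg]
  have hinj := hbij.1
  obtain ⟨L', hL'1, hL'2⟩ := Function.bijective_iff_has_inverse.mp hbij
  have hadd' : ∀ S T, L' (S + T) = L' S + L' T := fun S T =>
    hinj (by rw [hadd, hL'2, hL'2, hL'2])
  have hσσ : ∀ c, σ (σ c) = c := fun c => RingHomInvPair.comp_apply_eq
  have hsmul' : ∀ (c : ℂ) S, L' (c • S) = σ c • L' S := fun c S =>
    hinj (by rw [hsmul, hσσ, hL'2, hL'2])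
  have h1' : ∀ (g : Y →L[ℂ] ℂ) (y : Y), g y = 1 → ∃ (f : X →L[ℂ] ℂ) (x : X), f x = 1 ∧
      L' (g.smulRight y) = f.smulRight x := by
    intro g y hgy
    obtain ⟨f, x, hfx, h⟩ := h2 g y hgy
    exact ⟨f, x, hfx, by rw [← h, hL'1]⟩
  have h1w : ∀ (f : X →L[ℂ] ℂ) (x : X), f x = 1 → ∃ (g : Y →L[ℂ] ℂ) (y : Y), g y = 1 ∧
      L (f.smulRight x) = g.smulRight y := by
    intro f x hfx
    obtain ⟨g, y, a, b, c⟩ := h1 f x hfx
    exact ⟨g, y, a, b⟩
  have hL' : L' (g0.smulRight y0) = f0.smulRight x0 := by rw [← hL, hL'1]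
  obtain ⟨-, hTR⟩ := trace_base (σ := σ) L (h1 f0 x0 hf) hL
  obtain ⟨x', hx'1, hx'2⟩ := hne
  have hx0ne : x0 ≠ 0 := by rintro rfl; simp at hf
  have hy0ne : y0 ≠ 0 := by rintro rfl; simp at hg
  -- Step 1
  set a := g0.comp (L (f0.smulRight x')) with ha
  have ha1 : L (f0.smulRight x') = a.smulRight y0 := hII x' hx'1
  have ha2 : a y0 = 0 := by
    rw [ha, ContinuousLinearMap.comp_apply, hTR]; simp [hx'1]
  have hx0f : ∀ S : Y →L[ℂ] Y, g0 (S y0) = 0 → f0 (L' S x0) = 0 := by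
    intro S hS
    have h := hTR (L' S)
    rw [hL'2, hS] at h
    exact (map_eq_zero σ).mp h.symm
  have S1 : ∀ k : Y →L[ℂ] ℂ, k y0 = 0 →
      ∃ x, f0 x = 0 ∧ L (f0.smulRight x) = k.smulRight y0 := by
    rcases dichotomyF L' hadd' hsmul' h1' hg hf hL' with h | h
    · intro k hk
      refine ⟨L' (k.smulRight y0) x0, hx0f _ (by simp [hk]), ?_⟩
      rw [← h k hk, hL'2]
    · exfalso
      have h3 := h a ha2
      rw [← ha1, hL'1] at h3
      have h4 := congrArg (fun S : X →L[ℂ] X => S x0) h3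
      simp [hf, hx'1] at h4
      exact hx'2 h4
  -- Step 2
  have S2 : ∀ k : X →L[ℂ] ℂ, k x0 = 0 →
      L (k.smulRight x0) = g0.smulRight (L (k.smulRight x0) y0) := by
    rcases dichotomyF L hadd hsmul h1w hf hg hL with h | h
    · exact h
    · intro k hk
      have h3 := h k hk
      have h4 : (g0.comp (L (k.smulRight x0))) y0 = 0 := by
        rw [ContinuousLinearMap.comp_apply, hTR]; simp [hk]
      obtain ⟨x, hx, hxL⟩ := S1 _ h4
      rw [← h3] at hxL
      have h5 := hinj hxL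
      have h6 := congrArg (fun S : X →L[ℂ] X => S x0) h5
      simp [hf, hk] at h6
      rw [h6, sr_zero_right] at h5
      rw [← h5, hL0]
      ext z; simp
  set A : (X →L[ℂ] ℂ) → Y := fun k => L (k.smulRight x0) y0 with hA
  have hAadd : ∀ f g, A (f + g) = A f + A g := fun f g => by
    simp only [hA, sr_add_left, hadd, add_apply]
  have hAsmul : ∀ (c : ℂ) f, A (c • f) = σ c • A f := fun c f => by
    simp only [hA, sr_smul_left, hsmul, smul_apply]
  have hAf0 : A f0 = y0 := by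
    simp only [hA, hL]; simp [hg]
  have S3 : ∀ k : X →L[ℂ] ℂ, L (k.smulRight x0) = g0.smulRight (A k) := by
    intro k
    have h3 := S2 (k - k x0 • f0) (by simp [hf])
    have h4 : k.smulRight x0 = (k - k x0 • f0).smulRight x0 + k x0 • f0.smulRight x0 := by
      rw [← sr_smul_left, ← sr_add_left, sub_add_cancel]
    have h5 : A k = A (k - k x0 • f0) + σ (k x0) • y0 := by
      rw [← hAf0, ← hAsmul, ← hAadd, sub_add_cancel]
    rw [h4, hadd, hsmul, hL, h3, h5, sr_add_right, sr_smul_right]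
  have hAinj : ∀ k, A k = 0 → k = 0 := by
    intro k hk
    have h3 := S3 k
    rw [hk, sr_zero_right, ← hL0] at h3
    have h4 := hinj h3
    ext z
    have h5 := congrArg (fun S : X →L[ℂ] X => S z) h4
    simp only [ContinuousLinearMap.smulRight_apply, zero_apply] at h5
    simpa using (smul_eq_zero.mp h5).resolve_right hx0ne
  have hAsurj0 : ∀ v, g0 v = 0 → ∃ k, A k = v := by
    have key : ∀ v, g0 v = 0 →
        L' (g0.smulRight v) = (f0.comp (L' (g0.smulRight v))).smulRight x0 := by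
      rcases dichotomyX L' hadd' hsmul' h1' hg hf hL' with h | h
      · intro v hv
        have h3 := h v hv
        have h4 : f0 (L' (g0.smulRight v) x0) = 0 := hx0f _ (by simp [hg, hv])
        have h5 := hII _ h4
        rw [← h3, hL'2] at h5
        have h6 := congrArg (fun S : Y →L[ℂ] Y => S y0) h5
        simp [hg, hv] at h6
        have hz : L' 0 = 0 := by rw [← hL0, hL'1]
        rw [h6, sr_zero_right, hz]
        ext z; simp
      · exact h
    intro v hv
    refine ⟨f0.comp (L' (g0.smulRight v)), ?_⟩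
    simp only [hA]
    rw [← key v hv, hL'2]
    simp [hg]
  have hAsurj : ∀ v, ∃ k, A k = v := by
    intro v
    obtain ⟨k, hk⟩ := hAsurj0 (v - g0 v • y0) (by simp [hg])
    refine ⟨k + σ (g0 v) • f0, ?_⟩
    rw [hAadd, hAsmul, hAf0, hk, hσσ, sub_add_cancel]
  -- Step 3
  set C : X → (Y →L[ℂ] ℂ) := fun x => g0.comp (L (f0.smulRight x)) with hC
  have hCadd : ∀ x x', C (x + x') = C x + C x' := fun x x' => by
    ext z
    simp only [hC, sr_add_right, hadd, ContinuousLinearMap.comp_apply, add_apply, map_add]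
  have S4 : ∀ (f : X →L[ℂ] ℂ) (x : X), f x0 ≠ 0 →
      ∃ h : Y →L[ℂ] ℂ, L (f.smulRight x) = h.smulRight (A f) := by
    intro f x hfx0
    have hfne : f ≠ 0 := by rintro rfl; simp at hfx0
    set x1 := (f x0)⁻¹ • x0 with hx1
    set g := (σ (f x0))⁻¹ • g0 with hgdef
    have hσne : σ (f x0) ≠ 0 := (map_ne_zero σ).mpr hfx0
    have e1 : f x1 = 1 := by rw [hx1, map_smul, smul_eq_mul, inv_mul_cancel₀ hfx0]
    have e2 : g (A f) = 1 := by
      have : g0 (A f) = σ (f x0) := by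
        simp only [hA]
        rw [hTR]
        simp [hf]
      rw [hgdef, smul_apply, this, smul_eq_mul, inv_mul_cancel₀ hσne]
    have e3 : L (f.smulRight x1) = g.smulRight (A f) := by
      rw [hx1, sr_smul_right, hsmul, S3, hgdef, sr_smul_left, map_inv₀]
    have e4 : ∀ x, f x = 0 → L (f.smulRight x) = (g.comp (L (f.smulRight x))).smulRight (A f) := by
      rcases dichotomyX L hadd hsmul h1w e1 e2 e3 with h | h
      · intro x hx
        have h3 := h x hx
        set v := L (f.smulRight x) (A f) with hv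
        obtain ⟨k, hk⟩ := hAsurj ((σ (f x0))⁻¹ • v)
        have h4 : L (k.smulRight x0) = L (f.smulRight x) := by
          rw [S3, hk, h3, hgdef, sr_smul_left, sr_smul_right]
        have h5 := hinj h4
        have h6 := congrArg (fun S : X →L[ℂ] X => S x0) h5
        simp only [ContinuousLinearMap.smulRight_apply] at h6
        have h7 : f x0 * 0 = k x0 * f x0 := by
          rw [← hx, ← smul_eq_mul, ← map_smul, ← h6, map_smul, smul_eq_mul]
        have h8 : k x0 = 0 := by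
          rw [mul_zero] at h7
          exact (mul_eq_zero.mp h7.symm).resolve_right hfx0
        rw [h8, zero_smul] at h6
        have h9 : x = 0 := (smul_eq_zero.mp h6.symm).resolve_left hfx0
        rw [h9, sr_zero_right, hL0]
        ext z; simp
      · exact h
    refine ⟨g.comp (L (f.smulRight (x - (f x / f x0) • x0))) + σ (f x / f x0) • g0, ?_⟩
    have e5 := e4 (x - (f x / f x0) • x0) (by
      rw [map_sub, map_smul, smul_eq_mul, div_mul_cancel₀ _ hfx0, sub_self])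
    rw [sr_add_left, ← e5, sr_smul_left, ← S3, ← hsmul, ← sr_smul_right, ← hadd,
      ← sr_add_right, sub_add_cancel]
  have hLf0 : ∀ x, L (f0.smulRight x) = (C x).smulRight y0 := by
    intro x
    obtain ⟨h, hh⟩ := S4 f0 x (by rw [hf]; exact one_ne_zero)
    rw [hAf0] at hh
    rw [hh]
    congr 1
    ext z
    simp only [hC, hh, ContinuousLinearMap.comp_apply, ContinuousLinearMap.smulRight_apply,
      map_smul, hg, smul_eq_mul, mul_one]
  have S5 : ∀ (f : X →L[ℂ] ℂ) (x : X), L (f.smulRight x) = (C x).smulRight (A f) := by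
    intro f x
    by_cases hdep : f = (f x0) • f0
    · rw [hdep, sr_smul_left, hsmul, hLf0, hAsmul, hAf0, sr_smul_right]
    · have hind : ∀ α β : ℂ, α • A f + β • y0 = 0 → α = 0 ∧ β = 0 := by
        intro α β hαβ
        have h3 : A (σ α • f + σ β • f0) = 0 := by
          rw [hAadd, hAsmul, hAsmul, hσσ, hσσ, hAf0, hαβ]
        have h4 := hAinj _ h3
        have h5 : α = 0 := by
          by_contra hα
          have hσα : σ α ≠ 0 := (map_ne_zero σ).mpr hα
          apply hdep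
          have h6 : f = (-(σ α)⁻¹ * σ β) • f0 := by
            ext z
            have h7 := congrArg (fun F : X →L[ℂ] ℂ => F z) h4
            simp only [add_apply, smul_apply, smul_eq_mul, zero_apply] at h7
            rw [smul_apply, smul_eq_mul]
            field_simp
            linear_combination h7
          have h8 : f x0 = -(σ α)⁻¹ * σ β := by
            conv_lhs => rw [h6]
            rw [smul_apply, hf, smul_eq_mul, mul_one]
          rw [h8]
          exact h6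
        refine ⟨h5, ?_⟩
        rw [h5, zero_smul, zero_add] at hαβ
        exact (smul_eq_zero.mp hαβ).resolve_right hy0ne
      obtain ⟨p, hp⟩ := S4 (f + (1 - f x0) • f0) x (by simp [hf])
      obtain ⟨q, hq⟩ := S4 (f + (2 - f x0) • f0) x (by simp [hf])
      rw [sr_add_left, sr_smul_left, hadd, hsmul, hLf0, hAadd, hAsmul, hAf0] at hp hq
      ext z
      have hpz := congrArg (fun S : Y →L[ℂ] Y => S z) hp
      have hqz := congrArg (fun S : Y →L[ℂ] Y => S z) hq
      simp only [add_apply, smul_apply, ContinuousLinearMap.smulRight_apply, smul_add,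
        map_sub, map_one, map_ofNat] at hpz hqz
      have h3 : (q z - p z) • A f + (q z * (2 - σ (f x0)) - p z * (1 - σ (f x0)) - C x z) • y0 = 0 := by
        have h4 := congrArg₂ (fun u v : Y => v - u) hpz hqz
        beta_reduce at h4
        have h5 : (2 - σ (f x0)) • C x z • y0 - (1 - σ (f x0)) • C x z • y0 = C x z • y0 := by
          module
        have h6 : (L (f.smulRight x) z + (2 - σ (f x0)) • C x z • y0) -
          (L (f.smulRight x) z + (1 - σ (f x0)) • C x z • y0) = C x z • y0 := by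
          module
        rw [h6] at h4
        rw [sub_smul _ (C x z), h4]
        module
      obtain ⟨h4, h5⟩ := hind _ _ h3
      have h6 : q z = p z := sub_eq_zero.mp h4
      have h7 : p z = C x z := by
        rw [h6] at h5
        linear_combination h5
      rw [ContinuousLinearMap.smulRight_apply]
      rw [h7] at hpz
      have h8 : L (f.smulRight x) z + (1 - σ (f x0)) • C x z • y0 =
        C x z • A f + (1 - σ (f x0)) • C x z • y0 := by
        rw [hpz]; module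
      exact add_right_cancel h8
  -- Step 4
  have S6 : ∀ (f : X →L[ℂ] ℂ) (x : X), f x = 1 → C x (A f) = 1 ∧
      ∀ T : X →L[ℂ] X, C x (L T (A f)) = σ (f (T x)) := by
    intro f x hfx
    exact trace_base (σ := σ) L (h1 f x hfx) (S5 f x)
  have S7 : ∀ T : X →L[ℂ] X, ∀ (f : X →L[ℂ] ℂ) (x : X),
      C x (L T (A f)) - σ (f (T x)) = 0 := by
    intro T
    refine ext_all (σ := σ) (fun f x => C x (L T (A f)) - σ (f (T x))) ?_ ?_ ?_
    · intro f x x'
      simp only [hCadd, add_apply, map_add]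
      ring
    · intro c f x
      simp only [hAsmul, map_smul, smul_apply, smul_eq_mul, map_mul]
      ring
    · intro f x hfx
      simp only [(S6 f x hfx).2 T, sub_self]
  have S8 : ∀ (f : X →L[ℂ] ℂ) (x : X), C x (A f) - σ (f x) = 0 := by
    refine ext_all (σ := σ) (fun f x => C x (A f) - σ (f x)) ?_ ?_ ?_
    · intro f x x'
      simp only [hCadd, add_apply, map_add]
      ring
    · intro c f x
      simp only [hAsmul, map_smul, smul_apply, smul_eq_mul, map_mul]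
      ring
    · intro f x hfx
      simp only [(S6 f x hfx).1, hfx, map_one, sub_self]
  have S9 : ∀ (T : X →L[ℂ] X) (f : X →L[ℂ] ℂ), L T (A f) = A (f.comp T) := by
    intro T f
    have hw : ∀ x, C x (L T (A f) - A (f.comp T)) = 0 := by
      intro x
      rw [map_sub, sub_eq_zero.mp (S7 T f x), sub_eq_zero.mp (S8 (f.comp T) x)]
      simp
    by_contra hcon
    have hwne : L T (A f) - A (f.comp T) ≠ 0 := sub_ne_zero.mpr hcon
    obtain ⟨g, hgw⟩ : ∃ g : Y →L[ℂ] ℂ, g (L T (A f) - A (f.comp T)) ≠ 0 := by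
      by_contra hc
      push Not at hc
      exact hwne (SeparatingDual.eq_zero_of_forall_dual_eq_zero (R := ℂ) hc)
    set w := L T (A f) - A (f.comp T) with hwdef
    obtain ⟨f', x'', hf'x, hL''⟩ := h2 ((g w)⁻¹ • g) w (by simp [hgw])
    rw [S5] at hL''
    have h3 := congrArg (fun S : Y →L[ℂ] Y => S w) hL''
    simp only [ContinuousLinearMap.smulRight_apply, hw, zero_smul, smul_apply, smul_eq_mul,
      inv_mul_cancel₀ hgw, one_smul] at h3
    exact hwne h3.symm
  -- the operator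
  let Al : (X →L[ℂ] ℂ) →ₛₗ[σ] Y :=
    { toFun := A
      map_add' := hAadd
      map_smul' := hAsmul }
  have hnorm : ∀ k : X →L[ℂ] ℂ, ‖Al k‖ ≤ (K * ‖x0‖ * ‖y0‖) * ‖k‖ := by
    intro k
    have e1 : ‖L (k.smulRight x0) y0‖ ≤ ‖L (k.smulRight x0)‖ * ‖y0‖ :=
      ContinuousLinearMap.le_opNorm _ _
    have e2 : ‖L (k.smulRight x0)‖ ≤ K * ‖k.smulRight x0‖ := hK _
    have e3 : ‖k.smulRight x0‖ = ‖k‖ * ‖x0‖ := ContinuousLinearMap.norm_smulRight_apply _ _
    calc ‖Al k‖ = ‖L (k.smulRight x0) y0‖ := rfl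
      _ ≤ ‖L (k.smulRight x0)‖ * ‖y0‖ := e1
      _ ≤ (K * ‖k.smulRight x0‖) * ‖y0‖ := mul_le_mul_of_nonneg_right e2 (norm_nonneg _)
      _ = (K * ‖x0‖ * ‖y0‖) * ‖k‖ := by rw [e3]; ring
  let Ac : (X →L[ℂ] ℂ) →SL[σ] Y := Al.mkContinuous _ hnorm
  have hAc : ∀ k, Ac k = A k := fun k => rfl
  refine ⟨ContinuousLinearEquiv.ofBijective Ac ?_ ?_, ?_⟩
  · rw [LinearMap.ker_eq_bot']
    intro k hk
    exact hAinj k hk
  · rw [LinearMap.range_eq_top]
    intro v
    obtain ⟨k, hk⟩ := hAsurj v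
    exact ⟨k, hk⟩
  · intro T f
    rw [ContinuousLinearEquiv.coeFn_ofBijective]
    exact S9 T f
end


-- from sol_1951.lean



section
variable {X Y : Type*} [NormedAddCommGroup X] [NormedSpace ℂ X] [CompleteSpace X]
  [NormedAddCommGroup Y] [NormedSpace ℂ Y] [CompleteSpace Y]


/-- conjugation of an operator by `A` -/
noncomputable def cj {σ : ℂ →+* ℂ} [RingHomInvPair σ σ] (A : X ≃SL[σ] Y) :
    (X →L[ℂ] X) →* (Y →L[ℂ] Y) where
  toFun R :=
    { toFun := fun y => A (R (A.symm y))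
      map_add' := by intro x y; simp
      map_smul' := by
        intro c y
        rw [A.symm.map_smulₛₗ, R.map_smul, A.map_smulₛₗ, RingHomInvPair.comp_apply_eq]
        rfl
      cont := A.continuous.comp (R.continuous.comp A.symm.continuous) }
  map_one' := by ext y; simp
  map_mul' := by intro R1 R2; ext y; simp

omit [CompleteSpace X] [CompleteSpace Y] in
theorem cj_apply {σ : ℂ →+* ℂ} [RingHomInvPair σ σ] (A : X ≃SL[σ] Y) (R : X →L[ℂ] X) (y : Y) :
    cj A R y = A (R (A.symm y)) := rfl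

omit [CompleteSpace X] [CompleteSpace Y] in
theorem isUnit_cj {σ : ℂ →+* ℂ} [RingHomInvPair σ σ] (A : X ≃SL[σ] Y) (T : X →L[ℂ] X)
    (S : Y →L[ℂ] Y) (h : ∀ x, S (A x) = A (T x)) (w : ℂ)
    (hw : IsUnit (w • (1 : X →L[ℂ] X) - T)) : IsUnit (σ w • (1 : Y →L[ℂ] Y) - S) := by
  have h1 := hw.map (cj A)
  have h2 : cj A (w • (1 : X →L[ℂ] X) - T) = σ w • (1 : Y →L[ℂ] Y) - S := by
    ext y
    rw [cj_apply]
    have h3 := h (A.symm y)
    rw [A.apply_symm_apply] at h3
    simp only [sub_apply, smul_apply, one_apply_eq_self, map_sub, A.map_smulₛₗ, A.apply_symm_apply, h3]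
  rwa [h2] at h1

/-- TARGET 1 -/
theorem specRad_conj {σ : ℂ →+* ℂ} [RingHomInvPair σ σ] [RingHomIsometric σ]
    (A : X ≃SL[σ] Y) (T : X →L[ℂ] X) (S : Y →L[ℂ] Y) (h : ∀ x, S (A x) = A (T x)) :
    spectralRadius ℂ S = spectralRadius ℂ T := by
  have hσ : ∀ z, σ (σ z) = z := fun z => RingHomInvPair.comp_apply_eq
  have hn : ∀ z : ℂ, ‖σ z‖₊ = ‖z‖₊ := fun z => RingHomIsometric.nnnorm_map σ z
  have h' : ∀ y, T (A.symm y) = A.symm (S y) := by
    intro y
    have h3 := h (A.symm y)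
    rw [A.apply_symm_apply] at h3
    rw [h3, A.symm_apply_apply]
  apply le_antisymm
  · unfold spectralRadius
    apply iSup₂_le
    intro z hz
    have hz' : σ z ∈ spectrum ℂ T := by
      rw [mem_spec_iff]
      intro hu
      have := isUnit_cj A T S h _ hu
      rw [hσ] at this
      exact (mem_spec_iff.1 hz) this
    rw [← hn z]
    exact le_iSup₂ (f := fun (k : ℂ) (_ : k ∈ spectrum ℂ T) => (‖k‖₊ : ENNReal)) _ hz'
  · unfold spectralRadius
    apply iSup₂_le
    intro z hz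
    have hz' : σ z ∈ spectrum ℂ S := by
      rw [mem_spec_iff]
      intro hu
      have := isUnit_cj A.symm S T h' _ hu
      rw [hσ] at this
      exact (mem_spec_iff.1 hz) this
    rw [← hn z]
    exact le_iSup₂ (f := fun (k : ℂ) (_ : k ∈ spectrum ℂ S) => (‖k‖₊ : ENNReal)) _ hz'

/-- TARGET 3 -/
theorem conj_surj {σ : ℂ →+* ℂ} [RingHomInvPair σ σ] (A : X ≃SL[σ] Y) (S : Y →L[ℂ] Y) :
    ∃ T : X →L[ℂ] X, ∀ x, S (A x) = A (T x) := by
  refine ⟨cj A.symm S, fun x => ?_⟩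
  rw [cj_apply, A.apply_symm_apply]
  rfl

end


-- from sol_1952.lean



section
variable {X Y : Type*} [NormedAddCommGroup X] [NormedSpace ℂ X] [CompleteSpace X]
  [NormedAddCommGroup Y] [NormedSpace ℂ Y] [CompleteSpace Y]

omit [NormedAddCommGroup Y] [NormedSpace ℂ Y] [CompleteSpace Y] in
theorem bij_of_dual (T' : X →L[ℂ] X)
    (hD : Function.Bijective (fun f : X →L[ℂ] ℂ => f.comp T')) : Function.Bijective T' := by
  set D : (X →L[ℂ] ℂ) →L[ℂ] (X →L[ℂ] ℂ) := (ContinuousLinearMap.compL ℂ X X ℂ).flip T' with hDdef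
  have hDapp : ∀ f, D f = f.comp T' := fun f => rfl
  obtain ⟨C, hC, hpre⟩ := D.exists_preimage_norm_le hD.2
  have hbd : ∀ x, ‖x‖ ≤ C * ‖T' x‖ := by
    intro x
    obtain ⟨f, hf1, hf2⟩ := exists_dual_vector'' ℂ x
    obtain ⟨g, hg1, hg2⟩ := hpre f
    have h1 : f x = g (T' x) := by rw [← hg1, hDapp]; rfl
    have h2 : ‖x‖ = ‖g (T' x)‖ := by
      rw [← h1, hf2]; simp
    rw [h2]
    refine (g.le_opNorm _).trans ?_
    have h3 : ‖g‖ ≤ C := hg2.trans (by nlinarith [norm_nonneg f])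
    gcongr
  rw [ContinuousLinearMap.bijective_iff_dense_range_and_antilipschitz]
  refine ⟨?_, C.toNNReal, AddMonoidHomClass.antilipschitz_of_bound T' (fun x => by
    rw [Real.coe_toNNReal _ hC.le]; exact hbd x)⟩
  rw [Submodule.eq_top_iff']
  intro x
  by_contra hx
  obtain ⟨f, u, hf1, hf2⟩ := RCLike.geometric_hahn_banach_closed_point (𝕜 := ℂ)
    (s := (T'.range.topologicalClosure : Set X))
    (T'.range.topologicalClosure.restrictScalars ℝ).convex
    (Submodule.isClosed_topologicalClosure _) hx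
  have hu : 0 < u := by
    have := hf1 0 (Submodule.zero_mem _)
    simpa using this
  have hvan : ∀ y, f (T' y) = 0 := by
    intro y
    by_contra hne
    have hmem : ∀ c : ℂ, c • T' y ∈ T'.range.topologicalClosure := by
      intro c
      exact Submodule.smul_mem _ _ (Submodule.le_topologicalClosure _ ⟨y, rfl⟩)
    have h1 := hf1 _ (hmem ((u : ℂ) / f (T' y)))
    rw [map_smul, smul_eq_mul, div_mul_cancel₀ _ hne] at h1
    simp at h1
  have hDf : D f = D 0 := by
    rw [map_zero, hDapp]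
    ext y
    exact hvan y
  have hf0 : f = 0 := hD.1 hDf
  rw [hf0] at hf2
  simp at hf2
  linarith

omit [NormedAddCommGroup Y] [NormedSpace ℂ Y] [CompleteSpace Y] in
theorem dual_of_bij (T' : X →L[ℂ] X) (h : Function.Bijective T') :
    Function.Bijective (fun f : X →L[ℂ] ℂ => f.comp T') := by
  obtain ⟨U, hU⟩ := ContinuousLinearMap.isUnit_iff_bijective.2 h
  have h1 : ∀ x, T' ((↑U⁻¹ : X →L[ℂ] X) x) = x := by
    intro x
    rw [← hU]
    show ((U : X →L[ℂ] X) * (↑U⁻¹ : X →L[ℂ] X)) x = x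
    rw [Units.mul_inv]; rfl
  have h2 : ∀ x, (↑U⁻¹ : X →L[ℂ] X) (T' x) = x := by
    intro x
    rw [← hU]
    show ((↑U⁻¹ : X →L[ℂ] X) * (U : X →L[ℂ] X)) x = x
    rw [Units.inv_mul]; rfl
  constructor
  · intro f g hfg
    ext x
    have := congrArg (fun k : X →L[ℂ] ℂ => k ((↑U⁻¹ : X →L[ℂ] X) x)) hfg
    simpa [h1] using this
  · intro f
    refine ⟨f.comp (↑U⁻¹ : X →L[ℂ] X), ?_⟩
    ext x
    simp [h2]

theorem mem_spec_dual {σ : ℂ →+* ℂ} [RingHomInvPair σ σ]
    (A : (X →L[ℂ] ℂ) ≃SL[σ] Y) (T : X →L[ℂ] X) (S : Y →L[ℂ] Y)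
    (h : ∀ f : X →L[ℂ] ℂ, S (A f) = A (f.comp T)) (z : ℂ) :
    z ∈ spectrum ℂ S ↔ σ z ∈ spectrum ℂ T := by
  rw [mem_spec_iff, mem_spec_iff, not_iff_not, ContinuousLinearMap.isUnit_iff_bijective,
    ContinuousLinearMap.isUnit_iff_bijective]
  have hσσ : σ (σ z) = z := RingHomInvPair.comp_apply_eq
  set T' : X →L[ℂ] X := σ z • (1 : X →L[ℂ] X) - T with hT'
  have key : ∀ f : X →L[ℂ] ℂ, (z • (1 : Y →L[ℂ] Y) - S) (A f) = A (f.comp T') := by
    intro f
    have e1 : f.comp T' = σ z • f - f.comp T := by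
      ext x
      simp [hT']
    rw [e1, map_sub, ← h, ContinuousLinearEquiv.map_smulₛₗ, hσσ]
    simp
  have hcomp : (⇑(z • (1 : Y →L[ℂ] Y) - S)) ∘ A = A ∘ (fun f : X →L[ℂ] ℂ => f.comp T') := by
    funext f
    exact key f
  have hbA : Function.Bijective A := A.bijective
  constructor
  · intro hb
    apply bij_of_dual
    have h1 : Function.Bijective (A ∘ (fun f : X →L[ℂ] ℂ => f.comp T')) := by
      rw [← hcomp]; exact hb.comp hbA
    exact (Function.Bijective.of_comp_iff' hbA _).1 h1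
  · intro hb
    have h1 : Function.Bijective ((⇑(z • (1 : Y →L[ℂ] Y) - S)) ∘ A) := by
      rw [hcomp]; exact hbA.comp (dual_of_bij T' hb)
    exact (Function.Bijective.of_comp_iff _ hbA).1 h1

/-- TARGET 2 -/
theorem specRad_dual {σ : ℂ →+* ℂ} [RingHomInvPair σ σ] [RingHomIsometric σ]
    (A : (X →L[ℂ] ℂ) ≃SL[σ] Y) (T : X →L[ℂ] X) (S : Y →L[ℂ] Y)
    (h : ∀ f : X →L[ℂ] ℂ, S (A f) = A (f.comp T)) :
    spectralRadius ℂ S = spectralRadius ℂ T := by
  have hn : ∀ z : ℂ, ‖σ z‖₊ = ‖z‖₊ := fun z => by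
    apply NNReal.eq
    exact RingHomIsometric.norm_map
  apply le_antisymm
  · unfold spectralRadius
    apply iSup₂_le
    intro z hz
    have h1 := (mem_spec_dual A T S h z).1 hz
    rw [← hn z]
    exact le_iSup₂ (f := fun (k : ℂ) (_ : k ∈ spectrum ℂ T) => (‖k‖₊ : ENNReal)) (σ z) h1
  · unfold spectralRadius
    apply iSup₂_le
    intro z hz
    have h1 : σ z ∈ spectrum ℂ S := by
      rw [mem_spec_dual A T S h]
      have hσσ : σ (σ z) = z := RingHomInvPair.comp_apply_eq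
      rwa [hσσ]
    rw [← hn z]
    exact le_iSup₂ (f := fun (k : ℂ) (_ : k ∈ spectrum ℂ S) => (‖k‖₊ : ENNReal)) (σ z) h1

end


-- from sol_1954.lean



section
variable {X Y : Type*} [NormedAddCommGroup X] [NormedSpace ℂ X] [CompleteSpace X]
  [NormedAddCommGroup Y] [NormedSpace ℂ Y] [CompleteSpace Y]

/-- TARGET 4: on a reflexive space every operator on the dual is an adjoint -/
theorem dual_surj {σ : ℂ →+* ℂ} [RingHomInvPair σ σ]
    (hX : Function.Surjective (fun x : X => (ContinuousLinearMap.apply ℂ ℂ x :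
      (X →L[ℂ] ℂ) →L[ℂ] ℂ)))
    (A : (X →L[ℂ] ℂ) ≃SL[σ] Y) (S : Y →L[ℂ] Y) :
    ∃ T : X →L[ℂ] X, ∀ f : X →L[ℂ] ℂ, S (A f) = A (f.comp T) := by
  obtain ⟨S', hS'⟩ : ∃ S' : (X →L[ℂ] ℂ) →L[ℂ] (X →L[ℂ] ℂ), ∀ f, S' f = A.symm (S (A f)) :=
    ⟨(A.symm : Y →SL[σ] (X →L[ℂ] ℂ)).comp (S.comp (A : (X →L[ℂ] ℂ) →SL[σ] Y)), fun f => rfl⟩
  choose T hT using fun x : X => hX ((ContinuousLinearMap.apply ℂ ℂ x).comp S')
  have hT' : ∀ (x : X) (f : X →L[ℂ] ℂ), f (T x) = (S' f) x := by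
    intro x f
    exact congrArg (fun g : (X →L[ℂ] ℂ) →L[ℂ] ℂ => g f) (hT x)
  have hext : ∀ u v : X, (∀ f : X →L[ℂ] ℂ, f u = f v) → u = v := by
    intro u v huv
    exact (NormedSpace.eq_iff_forall_dual_eq ℂ).mpr huv
  let T0 : X →ₗ[ℂ] X :=
    { toFun := T
      map_add' := fun x y => by
        apply hext
        intro f
        rw [hT', map_add, map_add, hT', hT']
      map_smul' := fun c x => by
        apply hext
        intro f
        rw [hT', map_smul, RingHom.id_apply, map_smul, hT'] }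
  have hbd : ∀ x, ‖T0 x‖ ≤ ‖S'‖ * ‖x‖ := by
    intro x
    apply NormedSpace.norm_le_dual_bound ℂ _ (by positivity)
    intro f
    show ‖f (T x)‖ ≤ _
    rw [hT']
    calc ‖(S' f) x‖ ≤ ‖S' f‖ * ‖x‖ := (S' f).le_opNorm x
      _ ≤ (‖S'‖ * ‖f‖) * ‖x‖ := by
          gcongr
          exact S'.le_opNorm f
      _ = ‖S'‖ * ‖x‖ * ‖f‖ := by ring
  refine ⟨T0.mkContinuous ‖S'‖ hbd, fun f => ?_⟩
  have h1 : f.comp (T0.mkContinuous ‖S'‖ hbd) = A.symm (S (A f)) := by
    ext x
    rw [← hS']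
    exact hT' x f
  rw [h1]
  exact (A.apply_symm_apply _).symm

/-- TARGET 5: if every operator on the dual is an adjoint then the space is reflexive -/
theorem reflexive_of_adjoint
    (h : ∀ S : (X →L[ℂ] ℂ) →L[ℂ] (X →L[ℂ] ℂ), ∃ T : X →L[ℂ] X, ∀ f : X →L[ℂ] ℂ,
      S f = f.comp T) :
    Function.Surjective (fun x : X => (ContinuousLinearMap.apply ℂ ℂ x :
      (X →L[ℂ] ℂ) →L[ℂ] ℂ)) := by
  intro ξ
  rcases subsingleton_or_nontrivial X with hs | hn
  · refine ⟨0, ?_⟩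
    ext f
    have : f = 0 := by
      ext x
      rw [Subsingleton.elim x 0, map_zero, map_zero]
    rw [this]
    simp
  · obtain ⟨x0, hx0⟩ := exists_ne (0 : X)
    obtain ⟨f0, hf0⟩ := SeparatingDual.exists_eq_one (R := ℂ) hx0
    obtain ⟨T, hT⟩ := h (ContinuousLinearMap.smulRight ξ f0)
    refine ⟨T x0, ?_⟩
    ext f
    have h1 := congrArg (fun g : X →L[ℂ] ℂ => g x0) (hT f)
    simp only [ContinuousLinearMap.smulRight_apply, ContinuousLinearMap.comp_apply] at h1
    have h2 : (ξ f • f0) x0 = ξ f := by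
      show ξ f • f0 x0 = ξ f
      rw [hf0, smul_eq_mul, mul_one]
    rw [h2] at h1
    exact h1.symm
end


-- from A5.lean



section
variable {X : Type*} [NormedAddCommGroup X] [NormedSpace ℂ X] [CompleteSpace X]
end
section defs
variable {X Y : Type*} [NormedAddCommGroup X] [NormedSpace ℂ X]
  [NormedAddCommGroup Y] [NormedSpace ℂ Y]

/-- the basic hypothesis for a pair of maps -/
structure Pair (φ ψ : (X →L[ℂ] X) → (Y →L[ℂ] Y)) : Prop where
  surjφ : Function.Surjective φ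
  surjψ : Function.Surjective ψ
  eq : ∀ T S, sr (φ T - ψ S) = sr (T - S)

/-- real linear homeomorphisms -/
structure IsRL (L : (X →L[ℂ] X) → (Y →L[ℂ] Y)) : Prop where
  add : ∀ S T, L (S + T) = L S + L T
  smul : ∀ (r : ℝ) T, L ((r : ℂ) • T) = (r : ℂ) • L T
  bij : Function.Bijective L
  bound : ∃ K : ℝ, ∀ T, ‖L T‖ ≤ K * ‖T‖
  bound' : ∃ K : ℝ, ∀ T, ‖T‖ ≤ K * ‖L T‖

end defs

section
variable {X Y : Type*} [NormedAddCommGroup X] [NormedSpace ℂ X] [CompleteSpace X]
  [NormedAddCommGroup Y] [NormedSpace ℂ Y] [CompleteSpace Y]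

theorem Pair.symm {φ ψ : (X →L[ℂ] X) → (Y →L[ℂ] Y)} (h : Pair φ ψ) : Pair ψ φ :=
  ⟨h.surjψ, h.surjφ, fun T S => by rw [sr_sub_comm, h.eq, sr_sub_comm]⟩

theorem Pair.bd1 {φ ψ : (X →L[ℂ] X) → (Y →L[ℂ] Y)} (h : Pair φ ψ) (ρ : ℝ) :
    ∃ K : ℝ, ∀ T, ‖T‖ ≤ ρ → ‖φ T‖ ≤ K := by
  obtain ⟨C, hC⟩ := ub (fun T : {T : X →L[ℂ] X // ‖T‖ ≤ ρ} => φ T.1) (by
    intro f x
    obtain ⟨S, hS⟩ := h.surjψ (f.smulRight x)
    refine ⟨ρ + ‖S‖, fun T => ?_⟩
    rw [← hS, h.eq]
    exact ((sr_le_norm _).trans (norm_sub_le _ _)).trans (by linarith [T.2]))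
  exact ⟨C, fun T hT => hC ⟨T, hT⟩⟩

theorem Pair.bd2 {φ ψ : (X →L[ℂ] X) → (Y →L[ℂ] Y)} (h : Pair φ ψ) (ρ : ℝ) :
    ∃ K : ℝ, ∀ T, ‖φ T‖ ≤ ρ → ‖T‖ ≤ K := by
  obtain ⟨C, hC⟩ := ub (fun T : {T : X →L[ℂ] X // ‖φ T‖ ≤ ρ} => T.1) (by
    intro f x
    refine ⟨ρ + ‖ψ (f.smulRight x)‖, fun T => ?_⟩
    rw [← h.eq]
    exact ((sr_le_norm _).trans (norm_sub_le _ _)).trans (by linarith [T.2]))
  exact ⟨C, fun T hT => hC ⟨T, hT⟩⟩

theorem Pair.growth1 {φ ψ : (X →L[ℂ] X) → (Y →L[ℂ] Y)} (h : Pair φ ψ) :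
    ∃ K : ℝ, 0 ≤ K ∧ ∀ T, ‖φ T‖ ≤ K * (1 + ‖T‖) ^ 2 := by
  obtain ⟨C, hC⟩ := weak_bdd (fun T : X →L[ℂ] X => ((((1 + ‖T‖) ^ 2)⁻¹ : ℝ) : ℂ) • φ T) (by
    intro g y
    obtain ⟨K1, hK1⟩ := h.symm.bd2 ‖g.smulRight y‖
    refine ⟨(|K1| + 1) ^ 2, fun T => ?_⟩
    have h1 : ‖g (φ T y)‖ ≤ (‖T‖ + |K1| + 1) ^ 2 / 1 := by
      apply cauchy_est (φ T) g y (by positivity) one_pos
      intro t ht
      obtain ⟨S, hS⟩ := h.surjψ (t • g.smulRight y)
      have h2 : ‖S‖ ≤ K1 := by
        apply hK1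
        rw [hS, norm_smul]
        have := norm_nonneg (g.smulRight y)
        nlinarith
      rw [← hS, h.eq]
      refine ((sr_le_norm _).trans (norm_sub_le _ _)).trans ?_
      have := le_abs_self K1
      linarith
    have hpos : (0:ℝ) < (1 + ‖T‖) ^ 2 := by positivity
    have h3 : g ((((((1 + ‖T‖) ^ 2)⁻¹ : ℝ) : ℂ) • φ T) y) =
        ((((1 + ‖T‖) ^ 2)⁻¹ : ℝ) : ℂ) * g (φ T y) := by
      rw [ContinuousLinearMap.smul_apply, map_smul, smul_eq_mul]
    rw [h3, norm_mul, Complex.norm_real, Real.norm_of_nonneg (by positivity), inv_mul_le_iff₀ hpos]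
    rw [div_one] at h1
    refine h1.trans ?_
    rw [← mul_pow]
    apply pow_le_pow_left₀ (by positivity)
    have := mul_nonneg (norm_nonneg T) (abs_nonneg K1)
    nlinarith)
  refine ⟨|C|, abs_nonneg C, fun T => ?_⟩
  have hpos : (0:ℝ) < (1 + ‖T‖) ^ 2 := by positivity
  have h1 := hC T
  rw [norm_smul, Complex.norm_real, Real.norm_of_nonneg (by positivity), inv_mul_le_iff₀ hpos] at h1
  have h2 := le_abs_self C
  nlinarith

theorem Pair.growth2 {φ ψ : (X →L[ℂ] X) → (Y →L[ℂ] Y)} (h : Pair φ ψ)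
    (f : X →L[ℂ] ℂ) (x : X) :
    ∃ K : ℝ, 0 ≤ K ∧ ∀ T : X →L[ℂ] X, ‖f (T x)‖ ≤ K * (1 + ‖φ T‖) ^ (3 / 2 : ℝ) := by
  obtain ⟨K, hK0, hK⟩ := h.symm.growth1
  set F := f.smulRight x with hF
  refine ⟨(1 + K * (1 + ‖F‖) ^ 2) ^ 2, by positivity, fun T => ?_⟩
  set N := 1 + ‖φ T‖ with hN
  have hN1 : 1 ≤ N := by rw [hN]; linarith [norm_nonneg (φ T)]
  have hN0 : 0 < N := by linarith
  set M := Real.sqrt N with hM
  have hM1 : 1 ≤ M := by rw [hM]; exact Real.one_le_sqrt.2 hN1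
  have hM2 : M ^ 2 = N := Real.sq_sqrt hN0.le
  have hM0 : 0 < M := by linarith
  have h1 : ‖f (T x)‖ ≤ ((1 + K * (1 + ‖F‖) ^ 2) * N) ^ 2 / M := by
    apply cauchy_est T f x (by positivity) hM0
    intro t ht
    rw [← hF, ← h.eq]
    refine ((sr_le_norm _).trans (norm_sub_le _ _)).trans ?_
    have h2 : ‖ψ (t • F)‖ ≤ K * (1 + ‖F‖) ^ 2 * N := by
      refine (hK _).trans ?_
      rw [mul_assoc]
      apply mul_le_mul_of_nonneg_left _ hK0
      rw [norm_smul, ← hM2, ← mul_pow]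
      apply pow_le_pow_left₀ (by positivity)
      have h3 : ‖t‖ * ‖F‖ ≤ M * ‖F‖ := mul_le_mul_of_nonneg_right ht (norm_nonneg _)
      nlinarith
    have h4 : ‖φ T‖ ≤ N := by rw [hN]; linarith
    linarith
  refine h1.trans (le_of_eq ?_)
  have h5 : N ^ (3 / 2 : ℝ) = N ^ 2 / M := by
    rw [hM, Real.sqrt_eq_rpow, eq_div_iff (by positivity), ← Real.rpow_add hN0,
      ← Real.rpow_natCast]
    norm_num
  rw [h5]
  ring
end


-- from sol_2132.lean



section
variable {X : Type*} [NormedAddCommGroup X] [NormedSpace ℂ X] [CompleteSpace X]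
end

section
variable {X : Type*} [NormedAddCommGroup X] [NormedSpace ℂ X] [CompleteSpace X]
end

theorem log_aux {l s r q k : ℝ} (hl0 : 0 < l) (hk : 1 ≤ k) (hlk : 100 * k ≤ l)
    (hql : q * l = k ^ 2) (hr1 : -k ≤ r) (hr2 : r ≤ k)
    (hs_up : s ≤ l + r + 101 * q) (hs_low : l + r - 100 * q ≤ s) (hq0 : 0 ≤ q)
    (hqk : 100 * q ≤ k) :
    |l * (Real.log s - Real.log l) - r| ≤ 200 * q := by
  have hspos : 0 < s := by linarith
  set e : ℝ := (s - l) / l with he
  have hel : l * e = s - l := by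
    rw [he]; field_simp
  have h1e : 1 + e = s / l := by
    rw [he]; field_simp; ring
  have hlog : Real.log s - Real.log l = Real.log (1 + e) := by
    rw [h1e, Real.log_div hspos.ne' hl0.ne']
  have hsl1 : s - l ≤ 3 * k := by linarith
  have hsl2 : -(3 * k) ≤ s - l := by linarith
  have he1 : e ≤ 3 / 100 := by
    have : l * e ≤ l * (3 / 100) := by rw [hel]; linarith
    exact le_of_mul_le_mul_left this hl0
  have he2 : -(3 / 100) ≤ e := by
    have : l * (-(3 / 100)) ≤ l * e := by rw [hel]; linarith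
    exact le_of_mul_le_mul_left this hl0
  have hpos : 0 < 1 + e := by linarith
  have hlog1 : Real.log (1 + e) ≤ e := by
    have := Real.log_le_sub_one_of_pos hpos
    linarith
  have hlog2 : e - 2 * e ^ 2 ≤ Real.log (1 + e) := by
    have h1 := Real.one_sub_inv_le_log_of_pos hpos
    have h2 : e - 2 * e ^ 2 ≤ 1 - (1 + e)⁻¹ := by
      have h3 : 1 - (1 + e)⁻¹ = e / (1 + e) := by
        field_simp
        ring
      rw [h3, le_div_iff₀ hpos]
      have h4 : 0 ≤ e ^ 2 * (1 + 2 * e) := mul_nonneg (sq_nonneg e) (by linarith)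
      nlinarith
    linarith
  have hle2 : l * (2 * e ^ 2) ≤ 18 * q := by
    have h1 : l * (l * (2 * e ^ 2)) = 2 * (s - l) ^ 2 := by
      rw [← hel]; ring
    have h2 : l * (18 * q) = 18 * k ^ 2 := by
      rw [← hql]; ring
    have h3 : l * (l * (2 * e ^ 2)) ≤ l * (18 * q) := by
      rw [h1, h2]
      have : (s - l) ^ 2 ≤ (3 * k) ^ 2 := sq_le_sq' hsl2 hsl1
      linarith
    exact le_of_mul_le_mul_left h3 hl0
  rw [hlog, abs_le]
  have hU : l * Real.log (1 + e) ≤ s - l := by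
    rw [← hel]
    exact mul_le_mul_of_nonneg_left hlog1 hl0.le
  have hL : s - l - 18 * q ≤ l * Real.log (1 + e) := by
    have h1 : l * (e - 2 * e ^ 2) ≤ l * Real.log (1 + e) :=
      mul_le_mul_of_nonneg_left hlog2 hl0.le
    have h2 : l * (e - 2 * e ^ 2) = (s - l) - l * (2 * e ^ 2) := by
      rw [mul_sub, hel]
    linarith
  constructor <;> linarith

theorem norm_up_aux {l q k : ℝ} {a : ℂ} (hl0 : 0 < l) (hk : 1 ≤ k) (hlk : 100 * k ≤ l)
    (hql : q * l = k ^ 2) (hna : ‖a‖ ≤ k) (hq0 : 0 ≤ q) (hqk : 100 * q ≤ k) :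
    ‖(l : ℂ) + a‖ ≤ l + a.re + q := by
  have hre : |a.re| ≤ k := (Complex.abs_re_le_norm a).trans hna
  have him : |a.im| ≤ k := (Complex.abs_im_le_norm a).trans hna
  obtain ⟨hre1, hre2⟩ := abs_le.1 hre
  have h0 : 0 ≤ l + a.re + q := by linarith
  have h1 : ‖(l : ℂ) + a‖ ^ 2 ≤ (l + a.re + q) ^ 2 := by
    rw [← Complex.normSq_eq_norm_sq, Complex.normSq_apply]
    simp only [Complex.add_re, Complex.ofReal_re, Complex.add_im, Complex.ofReal_im, zero_add]
    have h2 : a.im * a.im ≤ k ^ 2 := by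
      have := sq_le_sq' (abs_le.1 him).1 (abs_le.1 him).2
      linarith [sq a.im]
    have h3 : k ^ 2 ≤ 2 * q * (l + a.re) := by
      have h4 : 2 * q * (l + a.re) = 2 * k ^ 2 + 2 * q * a.re := by
        rw [← hql]; ring
      rw [h4]
      have h5 : 2 * q * (-k) ≤ 2 * q * a.re :=
        mul_le_mul_of_nonneg_left hre1 (by positivity)
      have h6 : 2 * q * k ≤ k * k :=
        mul_le_mul_of_nonneg_right (by linarith) (by linarith)
      linarith [sq k]
    have h7 : (l + a.re + q) ^ 2 = (l + a.re) * (l + a.re) + 2 * q * (l + a.re) + q ^ 2 := by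
      ring
    rw [h7]
    linarith [sq_nonneg q]
  exact (pow_le_pow_iff_left₀ (norm_nonneg _) h0 two_ne_zero).1 h1

section
variable {X : Type*} [NormedAddCommGroup X] [NormedSpace ℂ X] [CompleteSpace X]
theorem busemann_log (T : X →L[ℂ] X) (f : X →L[ℂ] ℂ) (x : X) (hfx : f x = 1) {m p l : ℝ}
    (hm : 1 ≤ m) (hp : 1 ≤ p) (hT : ‖T‖ ≤ m) (hfp : ‖f‖ * ‖x‖ ≤ p) (hl : 100 * p * m ≤ l)
    {u : ℂ} (hu : ‖u‖ = 1) :
    1 ≤ sr (T + ((l : ℂ) * u) • f.smulRight x) ∧
    |l * (Real.log (sr (T + ((l : ℂ) * u) • f.smulRight x)) - Real.log l) -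
      ((starRingEnd ℂ) u * f (T x)).re| ≤ 200 * p ^ 2 * m ^ 2 / l := by
  have hl0 : 0 < l := by
    have h1 : 0 < 100 * p * m := by positivity
    linarith
  have hk : 1 ≤ p * m := by nlinarith
  have hlk : 100 * (p * m) ≤ l := by linarith [mul_assoc 100 p m]
  have huu : u * (starRingEnd ℂ) u = 1 := by
    rw [Complex.mul_conj, Complex.normSq_eq_norm_sq, hu]
    norm_num
  have hu0 : u ≠ 0 := by
    intro h
    rw [h] at hu
    simp at hu
  obtain ⟨T', hT'def⟩ : ∃ T' : X →L[ℂ] X, T' = (starRingEnd ℂ) u • T := ⟨_, rfl⟩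
  have hT' : ‖T'‖ ≤ m := by
    rw [hT'def, norm_smul, RCLike.norm_conj, hu, one_mul]
    exact hT
  have hsr : sr (T + ((l : ℂ) * u) • f.smulRight x) = sr (T' + (l : ℂ) • f.smulRight x) := by
    have h1 : T + ((l : ℂ) * u) • f.smulRight x = u • (T' + (l : ℂ) • f.smulRight x) := by
      rw [hT'def, smul_add, smul_smul, smul_smul, huu, one_smul, mul_comm (l : ℂ) u]
    rw [h1, sr_smul u hu0, hu, one_mul]
  rw [hsr]
  have hfa : f (T' x) = (starRingEnd ℂ) u * f (T x) := by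
    simp [hT'def]
  rw [← hfa]
  have hna : ‖f (T' x)‖ ≤ p * m := by
    have h1 : ‖f (T' x)‖ ≤ ‖f‖ * ‖T' x‖ := f.le_opNorm _
    have h2 : ‖T' x‖ ≤ ‖T'‖ * ‖x‖ := T'.le_opNorm _
    have h3 : ‖f‖ * ‖T' x‖ ≤ ‖f‖ * (‖T'‖ * ‖x‖) :=
      mul_le_mul_of_nonneg_left h2 (norm_nonneg _)
    have h4 : ‖f‖ * (‖T'‖ * ‖x‖) = (‖f‖ * ‖x‖) * ‖T'‖ := by ring
    have h5 : (‖f‖ * ‖x‖) * ‖T'‖ ≤ p * m :=
      mul_le_mul hfp hT' (norm_nonneg _) (by linarith)
    linarith
  obtain ⟨⟨z0, hz0, hz0'⟩, hall⟩ := busemann T' f x hfx hm hp hT' hfp hl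
  obtain ⟨z, hz, hzs⟩ : ∃ z ∈ spectrum ℂ (T' + (l : ℂ) • f.smulRight x),
      ‖z‖ = sr (T' + (l : ℂ) • f.smulRight x) := by
    have hnt : Nontrivial X := by
      refine ⟨x, 0, ?_⟩
      rintro rfl
      simp at hfx
    exact exists_mem (T' + (l : ℂ) • f.smulRight x)
  have hzall := hall z hz
  have hsz0 : ‖z0‖ ≤ sr (T' + (l : ℂ) • f.smulRight x) := norm_le_sr hz0
  clear hall hz hz0 hsr hT'def hfa hT' hT
  generalize sr (T' + (l : ℂ) • f.smulRight x) = s at *
  generalize f (T' x) = a at *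
  obtain ⟨q, hq⟩ : ∃ q : ℝ, q = (p * m) ^ 2 / l := ⟨_, rfl⟩
  have hD : 100 * p ^ 2 * m ^ 2 / l = 100 * q := by
    rw [hq]; ring
  have hfin : 200 * p ^ 2 * m ^ 2 / l = 200 * q := by
    rw [hq]; ring
  have hq0 : 0 ≤ q := by rw [hq]; positivity
  have hql : q * l = (p * m) ^ 2 := by
    rw [hq]; field_simp
  rw [hD] at hz0' hzall
  rw [hfin]
  have h4k : 4 * p * m = 4 * (p * m) := by ring
  rw [h4k] at hzall
  clear hD hfin hq h4k hl hfp
  generalize p * m = k at *
  have hqk : 100 * q ≤ k := by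
    have h1 : 100 * q * l ≤ k * l := by
      have h2 : 100 * q * l = 100 * k * k := by
        rw [mul_assoc, hql]; ring
      rw [h2, mul_comm k l]
      exact mul_le_mul_of_nonneg_right hlk (by linarith)
    exact le_of_mul_le_mul_right h1 hl0
  have hla_low : l + a.re ≤ ‖(l : ℂ) + a‖ := by
    have := Complex.re_le_norm ((l : ℂ) + a)
    simpa using this
  have hla_up := norm_up_aux hl0 hk hlk hql hna hq0 hqk
  have hre : |a.re| ≤ k := (Complex.abs_re_le_norm a).trans hna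
  obtain ⟨hre1, hre2⟩ := abs_le.1 hre
  have htri1 : ‖(l : ℂ) + a‖ ≤ ‖z0‖ + ‖z0 - ((l : ℂ) + a)‖ := by
    have h2 : (l : ℂ) + a = z0 - (z0 - ((l : ℂ) + a)) := by ring
    calc ‖(l : ℂ) + a‖ = ‖z0 - (z0 - ((l : ℂ) + a))‖ := by rw [← h2]
      _ ≤ _ := norm_sub_le _ _
  have htri2 : ‖(l : ℂ) + a‖ ≤ ‖z‖ + ‖z - ((l : ℂ) + a)‖ := by
    have h2 : (l : ℂ) + a = z - (z - ((l : ℂ) + a)) := by ring
    calc ‖(l : ℂ) + a‖ = ‖z - (z - ((l : ℂ) + a))‖ := by rw [← h2]
      _ ≤ _ := norm_sub_le _ _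
  have htri3 : ‖z‖ ≤ ‖z - ((l : ℂ) + a)‖ + ‖(l : ℂ) + a‖ := by
    have h2 : z = (z - ((l : ℂ) + a)) + ((l : ℂ) + a) := by ring
    calc ‖z‖ = ‖(z - ((l : ℂ) + a)) + ((l : ℂ) + a)‖ := by rw [← h2]
      _ ≤ _ := norm_add_le _ _
  have hzz : ‖z - ((l : ℂ) + a)‖ ≤ 100 * q := by
    rcases hzall with h | h
    · exact h
    · exfalso
      linarith
  have hs_up : s ≤ l + a.re + 101 * q := by linarith
  have hs_low : l + a.re - 100 * q ≤ s := by linarith
  exact ⟨by linarith, log_aux hl0 hk hlk hql hre1 hre2 hs_up hs_low hq0 hqk⟩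
end


-- from sol_2133.lean



section
variable {X : Type*} [NormedAddCommGroup X] [NormedSpace ℂ X] [CompleteSpace X]
end

section
variable {X : Type*} [NormedAddCommGroup X] [NormedSpace ℂ X] [CompleteSpace X]
end

section
variable {X : Type*} [NormedAddCommGroup X] [NormedSpace ℂ X] [CompleteSpace X]
end

section defs
variable {X Y : Type*} [NormedAddCommGroup X] [NormedSpace ℂ X]
  [NormedAddCommGroup Y] [NormedSpace ℂ Y]

end defs

section
variable {X Y : Type*} [NormedAddCommGroup X] [NormedSpace ℂ X] [CompleteSpace X]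
  [NormedAddCommGroup Y] [NormedSpace ℂ Y] [CompleteSpace Y]

theorem circInt_aux {F : ℂ → ℝ} (hF : Measurable F) {c : ℂ} {ρ M : ℝ}
    (hM : ∀ z ∈ sphere c |ρ|, |F z| ≤ M) : CircleIntegrable F c ρ := by
  unfold CircleIntegrable
  have hm : Measurable fun θ : ℝ => F (circleMap c ρ θ) := hF.comp (by fun_prop)
  rw [intervalIntegrable_iff]
  refine MeasureTheory.Measure.integrableOn_of_bounded (M := M) ?_ hm.aestronglyMeasurable ?_
  · rw [uIoc, Real.volume_Ioc]
    exact ENNReal.ofReal_ne_top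
  · refine Filter.Eventually.of_forall fun θ => ?_
    rw [Real.norm_eq_abs]
    exact hM _ (circleMap_mem_sphere' c ρ θ)

theorem beta_meas {φ ψ : (X →L[ℂ] X) → (Y →L[ℂ] Y)} (h : Pair φ ψ)
    (f : X →L[ℂ] ℂ) (x : X) (hfx : f x = 1) (φi : (Y →L[ℂ] Y) → (X →L[ℂ] X))
    (hφi : ∀ S, φ (φi S) = S) (S₀ S₁ : Y →L[ℂ] Y) {u : ℂ} (hu : ‖u‖ = 1) :
    Measurable fun z : ℂ => ((starRingEnd ℂ) u * f (φi (S₀ + z • S₁) x)).re := by
  set g : ℕ → ℂ → ℝ := fun n z => (n : ℝ) * (Real.log (sr ((S₀ - ψ (-(((n : ℂ) * u) • f.smulRight x)))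
    + z • S₁)) - Real.log n) with hg
  have hgm : ∀ n, Measurable (g n) := by
    intro n
    have h1 := measurable_sr_line (S₀ - ψ (-(((n : ℂ) * u) • f.smulRight x))) S₁
    exact ((Real.measurable_log.comp h1).sub_const _).const_mul _
  refine measurable_of_tendsto_metrizable hgm ?_
  rw [tendsto_pi_nhds]
  intro z
  set T := φi (S₀ + z • S₁) with hT
  set m : ℝ := max 1 ‖T‖ with hm
  set p : ℝ := max 1 (‖f‖ * ‖x‖) with hp
  have hsr : ∀ n : ℕ, sr ((S₀ - ψ (-(((n : ℂ) * u) • f.smulRight x))) + z • S₁) =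
      sr (T + ((n : ℂ) * u) • f.smulRight x) := by
    intro n
    have h1 := h.eq T (-(((n : ℂ) * u) • f.smulRight x))
    rw [hT, hφi, sub_neg_eq_add] at h1
    rw [hT, ← h1]
    congr 1
    abel
  rw [tendsto_iff_norm_sub_tendsto_zero]
  have hbd : ∀ᶠ n : ℕ in atTop, ‖g n z - ((starRingEnd ℂ) u * f (T x)).re‖ ≤
      200 * p ^ 2 * m ^ 2 / n := by
    filter_upwards [eventually_ge_atTop ⌈100 * p * m⌉₊] with n hn
    have hn' : 100 * p * m ≤ (n : ℝ) := (Nat.le_ceil _).trans (by exact_mod_cast hn)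
    have hb := (busemann_log T f x hfx (le_max_left _ _) (le_max_left _ _) (le_max_right _ _)
      (le_max_right _ _) hn' hu).2
    rw [Real.norm_eq_abs]
    simp only [hg]
    rw [hsr]
    exact_mod_cast hb
  have hlim : Tendsto (fun n : ℕ => 200 * p ^ 2 * m ^ 2 / (n : ℝ)) atTop (𝓝 0) :=
    tendsto_const_div_atTop_nhds_zero_nat _
  exact squeeze_zero' (Eventually.of_forall fun n => norm_nonneg _) hbd hlim

theorem beta_sub {φ ψ : (X →L[ℂ] X) → (Y →L[ℂ] Y)} (h : Pair φ ψ)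
    (f : X →L[ℂ] ℂ) (x : X) (hfx : f x = 1) (φi : (Y →L[ℂ] Y) → (X →L[ℂ] X))
    (hφi : ∀ S, φ (φi S) = S) (S₀ S₁ : Y →L[ℂ] Y) {u : ℂ} (hu : ‖u‖ = 1) {ρ : ℝ} (hρ : 0 < ρ) :
    ((starRingEnd ℂ) u * f (φi S₀ x)).re ≤
      Real.circleAverage (fun z : ℂ => ((starRingEnd ℂ) u * f (φi (S₀ + z • S₁) x)).re) 0 ρ ∧
    CircleIntegrable (fun z : ℂ => ((starRingEnd ℂ) u * f (φi (S₀ + z • S₁) x)).re) 0 ρ := by
  obtain ⟨K, hK⟩ := h.bd2 (‖S₀‖ + ρ * ‖S₁‖)
  set m : ℝ := max 1 K with hm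
  set p : ℝ := max 1 (‖f‖ * ‖x‖) with hp
  have hm1 : 1 ≤ m := le_max_left _ _
  have hp1 : 1 ≤ p := le_max_left _ _
  set β : ℂ → ℝ := fun z => ((starRingEnd ℂ) u * f (φi (S₀ + z • S₁) x)).re with hβ
  have hβm : Measurable β := beta_meas h f x hfx φi hφi S₀ S₁ hu
  have hTn : ∀ z : ℂ, ‖z‖ ≤ ρ → ‖φi (S₀ + z • S₁)‖ ≤ m := by
    intro z hz
    refine (hK _ ?_).trans (le_max_right _ _)
    rw [hφi]
    refine (norm_add_le _ _).trans ?_
    rw [norm_smul]
    gcongr
  have hβb : ∀ z : ℂ, ‖z‖ ≤ ρ → |β z| ≤ p * m := by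
    intro z hz
    refine (Complex.abs_re_le_norm _).trans ?_
    rw [norm_mul, RCLike.norm_conj, hu, one_mul]
    refine (f.le_opNorm _).trans ?_
    have h1 : ‖φi (S₀ + z • S₁) x‖ ≤ ‖φi (S₀ + z • S₁)‖ * ‖x‖ := ContinuousLinearMap.le_opNorm _ _
    have h2 := hTn z hz
    have h3 : ‖f‖ * ‖x‖ ≤ p := le_max_right _ _
    calc ‖f‖ * ‖φi (S₀ + z • S₁) x‖ ≤ ‖f‖ * (m * ‖x‖) := by gcongr; exact h1.trans (by gcongr)
      _ = (‖f‖ * ‖x‖) * m := by ring
      _ ≤ p * m := by gcongr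
  have hβi : CircleIntegrable β 0 ρ := circInt_aux hβm (M := p * m) (by
    intro z hz
    rw [mem_sphere, dist_zero_right, abs_of_pos hρ] at hz
    exact hβb z hz.le)
  refine ⟨?_, hβi⟩
  set Cc : ℝ := 200 * p ^ 2 * m ^ 2 with hCc
  have hmain : ∀ l : ℝ, 100 * p * m ≤ l → β 0 ≤ Real.circleAverage β 0 ρ + 2 * (Cc / l) := by
    intro l hl
    have hl0 : 0 < l := lt_of_lt_of_le (by positivity) hl
    set c := ψ (-(((l : ℂ) * u) • f.smulRight x)) with hc
    have hsr : ∀ z : ℂ, sr ((S₀ - c) + z • S₁) =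
        sr (φi (S₀ + z • S₁) + ((l : ℂ) * u) • f.smulRight x) := by
      intro z
      have h1 := h.eq (φi (S₀ + z • S₁)) (-(((l : ℂ) * u) • f.smulRight x))
      rw [hφi, sub_neg_eq_add] at h1
      rw [← h1]
      congr 1
      abel
    have hb : ∀ z : ℂ, ‖z‖ ≤ ρ → 1 ≤ sr ((S₀ - c) + z • S₁) ∧
        |l * (Real.log (sr ((S₀ - c) + z • S₁)) - Real.log l) - β z| ≤ Cc / l := by
      intro z hz
      rw [hsr]
      exact busemann_log (φi (S₀ + z • S₁)) f x hfx hm1 hp1 (hTn z hz) (le_max_right _ _) hl hu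
    set s : ℂ → ℝ := fun z => Real.log (sr ((S₀ - c) + z • S₁)) with hs
    have hsm : Measurable s := Real.measurable_log.comp (measurable_sr_line (S₀ - c) S₁)
    have hlow : ∀ z : ℂ, ‖z‖ ≤ ρ → s z ≤ (β z + Cc / l) / l + Real.log l := by
      intro z hz
      have h1 := (abs_le.1 (hb z hz).2).2
      have h2 : l * (s z - Real.log l) ≤ β z + Cc / l := by
        simp only [hs]; linarith
      have h3 : s z - Real.log l ≤ (β z + Cc / l) / l := by
        rw [le_div_iff₀ hl0]; linarith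
      linarith
    have h00 : ‖(0 : ℂ)‖ ≤ ρ := by simp [hρ.le]
    have ha1 : 1 ≤ sr (S₀ - c) := by
      have := (hb 0 h00).1
      simpa using this
    have hsub := submean (S₀ - c) S₁ hρ ha1 (fun ζ hζ => (hb ζ hζ.le).1)
    have hsi : CircleIntegrable s 0 ρ := by
      apply circInt_aux hsm (M := (p * m + Cc / l) / l + |Real.log l|)
      intro z hz
      rw [mem_sphere, dist_zero_right, abs_of_pos hρ] at hz
      have h1 := abs_le.1 (hb z hz.le).2
      have h2 := abs_le.1 (hβb z hz.le)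
      have h3 : |s z - Real.log l| ≤ (p * m + Cc / l) / l := by
        rw [le_div_iff₀ hl0, ← abs_of_pos hl0, ← abs_mul, abs_of_pos hl0, abs_le]
        have e : (s z - Real.log l) * l = l * (Real.log (sr ((S₀ - c) + z • S₁)) - Real.log l) := by
          simp only [hs]; ring
        rw [e]
        constructor <;> linarith [h1.1, h1.2, h2.1, h2.2]
      have h4 := abs_add_le (s z - Real.log l) (Real.log l)
      rw [sub_add_cancel] at h4
      linarith
    have hri : CircleIntegrable (fun z => (β z + Cc / l) / l + Real.log l) 0 ρ := by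
      apply circInt_aux (((hβm.add_const _).div_const _).add_const _)
        (M := (p * m + Cc / l) / l + |Real.log l|)
      intro z hz
      rw [mem_sphere, dist_zero_right, abs_of_pos hρ] at hz
      have h2 := hβb z hz.le
      have hCl : 0 ≤ Cc / l := by positivity
      refine (abs_add_le _ _).trans ?_
      have h5 : |(β z + Cc / l) / l| ≤ (p * m + Cc / l) / l := by
        rw [abs_div, abs_of_pos hl0]
        gcongr
        refine (abs_add_le _ _).trans ?_
        rw [abs_of_nonneg hCl]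
        linarith
      linarith
    have hmono := Real.circleAverage_mono hsi hri (fun z hz => hlow z (by
      rw [mem_sphere, dist_zero_right, abs_of_pos hρ] at hz
      exact hz.le))
    have havg : Real.circleAverage (fun z => (β z + Cc / l) / l + Real.log l) 0 ρ =
        (Real.circleAverage β 0 ρ + Cc / l) / l + Real.log l := by
      have hc1 : CircleIntegrable (fun _ : ℂ => Cc / l ^ 2 + Real.log l) 0 ρ :=
        circInt_aux measurable_const (M := |Cc / l ^ 2 + Real.log l|) (fun _ _ => le_rfl)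
      have e1 : (fun z => (β z + Cc / l) / l + Real.log l) =
          (fun z => (1 / l) • β z) + (fun _ => Cc / l ^ 2 + Real.log l) := by
        funext z
        simp only [Pi.add_apply, smul_eq_mul]
        field_simp
        ring
      have hc2 : CircleIntegrable (fun z => (1 / l) • β z) 0 ρ := hβi.const_smul
      rw [e1, Real.circleAverage_add hc2 hc1, Real.circleAverage_const,
        Real.circleAverage_fun_smul]
      simp only [smul_eq_mul]
      field_simp
      ring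
    have h0 : l * (Real.log (sr (S₀ - c)) - Real.log l) ≥ β 0 - Cc / l := by
      have h1 := (abs_le.1 (hb 0 h00).2).1
      rw [zero_smul, add_zero] at h1
      linarith
    have h1 : Real.log (sr (S₀ - c)) ≤ (Real.circleAverage β 0 ρ + Cc / l) / l + Real.log l := by
      rw [← havg]
      exact hsub.trans hmono
    have h2 : Real.log (sr (S₀ - c)) - Real.log l ≤ (Real.circleAverage β 0 ρ + Cc / l) / l := by
      linarith
    rw [le_div_iff₀ hl0] at h2
    linarith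
  have hβ0 : β 0 = ((starRingEnd ℂ) u * f (φi S₀ x)).re := by
    simp only [hβ, zero_smul, add_zero]
  rw [← hβ0]
  apply le_of_forall_pos_le_add
  intro e he
  have hlim : Tendsto (fun l : ℝ => 2 * (Cc / l)) atTop (𝓝 0) := by
    have : Tendsto (fun l : ℝ => Cc / l) atTop (𝓝 0) := tendsto_const_nhds.div_atTop tendsto_id
    simpa using this.const_mul 2
  have hev := (hlim.eventually (gt_mem_nhds he)).and (eventually_ge_atTop (100 * p * m))
  obtain ⟨l, hl1, hl2⟩ := hev.exists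
  have := hmain l hl2
  linarith

theorem beta_mv {φ ψ : (X →L[ℂ] X) → (Y →L[ℂ] Y)} (h : Pair φ ψ)
    (f : X →L[ℂ] ℂ) (x : X) (hfx : f x = 1) (φi : (Y →L[ℂ] Y) → (X →L[ℂ] X))
    (hφi : ∀ S, φ (φi S) = S) (S₀ S₁ : Y →L[ℂ] Y) {u : ℂ} (hu : ‖u‖ = 1) (c : ℂ) {ρ : ℝ}
    (hρ : 0 < ρ) :
    Real.circleAverage (fun z : ℂ => ((starRingEnd ℂ) u * f (φi (S₀ + z • S₁) x)).re) c ρ =
      ((starRingEnd ℂ) u * f (φi (S₀ + c • S₁) x)).re := by
  rw [← Real.circleAverage_map_add_const]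
  have e : ∀ z : ℂ, S₀ + (z + c) • S₁ = (S₀ + c • S₁) + z • S₁ := by
    intro z
    rw [add_smul]
    abel
  simp only [e]
  apply le_antisymm
  · have h1 := (beta_sub h f x hfx φi hφi (S₀ + c • S₁) S₁ (u := -u) (by rw [norm_neg, hu]) hρ).1
    have e2 : (fun z : ℂ => ((starRingEnd ℂ) (-u) * f (φi ((S₀ + c • S₁) + z • S₁) x)).re) =
        fun z => (-1 : ℝ) • ((starRingEnd ℂ) u * f (φi ((S₀ + c • S₁) + z • S₁) x)).re := by
      funext z
      simp
    rw [e2, Real.circleAverage_fun_smul] at h1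
    simp only [map_neg, neg_mul, Complex.neg_re, smul_eq_mul, one_mul] at h1
    linarith
  · exact (beta_sub h f x hfx φi hφi (S₀ + c • S₁) S₁ hu hρ).1

/-- TARGET -/
theorem Pair.midpoint {φ ψ : (X →L[ℂ] X) → (Y →L[ℂ] Y)} (h : Pair φ ψ)
    (f : X →L[ℂ] ℂ) (x : X) (hfx : f x = 1) (φi : (Y →L[ℂ] Y) → (X →L[ℂ] X))
    (hφi : ∀ S, φ (φi S) = S) (S₀ S₁ : Y →L[ℂ] Y) :
    f (φi (S₀ + S₁) x) + f (φi (S₀ - S₁) x) = 2 * f (φi S₀ x) := by
  obtain ⟨K, hK0, hK⟩ := h.growth2 f x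
  set K' : ℝ := K * (1 + ‖S₀‖ + ‖S₁‖) ^ (3 / 2 : ℝ) with hK'
  have hgrow : ∀ (u : ℂ), ‖u‖ = 1 → ∀ z : ℂ,
      |((starRingEnd ℂ) u * f (φi (S₀ + z • S₁) x)).re| ≤ K' * (1 + ‖z‖) ^ (3 / 2 : ℝ) := by
    intro u hu z
    refine (Complex.abs_re_le_norm _).trans ?_
    rw [norm_mul, RCLike.norm_conj, hu, one_mul]
    refine (hK _).trans ?_
    rw [hφi, hK', mul_assoc, ← Real.mul_rpow (by positivity) (by positivity)]
    apply mul_le_mul_of_nonneg_left _ hK0
    apply Real.rpow_le_rpow (by positivity) _ (by norm_num)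
    have h1 := norm_add_le S₀ (z • S₁)
    rw [norm_smul] at h1
    nlinarith [norm_nonneg S₀, norm_nonneg S₁, norm_nonneg z,
      mul_nonneg (norm_nonneg z) (norm_nonneg S₀)]
  have key : ∀ (u : ℂ), ‖u‖ = 1 →
      ((starRingEnd ℂ) u * f (φi (S₀ + S₁) x)).re + ((starRingEnd ℂ) u * f (φi (S₀ - S₁) x)).re =
        2 * ((starRingEnd ℂ) u * f (φi S₀ x)).re := by
    intro u hu
    have h1 := liouville_mv (fun z : ℂ => ((starRingEnd ℂ) u * f (φi (S₀ + z • S₁) x)).re)
      (beta_meas h f x hfx φi hφi S₀ S₁ hu) K' (hgrow u hu)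
      (fun c ρ hρ => beta_mv h f x hfx φi hφi S₀ S₁ hu c hρ) (-1) 1 1
    have e1 : S₀ + (-1 + 1 + 1 : ℂ) • S₁ = S₀ + S₁ := by
      rw [show (-1 + 1 + 1 : ℂ) = 1 by ring, one_smul]
    have e2 : S₀ + (-1 + 1 : ℂ) • S₁ = S₀ := by
      rw [show (-1 + 1 : ℂ) = 0 by ring, zero_smul, add_zero]
    have e3 : S₀ + (-1 : ℂ) • S₁ = S₀ - S₁ := by
      rw [neg_smul, one_smul, sub_eq_add_neg]
    simp only [e1, e2, e3] at h1
    linarith
  have k1 := key 1 (by simp)
  have k2 := key Complex.I (by simp)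
  simp only [map_one, one_mul] at k1
  simp only [Complex.conj_I, neg_mul, Complex.neg_re, Complex.I_mul_re, neg_neg] at k2
  apply Complex.ext
  · simp only [Complex.add_re, Complex.mul_re, Complex.re_ofNat, Complex.im_ofNat, zero_mul, sub_zero]
    exact k1
  · simp only [Complex.add_im, Complex.mul_im, Complex.re_ofNat, Complex.im_ofNat, zero_mul, add_zero]
    exact k2
end


-- from sol_2134.lean



section
variable {X : Type*} [NormedAddCommGroup X] [NormedSpace ℂ X] [CompleteSpace X]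
end

section defs
variable {X Y : Type*} [NormedAddCommGroup X] [NormedSpace ℂ X]
  [NormedAddCommGroup Y] [NormedSpace ℂ Y]

end defs

section
variable {X Y : Type*} [NormedAddCommGroup X] [NormedSpace ℂ X] [CompleteSpace X]
  [NormedAddCommGroup Y] [NormedSpace ℂ Y] [CompleteSpace Y]

/-- TARGET -/
theorem Pair.exists_linear {φ ψ : (X →L[ℂ] X) → (Y →L[ℂ] Y)} (h : Pair φ ψ) :
    ∃ L : (X →L[ℂ] X) → (Y →L[ℂ] Y), IsRL L ∧ ∀ T, φ T = φ 0 + L T := by
  have hinj : Function.Injective φ := by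
    intro T T' hTT
    have h0 : T - T' = 0 := by
      apply eq_zero_of_sr
      intro G
      have h1 := h.eq T (T' - G)
      have h2 := h.eq T' (T' - G)
      rw [hTT] at h1
      have h3 : T - (T' - G) = T - T' + G := by abel
      have h4 : T' - (T' - G) = G := by abel
      rw [h3] at h1
      rw [h4] at h2
      rw [← h1, ← h2]
    exact sub_eq_zero.1 h0
  set φi : (Y →L[ℂ] Y) → (X →L[ℂ] X) := Function.surjInv h.surjφ with hφi
  have hr : ∀ S, φ (φi S) = S := fun S => Function.surjInv_eq h.surjφ S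
  have hl : ∀ T, φi (φ T) = T := fun T => hinj (hr _)
  have hmid : ∀ S₀ S₁ : Y →L[ℂ] Y, φi (S₀ + S₁) + φi (S₀ - S₁) = (2 : ℂ) • φi S₀ := by
    intro S₀ S₁
    rw [← sub_eq_zero]
    ext x
    by_contra hx
    have hx0 : x ≠ 0 := by
      rintro rfl
      exact hx (by simp)
    obtain ⟨f, hf1, hf2⟩ := SeparatingDual.exists_eq_one_ne_zero_of_ne_zero_pair (R := ℂ) hx0 hx
    apply hf2
    have h1 := h.midpoint f x hf1 φi hr S₀ S₁
    simp only [ContinuousLinearMap.sub_apply, ContinuousLinearMap.add_apply,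
      ContinuousLinearMap.smul_apply, map_sub, map_add, map_smul, smul_eq_mul]
    rw [h1]
    ring
  have hphi : ∀ T T' : X →L[ℂ] X, φ ((1 / 2 : ℂ) • (T + T')) = (1 / 2 : ℂ) • (φ T + φ T') := by
    intro T T'
    have h1 := hmid ((1 / 2 : ℂ) • (φ T + φ T')) ((1 / 2 : ℂ) • (φ T - φ T'))
    have h2 : (1 / 2 : ℂ) • (φ T + φ T') + (1 / 2 : ℂ) • (φ T - φ T') = φ T := by
      module
    have h3 : (1 / 2 : ℂ) • (φ T + φ T') - (1 / 2 : ℂ) • (φ T - φ T') = φ T' := by
      module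
    rw [h2, h3, hl, hl] at h1
    rw [h1, smul_smul]
    norm_num
    rw [hr]
  set L : (X →L[ℂ] X) → (Y →L[ℂ] Y) := fun T => φ T - φ 0 with hL
  have hL0 : L 0 = 0 := by simp [hL]
  have hLm : ∀ T T', L ((1 / 2 : ℂ) • (T + T')) = (1 / 2 : ℂ) • (L T + L T') := by
    intro T T'
    simp only [hL]
    rw [hphi]
    module
  have hLh : ∀ T, L ((1 / 2 : ℂ) • T) = (1 / 2 : ℂ) • L T := by
    intro T
    have := hLm T 0
    rwa [add_zero, hL0, add_zero] at this
  have hLa : ∀ T T', L (T + T') = L T + L T' := by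
    intro T T'
    have h1 := hLm T T'
    rw [hLh] at h1
    have h2 := congrArg (fun S => (2 : ℂ) • S) h1
    simp only [smul_smul] at h2
    norm_num at h2
    exact h2
  obtain ⟨K, hK⟩ := h.bd1 1
  have hK1 : ∀ T, ‖T‖ ≤ 1 → ‖L T‖ ≤ K + ‖φ 0‖ := by
    intro T hT
    calc ‖L T‖ = ‖φ T - φ 0‖ := rfl
      _ ≤ ‖φ T‖ + ‖φ 0‖ := norm_sub_le _ _
      _ ≤ K + ‖φ 0‖ := by linarith [hK T hT]
  let La : (X →L[ℂ] X) →+ (Y →L[ℂ] Y) :=
    { toFun := L, map_zero' := hL0, map_add' := hLa }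
  have hcont : Continuous La := by
    apply AddMonoidHom.continuous_of_isBounded_nhds_zero (s := Metric.closedBall 0 1) La
      (Metric.closedBall_mem_nhds _ one_pos)
    rw [isBounded_iff_forall_norm_le]
    refine ⟨K + ‖φ 0‖, ?_⟩
    rintro _ ⟨T, hT, rfl⟩
    exact hK1 T (by simpa using hT)
  have hsm : ∀ (r : ℝ) T, L ((r : ℂ) • T) = (r : ℂ) • L T := by
    intro r T
    have := map_real_smul La hcont r T
    exact this
  have hLinj : ∀ T, L T = 0 → T = 0 := by
    intro T hT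
    apply hinj
    exact sub_eq_zero.1 hT
  obtain ⟨K', hK'⟩ := h.bd2 (1 + ‖φ 0‖)
  refine ⟨L, ⟨hLa, hsm, ?_, ⟨K + ‖φ 0‖, ?_⟩, ⟨K', ?_⟩⟩, ?_⟩
  · constructor
    · intro T T' hTT
      apply hinj
      have : φ T - φ 0 = φ T' - φ 0 := hTT
      exact sub_left_injective this
    · intro S
      obtain ⟨T, hT⟩ := h.surjφ (S + φ 0)
      exact ⟨T, by simp [hL, hT]⟩
  · intro T
    by_cases hT : T = 0
    · subst hT
      rw [hL0]
      simp
    · have h0 : 0 < ‖T‖ := norm_pos_iff.2 hT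
      have h1 := hK1 (((‖T‖⁻¹ : ℝ) : ℂ) • T) (by
        rw [norm_smul, Complex.norm_real, norm_inv, norm_norm, inv_mul_cancel₀ h0.ne'])
      rw [hsm, norm_smul, Complex.norm_real, norm_inv, norm_norm] at h1
      rw [inv_mul_le_iff₀ h0] at h1
      linarith
  · intro T
    by_cases hT : T = 0
    · subst hT
      rw [hL0]
      simp
    · have hne : L T ≠ 0 := fun h0 => hT (hLinj T h0)
      have h0 : 0 < ‖L T‖ := norm_pos_iff.2 hne
      have h2 : ‖L (((‖L T‖⁻¹ : ℝ) : ℂ) • T)‖ = 1 := by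
        rw [hsm, norm_smul, Complex.norm_real, norm_inv, norm_norm, inv_mul_cancel₀ h0.ne']
      have h1 := hK' (((‖L T‖⁻¹ : ℝ) : ℂ) • T) (by
        have h3 : φ (((‖L T‖⁻¹ : ℝ) : ℂ) • T) = L (((‖L T‖⁻¹ : ℝ) : ℂ) • T) + φ 0 := by
          simp [hL]
        rw [h3]
        calc _ ≤ ‖L (((‖L T‖⁻¹ : ℝ) : ℂ) • T)‖ + ‖φ 0‖ := norm_add_le _ _
          _ = _ := by rw [h2])
      rw [norm_smul, Complex.norm_real, norm_inv, norm_norm] at h1
      rw [inv_mul_le_iff₀ h0] at h1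
      linarith
  · intro T
    simp [hL]
end


-- from sol_2135.lean



section
variable {X : Type*} [NormedAddCommGroup X] [NormedSpace ℂ X] [CompleteSpace X]
end

section defs
variable {X Y : Type*} [NormedAddCommGroup X] [NormedSpace ℂ X]
  [NormedAddCommGroup Y] [NormedSpace ℂ Y]

end defs

section
variable {X Y : Type*} [NormedAddCommGroup X] [NormedSpace ℂ X] [CompleteSpace X]
  [NormedAddCommGroup Y] [NormedSpace ℂ Y] [CompleteSpace Y]

/-- TARGET -/
theorem scalars [Nontrivial X]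
    (L : (X →L[ℂ] X) → (Y →L[ℂ] Y)) (hL : IsRL L) (hr : ∀ T, sr (L T) = sr T) :
    ∃ α : ℂ, ‖α‖ = 1 ∧ ∃ σ : ℂ →+* ℂ, (σ = RingHom.id ℂ ∨ σ = starRingEnd ℂ) ∧
      ∀ c : ℂ, L (c • (1 : X →L[ℂ] X)) = (α * σ c) • (1 : Y →L[ℂ] Y) := by
  have hL0 : L 0 = 0 := by
    have h := hL.add 0 0
    rw [add_zero] at h
    exact left_eq_add.mp h
  have hne1 : (1 : X →L[ℂ] X) ≠ 0 := one_ne_zero
  have hY : Nontrivial Y := by
    rcases subsingleton_or_nontrivial Y with h | h
    · exfalso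
      have : Subsingleton (Y →L[ℂ] Y) := inferInstance
      exact hne1 (hL.bij.1 (Subsingleton.elim _ _))
    · exact h
  have hne2 : (1 : Y →L[ℂ] Y) ≠ 0 := one_ne_zero
  have hex : ∀ c : ℂ, ∃ h : ℂ, L (c • (1 : X →L[ℂ] X)) = h • (1 : Y →L[ℂ] Y) := by
    intro c
    by_contra hcon
    push Not at hcon
    obtain ⟨S, hS0, hS1⟩ := exists_nilp (L (c • (1 : X →L[ℂ] X))) hcon (‖c‖ + 1)
    obtain ⟨T, rfl⟩ := hL.bij.2 S
    rw [← hL.add, hr] at hS1
    rw [add_comm (c • (1 : X →L[ℂ] X)) T] at hS1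
    rw [hr] at hS0
    have h1 := abs_sr_add_smul_sub T c
    rw [hS0, sub_zero] at h1
    have h2 := le_trans (le_abs_self _) h1
    linarith
  choose h hh using hex
  have hinj : ∀ a b : ℂ, a • (1 : Y →L[ℂ] Y) = b • (1 : Y →L[ℂ] Y) → a = b :=
    fun a b hab => smul_left_injective ℂ hne2 hab
  have hnorm : ∀ c, ‖h c‖ = ‖c‖ := by
    intro c
    have h1 := hr (c • (1 : X →L[ℂ] X))
    rw [hh, sr_smul_one, sr_smul_one] at h1
    exact h1
  have hadd : ∀ c d, h (c + d) = h c + h d := by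
    intro c d
    apply hinj
    rw [← hh, add_smul, hL.add, hh, hh, add_smul]
  have hsm : ∀ (r : ℝ) c, h ((r : ℂ) * c) = (r : ℂ) * h c := by
    intro r c
    apply hinj
    rw [← hh, mul_smul, hL.smul, hh, smul_smul]
  set α := h 1 with hα
  set β := h I with hβ
  have hα1 : ‖α‖ = 1 := by rw [hα, hnorm]; simp
  have hβ1 : ‖β‖ = 1 := by rw [hβ, hnorm]; simp
  have hα0 : α ≠ 0 := by
    intro h0
    rw [h0] at hα1
    simp at hα1
  have hsum : ‖α + β‖ ^ 2 = 2 := by
    rw [hα, hβ, ← hadd, hnorm, ← Complex.normSq_eq_norm_sq, Complex.normSq_apply]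
    simp
    norm_num
  set γ := β / α with hγ
  have hγ1 : ‖γ‖ = 1 := by rw [hγ, norm_div, hα1, hβ1]; norm_num
  have hβγ : β = α * γ := by rw [hγ]; field_simp
  have hγ2 : ‖1 + γ‖ ^ 2 = 2 := by
    have e : α + β = α * (1 + γ) := by rw [hβγ]; ring
    rw [e, norm_mul, hα1, one_mul] at hsum
    exact hsum
  have hγ3 : γ.re = 0 ∧ γ.im ^ 2 = 1 := by
    rw [← Complex.normSq_eq_norm_sq, Complex.normSq_apply] at hγ2
    have h1 : ‖γ‖ ^ 2 = 1 := by rw [hγ1]; norm_num
    rw [← Complex.normSq_eq_norm_sq, Complex.normSq_apply] at h1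
    simp only [Complex.add_re, Complex.one_re, Complex.add_im, Complex.one_im, zero_add] at hγ2
    have h2 : γ.re = 0 := by nlinarith
    refine ⟨h2, ?_⟩
    rw [h2] at h1
    nlinarith
  have hform : ∀ c : ℂ, h c = α * ((c.re : ℂ) + (c.im : ℂ) * γ) := by
    intro c
    have e : c = (c.re : ℂ) * 1 + (c.im : ℂ) * I := by
      rw [mul_one]; exact (Complex.re_add_im c).symm
    conv_lhs => rw [e]
    rw [hadd, hsm, hsm, ← hα, ← hβ, hβγ]
    ring
  refine ⟨α, hα1, ?_⟩
  have him : γ.im = 1 ∨ γ.im = -1 := by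
    have : (γ.im - 1) * (γ.im + 1) = 0 := by nlinarith [hγ3.2]
    rcases mul_eq_zero.mp this with h1 | h1
    · left; linarith
    · right; linarith
  rcases him with him | him
  · refine ⟨RingHom.id ℂ, Or.inl rfl, fun c => ?_⟩
    have hγI : γ = I := Complex.ext (by simp [hγ3.1]) (by simp [him])
    rw [hh, hform, hγI, Complex.re_add_im]
    rfl
  · refine ⟨starRingEnd ℂ, Or.inr rfl, fun c => ?_⟩
    have hγI : γ = -I := Complex.ext (by simp [hγ3.1]) (by simp [him])
    have e : (c.re : ℂ) + (c.im : ℂ) * γ = (starRingEnd ℂ) c := by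
      rw [hγI]
      apply Complex.ext <;> simp
    rw [hh, hform, e]
end


-- from sol_2136.lean



section
variable {X : Type*} [NormedAddCommGroup X] [NormedSpace ℂ X] [CompleteSpace X]
end

section defs
variable {X Y : Type*} [NormedAddCommGroup X] [NormedSpace ℂ X]
  [NormedAddCommGroup Y] [NormedSpace ℂ Y]

end defs

section
variable {X Y : Type*} [NormedAddCommGroup X] [NormedSpace ℂ X] [CompleteSpace X]
  [NormedAddCommGroup Y] [NormedSpace ℂ Y] [CompleteSpace Y]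

theorem hx_norm_rot (u z : ℂ) (hu : ‖u‖ = 1) (l : ℝ) :
    ‖z + (l : ℂ) * (starRingEnd ℂ) u‖ = ‖u * z + l‖ := by
  have h1 : u * (starRingEnd ℂ) u = 1 := by
    rw [Complex.mul_conj, Complex.normSq_eq_norm_sq, hu]; simp
  have h2 : u * z + l = u * (z + (l : ℂ) * (starRingEnd ℂ) u) := by
    rw [mul_add, mul_left_comm, h1, mul_one]
  rw [h2, norm_mul, hu, one_mul]

/-- TARGET 1 -/
theorem half_plane (T : X →L[ℂ] X) (u : ℂ) (hu : ‖u‖ = 1) (c : ℝ) :
    (∀ z ∈ spectrum ℂ T, (u * z).re ≤ c) ↔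
    ∀ ε > 0, ∃ l0 : ℝ, ∀ l : ℝ, l0 ≤ l →
      sr (T + ((l : ℂ) * (starRingEnd ℂ) u) • (1 : X →L[ℂ] X)) ≤ l + c + ε := by
  constructor
  · intro h ε hε
    refine ⟨‖T‖ + |c| + ‖T‖^2 / (2 * ε), ?_⟩
    intro l hl
    have hm : 0 ≤ ‖T‖ := norm_nonneg T
    have hq : 0 ≤ ‖T‖^2 / (2 * ε) := by positivity
    have hc1 : -c ≤ |c| := neg_le_abs c
    have hc2 : ‖T‖^2 / (2 * ε) ≤ l + c := by linarith
    have hc3 : ‖T‖^2 ≤ 2 * ε * (l + c) := by
      rw [div_le_iff₀ (by positivity)] at hc2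
      linarith
    apply sr_le (by linarith)
    intro z hz
    rw [spec_add_smul] at hz
    have h1 := h _ hz
    have h2 : ‖z - (l : ℂ) * (starRingEnd ℂ) u‖ ≤ ‖T‖ := (norm_le_sr hz).trans (sr_le_norm T)
    have h3 : ‖z‖ = ‖u * (z - (l : ℂ) * (starRingEnd ℂ) u) + l‖ := by
      rw [← hx_norm_rot u _ hu l]
      congr 1; ring
    set w : ℂ := u * (z - (l : ℂ) * (starRingEnd ℂ) u) with hw
    have h4 : ‖w‖ ≤ ‖T‖ := by rw [hw, norm_mul, hu, one_mul]; exact h2
    have h5 : w.re ^ 2 + w.im ^ 2 ≤ ‖T‖^2 := by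
      have : w.re ^ 2 + w.im ^ 2 = ‖w‖^2 := by
        rw [← Complex.normSq_eq_norm_sq, Complex.normSq_apply]; ring
      rw [this]
      exact pow_le_pow_left₀ (norm_nonneg _) h4 2
    have h6 : -‖T‖ ≤ w.re := by
      have := Complex.abs_re_le_norm w
      have := neg_abs_le w.re
      linarith
    have h7 : ‖w + l‖^2 ≤ (l + c + ε)^2 := by
      have : ‖w + l‖^2 = (l + w.re)^2 + w.im^2 := by
        rw [← Complex.normSq_eq_norm_sq, Complex.normSq_apply]
        simp
        ring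
      rw [this]
      have h8 : 0 ≤ l + w.re := by
        have : 0 ≤ |c| := abs_nonneg c
        linarith
      have h9 : (l + w.re)^2 ≤ (l + c)^2 := pow_le_pow_left₀ h8 (by linarith) 2
      have h10 : w.im^2 ≤ ‖T‖^2 := by nlinarith [sq_nonneg w.re]
      nlinarith
    rw [h3]
    exact le_of_sq_le_sq h7 (by linarith)
  · intro h z hz
    apply le_of_forall_pos_le_add
    intro ε hε
    obtain ⟨l0, hl0⟩ := h ε hε
    have h1 := hl0 l0 le_rfl
    have h2 : z + (l0 : ℂ) * (starRingEnd ℂ) u ∈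
        spectrum ℂ (T + ((l0 : ℂ) * (starRingEnd ℂ) u) • (1 : X →L[ℂ] X)) := by
      rw [spec_add_smul]
      rwa [add_sub_cancel_right]
    have h3 := (norm_le_sr h2).trans h1
    rw [hx_norm_rot u z hu l0] at h3
    have h4 := Complex.re_le_norm (u * z + l0)
    have h5 : (u * z + l0).re = (u * z).re + l0 := by
      rw [Complex.add_re, Complex.ofReal_re]
    rw [h5] at h4
    linarith

theorem hx_sigma_re {σ : ℂ →+* ℂ} (hσ : σ = RingHom.id ℂ ∨ σ = starRingEnd ℂ) (u z : ℂ) :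
    (σ u * z).re = (u * σ z).re := by
  rcases hσ with rfl | rfl
  · rfl
  · simp [Complex.mul_re]

theorem hx_sigma_sigma {σ : ℂ →+* ℂ} (hσ : σ = RingHom.id ℂ ∨ σ = starRingEnd ℂ) (u : ℂ) :
    σ (σ u) = u := by
  rcases hσ with rfl | rfl
  · rfl
  · simp

theorem hx_sigma_real {σ : ℂ →+* ℂ} (hσ : σ = RingHom.id ℂ ∨ σ = starRingEnd ℂ) (l : ℝ) :
    σ (l : ℂ) = l := by
  rcases hσ with rfl | rfl
  · rfl
  · simp

theorem hx_sigma_conj {σ : ℂ →+* ℂ} (hσ : σ = RingHom.id ℂ ∨ σ = starRingEnd ℂ) (u : ℂ) :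
    σ ((starRingEnd ℂ) u) = (starRingEnd ℂ) (σ u) := by
  rcases hσ with rfl | rfl
  · rfl
  · rfl

theorem hx_sigma_norm {σ : ℂ →+* ℂ} (hσ : σ = RingHom.id ℂ ∨ σ = starRingEnd ℂ) (u : ℂ) :
    ‖σ u‖ = ‖u‖ := by
  rcases hσ with rfl | rfl
  · rfl
  · simp

omit [CompleteSpace X] [CompleteSpace Y] in
theorem hx_subsingleton_of
    {L : (X →L[ℂ] X) → (Y →L[ℂ] Y)} (hL : Function.Bijective L) :
    Subsingleton X ↔ Subsingleton Y := by
  constructor
  · intro h
    have h1 : Subsingleton (X →L[ℂ] X) := inferInstance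
    have h2 : Subsingleton (Y →L[ℂ] Y) := hL.2.subsingleton
    constructor
    intro a b
    have h3 : (1 : Y →L[ℂ] Y) = 0 := Subsingleton.elim _ _
    have h4 : a = 0 := by
      have := congrArg (fun f : Y →L[ℂ] Y => f a) h3
      simpa using this
    have h5 : b = 0 := by
      have := congrArg (fun f : Y →L[ℂ] Y => f b) h3
      simpa using this
    rw [h4, h5]
  · intro h
    have h1 : Subsingleton (Y →L[ℂ] Y) := inferInstance
    have h2 : Subsingleton (X →L[ℂ] X) := hL.1.subsingleton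
    constructor
    intro a b
    have h3 : (1 : X →L[ℂ] X) = 0 := Subsingleton.elim _ _
    have h4 : a = 0 := by
      have := congrArg (fun f : X →L[ℂ] X => f a) h3
      simpa using this
    have h5 : b = 0 := by
      have := congrArg (fun f : X →L[ℂ] X => f b) h3
      simpa using this
    rw [h4, h5]

/-- TARGET 2 -/
theorem hull_eq
    (L : (X →L[ℂ] X) → (Y →L[ℂ] Y)) (hL : IsRL L) (hr : ∀ T, sr (L T) = sr T)
    {σ : ℂ →+* ℂ} (hσ : σ = RingHom.id ℂ ∨ σ = starRingEnd ℂ)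
    (h1 : ∀ c : ℂ, L (c • (1 : X →L[ℂ] X)) = σ c • (1 : Y →L[ℂ] Y))
    (T : X →L[ℂ] X) (u : ℂ) (c : ℝ) :
    (∀ z ∈ spectrum ℂ (L T), (u * z).re ≤ c) ↔ (∀ z ∈ spectrum ℂ T, (u * σ z).re ≤ c) := by
  have hss := hx_subsingleton_of (X := X) (Y := Y) hL.bij
  rcases subsingleton_or_nontrivial X with hX | hX
  · have hY : Subsingleton Y := hss.mp hX
    constructor
    · intro _ z hz
      have : Subsingleton (X →L[ℂ] X) := inferInstance
      exact absurd (isUnit_of_subsingleton _) hz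
    · intro _ z hz
      have : Subsingleton (Y →L[ℂ] Y) := inferInstance
      exact absurd (isUnit_of_subsingleton _) hz
  · have hY : Nontrivial Y := by
      rw [← not_subsingleton_iff_nontrivial] at hX ⊢
      exact fun h => hX (hss.mpr h)
    by_cases hu : u = 0
    · subst hu
      simp only [zero_mul, Complex.zero_re]
      obtain ⟨z, hz, _⟩ := exists_mem T
      obtain ⟨w, hw, _⟩ := exists_mem (L T)
      exact ⟨fun h _ _ => h w hw, fun h _ _ => h z hz⟩
    · have hn : 0 < ‖u‖ := norm_pos_iff.mpr hu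
      set v : ℂ := ((‖u‖⁻¹ : ℝ) : ℂ) * u with hv
      have hvn : ‖v‖ = 1 := by
        rw [hv, norm_mul, Complex.norm_real, Real.norm_of_nonneg (by positivity),
          inv_mul_cancel₀ hn.ne']
      have hsc : ∀ z : ℂ, (u * z).re ≤ c ↔ (v * z).re ≤ ‖u‖⁻¹ * c := by
        intro z
        have : (v * z).re = ‖u‖⁻¹ * (u * z).re := by
          rw [hv, mul_assoc, Complex.re_ofReal_mul]
        rw [this]
        constructor
        · intro h
          exact mul_le_mul_of_nonneg_left h (by positivity)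
        · intro h
          exact le_of_mul_le_mul_left h (by positivity)
      have e1 : (∀ z ∈ spectrum ℂ (L T), (u * z).re ≤ c) ↔
          (∀ z ∈ spectrum ℂ (L T), (v * z).re ≤ ‖u‖⁻¹ * c) :=
        forall₂_congr fun z _ => hsc z
      have e2 : (∀ z ∈ spectrum ℂ T, (u * σ z).re ≤ c) ↔
          (∀ z ∈ spectrum ℂ T, (σ v * z).re ≤ ‖u‖⁻¹ * c) :=
        forall₂_congr fun z _ => by rw [hx_sigma_re hσ]; exact hsc (σ z)
      rw [e1, e2, half_plane (L T) v hvn, half_plane T (σ v) (by rw [hx_sigma_norm hσ, hvn])]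
      have e3 : ∀ l : ℝ, sr (L T + ((l : ℂ) * (starRingEnd ℂ) v) • (1 : Y →L[ℂ] Y))
          = sr (T + ((l : ℂ) * (starRingEnd ℂ) (σ v)) • (1 : X →L[ℂ] X)) := by
        intro l
        have e4 : σ ((l : ℂ) * (starRingEnd ℂ) (σ v)) = (l : ℂ) * (starRingEnd ℂ) v := by
          rw [map_mul σ, hx_sigma_real hσ, ← hx_sigma_conj hσ, hx_sigma_sigma hσ]
        rw [← hr, hL.add, h1, e4]
      simp only [e3]
end


-- from sol_2137.lean



section
variable {X : Type*} [NormedAddCommGroup X] [NormedSpace ℂ X] [CompleteSpace X]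
end

section defs
variable {X Y : Type*} [NormedAddCommGroup X] [NormedSpace ℂ X]
  [NormedAddCommGroup Y] [NormedSpace ℂ Y]

end defs

section
variable {X Y : Type*} [NormedAddCommGroup X] [NormedSpace ℂ X] [CompleteSpace X]
  [NormedAddCommGroup Y] [NormedSpace ℂ Y] [CompleteSpace Y]

/-- TARGET 1 -/
theorem spec_pert (P : X →L[ℂ] X) (hP : P * P = P) :
    ∃ C : ℝ, 0 ≤ C ∧ ∀ (N : X →L[ℂ] X) (z : ℂ), z ∈ spectrum ℂ (P + N) →
      ‖z‖ ≤ C * ‖N‖ ∨ ‖z - 1‖ ≤ C * ‖N‖ := by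
  refine ⟨‖(1 - P : X →L[ℂ] X)‖ + ‖P‖, by positivity, ?_⟩
  intro N z hz
  by_contra hcon
  push Not at hcon
  obtain ⟨ha, hb⟩ := hcon
  set C : ℝ := ‖(1 - P : X →L[ℂ] X)‖ + ‖P‖ with hC
  have hCN : 0 ≤ C * ‖N‖ := by positivity
  have hz0 : z ≠ 0 := norm_pos_iff.1 (lt_of_le_of_lt hCN ha)
  have hz1 : z - 1 ≠ 0 := norm_pos_iff.1 (lt_of_le_of_lt hCN hb)
  set R : X →L[ℂ] X := z⁻¹ • (1 - P) + (z - 1)⁻¹ • P with hR
  set A : X →L[ℂ] X := z • (1 : X →L[ℂ] X) - P with hA
  have e1 : A * (1 - P) = z • (1 - P) := by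
    rw [hA, sub_mul, smul_mul_assoc, one_mul, mul_sub, mul_one, hP, sub_self, sub_zero]
  have e2 : A * P = (z - 1) • P := by
    rw [hA, sub_mul, smul_mul_assoc, one_mul, hP, sub_smul, one_smul]
  have e3 : (1 - P) * A = z • (1 - P) := by
    rw [hA, mul_sub, mul_smul_comm, mul_one, sub_mul, one_mul, hP, sub_self, sub_zero]
  have e4 : P * A = (z - 1) • P := by
    rw [hA, mul_sub, mul_smul_comm, mul_one, hP, sub_smul, one_smul]
  have hAR : A * R = 1 := by
    rw [hR, mul_add, mul_smul_comm, mul_smul_comm, e1, e2, smul_smul, smul_smul,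
      inv_mul_cancel₀ hz0, inv_mul_cancel₀ hz1, one_smul, one_smul, sub_add_cancel]
  have hRA : R * A = 1 := by
    rw [hR, add_mul, smul_mul_assoc, smul_mul_assoc, e3, e4, smul_smul, smul_smul,
      inv_mul_cancel₀ hz0, inv_mul_cancel₀ hz1, one_smul, one_smul, sub_add_cancel]
  have hAu : IsUnit A := ⟨⟨A, R, hAR, hRA⟩, rfl⟩
  have hRn : ‖R‖ * ‖N‖ < 1 := by
    set μ := min ‖z‖ ‖z - 1‖ with hμ
    have hμ1 : C * ‖N‖ < μ := lt_min ha hb
    have hμ0 : 0 < μ := lt_of_le_of_lt hCN hμ1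
    have h1 : ‖R‖ ≤ C / μ := by
      have h2 : ‖z⁻¹ • (1 - P : X →L[ℂ] X)‖ ≤ ‖(1 - P : X →L[ℂ] X)‖ / μ := by
        rw [norm_smul, norm_inv, div_eq_inv_mul]
        apply mul_le_mul_of_nonneg_right _ (norm_nonneg _)
        exact inv_anti₀ hμ0 (min_le_left _ _)
      have h3 : ‖(z - 1)⁻¹ • P‖ ≤ ‖P‖ / μ := by
        rw [norm_smul, norm_inv, div_eq_inv_mul]
        apply mul_le_mul_of_nonneg_right _ (norm_nonneg _)
        exact inv_anti₀ hμ0 (min_le_right _ _)
      calc ‖R‖ ≤ ‖z⁻¹ • (1 - P : X →L[ℂ] X)‖ + ‖(z - 1)⁻¹ • P‖ := norm_add_le _ _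
        _ ≤ ‖(1 - P : X →L[ℂ] X)‖ / μ + ‖P‖ / μ := add_le_add h2 h3
        _ = C / μ := by rw [hC]; ring
    calc ‖R‖ * ‖N‖ ≤ C / μ * ‖N‖ := mul_le_mul_of_nonneg_right h1 (norm_nonneg _)
      _ = (C * ‖N‖) / μ := by ring
      _ < 1 := by rw [div_lt_one hμ0]; exact hμ1
  have hu : IsUnit (1 - R * N) :=
    isUnit_one_sub_of_norm_lt_one ((norm_mul_le _ _).trans_lt hRn)
  have hfac : z • (1 : X →L[ℂ] X) - (P + N) = A * (1 - R * N) := by
    rw [mul_sub, mul_one, ← mul_assoc, hAR, one_mul, hA, sub_sub]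
  rw [mem_spec_iff, hfac] at hz
  exact hz (hAu.mul hu)

/-- TARGET 2 -/
theorem spec_idem
    (L : (X →L[ℂ] X) → (Y →L[ℂ] Y)) (hL : IsRL L) (hr : ∀ T, sr (L T) = sr T)
    {σ : ℂ →+* ℂ} (hσ : σ = RingHom.id ℂ ∨ σ = starRingEnd ℂ)
    (h1 : ∀ c : ℂ, L (c • (1 : X →L[ℂ] X)) = σ c • (1 : Y →L[ℂ] Y))
    (P : X →L[ℂ] X) (hP : P * P = P) : spectrum ℂ (L P) ⊆ {0, 1} := by
  obtain ⟨C, hC0, hC⟩ := spec_pert P hP
  have hspP : ∀ z ∈ spectrum ℂ P, z = 0 ∨ z = 1 := by
    intro z hz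
    rcases hC 0 z (by simpa using hz) with h | h
    · left
      rw [norm_zero, mul_zero] at h
      exact norm_le_zero_iff.1 h
    · right
      rw [norm_zero, mul_zero] at h
      exact sub_eq_zero.1 (norm_le_zero_iff.1 h)
  have hσn : ∀ z : ℂ, ‖σ z‖ = ‖z‖ := by
    intro z
    rcases hσ with rfl | rfl
    · rfl
    · exact Complex.norm_conj z
  set E := L P with hE
  have key : ∀ (u : ℂ) (c : ℝ), (u * 0).re ≤ c → (u * 1).re ≤ c →
      ∀ z ∈ spectrum ℂ E, (u * z).re ≤ c := by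
    intro u c h0 h1'
    rw [hE, hull_eq L hL hr hσ h1 P u c]
    intro z hz
    rcases hspP z hz with rfl | rfl
    · rwa [map_zero]
    · rwa [map_one]
  have him : ∀ z ∈ spectrum ℂ E, z.im = 0 := by
    intro z hz
    have a1 := key Complex.I 0 (by simp) (by simp) z hz
    have a2 := key (-Complex.I) 0 (by simp) (by simp) z hz
    simp at a1 a2
    linarith
  have hre1 : ∀ z ∈ spectrum ℂ E, z.re ≤ 1 := by
    intro z hz
    have a1 := key 1 1 (by simp) (by simp) z hz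
    simpa using a1
  have hre0 : ∀ z ∈ spectrum ℂ E, 0 ≤ z.re := by
    intro z hz
    have a1 := key (-1) 0 (by simp) (by simp) z hz
    simpa using a1
  intro s hs
  by_contra hne
  simp only [Set.mem_insert_iff, Set.mem_singleton_iff, not_or] at hne
  have hs_pos : 0 < s.re * (1 - s.re) := by
    have b1 := hre0 s hs
    have b2 := hre1 s hs
    have b3 := him s hs
    have b4 : s.re ≠ 0 := fun h => hne.1 (Complex.ext h b3)
    have b5 : s.re ≠ 1 := fun h => hne.2 (Complex.ext h b3)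
    have b6 : 0 < s.re := lt_of_le_of_ne b1 (Ne.symm b4)
    have b7 : s.re < 1 := lt_of_le_of_ne b2 b5
    exact mul_pos b6 (by linarith)
  obtain ⟨s0, hs0, hmax⟩ := (spectrum.isCompact (𝕜 := ℂ) E).exists_isMaxOn ⟨s, hs⟩
    (f := fun z : ℂ => z.re * (1 - z.re)) (by fun_prop)
  set m : ℝ := s0.re * (1 - s0.re) with hm
  have hm0 : 0 < m := lt_of_lt_of_le hs_pos (hmax hs)
  have hs0re0 := hre0 s0 hs0
  have hs0re1 := hre1 s0 hs0
  have hs0im := him s0 hs0
  have hs0pos : 0 < s0.re := by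
    rcases lt_or_eq_of_le hs0re0 with h | h
    · exact h
    · rw [hm, ← h] at hm0; simp at hm0
  have hm1 : m ≤ 1 := by
    rw [hm]; nlinarith
  have hmaxle : ∀ z ∈ spectrum ℂ E, z.re * (1 - z.re) ≤ m := fun z hz => hmax hz
  obtain ⟨T, hT⟩ := hL.bij.2 (Complex.I • (E * (1 - E)))
  set C' : ℝ := C * ‖T‖ + 1 with hC'
  have hC'0 : 0 < C' := by positivity
  have main : ∀ e : ℝ, 0 < e → e ≤ 1 → m * s0.re ≤ C' * e := by
    intro e he0 he1
    have hLe : L (P + (e : ℂ) • T) = E + (e : ℂ) • (Complex.I • (E * (1 - E))) := by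
      rw [hL.add, hL.smul, hT]
    set p : Polynomial ℂ := Polynomial.X + Polynomial.C ((e : ℂ) * Complex.I) *
      (Polynomial.X * (1 - Polynomial.X)) with hp
    have hpE : Polynomial.aeval E p = E + (e : ℂ) • (Complex.I • (E * (1 - E))) := by
      rw [hp]
      simp only [map_add, map_mul, map_sub, map_one, Polynomial.aeval_X, Polynomial.aeval_C,
        Algebra.algebraMap_eq_smul_one, smul_mul_assoc, one_mul, smul_smul]
    have hspec : spectrum ℂ (L (P + (e : ℂ) • T)) = (fun k => Polynomial.eval k p) '' spectrum ℂ E := by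
      rw [hLe, ← hpE]
      exact spectrum.map_polynomial_aeval_of_nonempty E p ⟨s, hs⟩
    have hev : ∀ z ∈ spectrum ℂ E, (Polynomial.eval z p).re = z.re ∧
        (Polynomial.eval z p).im = e * (z.re * (1 - z.re)) := by
      intro z hz
      have hz' : z = (z.re : ℂ) := Complex.ext rfl (by simpa using him z hz)
      rw [hp]
      simp only [Polynomial.eval_add, Polynomial.eval_X, Polynomial.eval_mul, Polynomial.eval_C,
        Polynomial.eval_sub, Polynomial.eval_one]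
      have hzi := him z hz
      constructor
      · simp [hzi]
      · simp [hzi]
    have hull := fun (u : ℂ) (c : ℝ) => hull_eq L hL hr hσ h1 (P + (e : ℂ) • T) u c
    have hsm : ‖(e : ℂ) • T‖ = e * ‖T‖ := by
      rw [norm_smul, Complex.norm_real, Real.norm_eq_abs, abs_of_pos he0]
    have hnear : ∀ z ∈ spectrum ℂ (P + (e : ℂ) • T), ‖σ z‖ ≤ C' * e ∨ ‖σ z - 1‖ ≤ C' * e := by
      intro z hz
      have hb : C * (e * ‖T‖) ≤ C' * e := by
        rw [hC']; nlinarith
      rcases hC _ z hz with h | h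
      · left
        rw [hσn]
        rw [hsm] at h
        exact h.trans hb
      · right
        have : σ z - 1 = σ (z - 1) := by rw [map_sub, map_one]
        rw [this, hσn]
        rw [hsm] at h
        exact h.trans hb
    -- the three bounds
    have ha : ∀ z ∈ spectrum ℂ (P + (e : ℂ) • T), (σ z).re ≤ 1 := by
      have := (hull 1 1).1 (by
        intro z hz
        rw [hspec] at hz
        obtain ⟨k, hk, rfl⟩ := hz
        rw [one_mul]
        simp only
        rw [(hev k hk).1]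
        exact hre1 k hk)
      intro z hz
      have h := this z hz
      rwa [one_mul] at h
    have hb : ∀ z ∈ spectrum ℂ (P + (e : ℂ) • T), e * (σ z).re + (σ z).im ≤ e := by
      have := (hull ((e : ℂ) - Complex.I) e).1 (by
        intro z hz
        rw [hspec] at hz
        obtain ⟨k, hk, rfl⟩ := hz
        have g1 := (hev k hk).1
        have g2 := (hev k hk).2
        have g3 := hre0 k hk
        have g4 := hre1 k hk
        simp only
        rw [Complex.mul_re]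
        simp only [Complex.sub_re, Complex.ofReal_re, Complex.I_re, Complex.sub_im,
          Complex.ofReal_im, Complex.I_im]
        rw [g1, g2]
        have : k.re + k.re * (1 - k.re) ≤ 1 := by nlinarith [sq_nonneg (1 - k.re)]
        nlinarith)
      intro z hz
      have h := this z hz
      rw [Complex.mul_re] at h
      simp only [Complex.sub_re, Complex.ofReal_re, Complex.I_re, Complex.sub_im,
          Complex.ofReal_im, Complex.I_im] at h
      linarith
    have hc : ∀ z ∈ spectrum ℂ (P + (e : ℂ) • T), (σ z).im ≤ e * m := by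
      have := (hull (-Complex.I) (e * m)).1 (by
        intro z hz
        rw [hspec] at hz
        obtain ⟨k, hk, rfl⟩ := hz
        have g2 := (hev k hk).2
        have g5 := hmaxle k hk
        simp only
        rw [Complex.mul_re]
        simp only [Complex.neg_re, Complex.I_re, Complex.neg_im, Complex.I_im]
        rw [g2]
        nlinarith)
      intro z hz
      have h := this z hz
      rw [Complex.mul_re] at h
      simp only [Complex.neg_re, Complex.I_re, Complex.neg_im, Complex.I_im] at h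
      linarith
    have hfin := (hull (((e * m : ℝ) : ℂ) - Complex.I) (e * m + C' * e ^ 2)).2 (by
      intro z hz
      rw [Complex.mul_re]
      simp only [Complex.sub_re, Complex.ofReal_re, Complex.I_re, Complex.sub_im,
          Complex.ofReal_im, Complex.I_im]
      have q1 := ha z hz
      have q2 := hb z hz
      have q3 := hc z hz
      rcases hnear z hz with h | h
      · have r1 : (σ z).re ≤ C' * e := (Complex.re_le_norm _).trans h
        have hem : 0 ≤ e * m := by positivity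
        have r2 : e * m * (σ z).re ≤ e * m * (C' * e) := mul_le_mul_of_nonneg_left r1 hem
        have r3 : e * m * (C' * e) ≤ C' * e ^ 2 := by
          have : m * (C' * e ^ 2) ≤ 1 * (C' * e ^ 2) :=
            mul_le_mul_of_nonneg_right hm1 (by positivity)
          nlinarith
        nlinarith
      · have r1 : 1 - (σ z).re ≤ C' * e := by
          have : |(σ z - 1).re| ≤ ‖σ z - 1‖ := Complex.abs_re_le_norm _
          have h2 := (abs_le.1 (this.trans h)).1
          simp only [Complex.sub_re, Complex.one_re] at h2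
          linarith
        have r2 : (σ z).im ≤ C' * e ^ 2 := by nlinarith
        have hem : 0 ≤ e * m := by positivity
        nlinarith)
    have hz0 : Polynomial.eval s0 p ∈ spectrum ℂ (L (P + (e : ℂ) • T)) := by
      rw [hspec]
      exact ⟨s0, hs0, rfl⟩
    have h := hfin _ hz0
    rw [Complex.mul_re] at h
    simp only [Complex.sub_re, Complex.ofReal_re, Complex.I_re, Complex.sub_im,
          Complex.ofReal_im, Complex.I_im] at h
    rw [(hev s0 hs0).1, (hev s0 hs0).2, ← hm] at h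
    have h2 : e * (m * s0.re) ≤ e * (C' * e) := by nlinarith
    exact le_of_mul_le_mul_left h2 he0
  have hms : 0 < m * s0.re := mul_pos hm0 hs0pos
  have h3 := main (min 1 (m * s0.re / (2 * C'))) (lt_min one_pos (by positivity)) (min_le_left _ _)
  have h4 : C' * min 1 (m * s0.re / (2 * C')) ≤ C' * (m * s0.re / (2 * C')) :=
    mul_le_mul_of_nonneg_left (min_le_right _ _) hC'0.le
  have h5 : C' * (m * s0.re / (2 * C')) = m * s0.re / 2 := by
    field_simp
  linarith
end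


-- from sol_2138.lean



section
variable {X : Type*} [NormedAddCommGroup X] [NormedSpace ℂ X] [CompleteSpace X]
end

section defs
variable {X Y : Type*} [NormedAddCommGroup X] [NormedSpace ℂ X]
  [NormedAddCommGroup Y] [NormedSpace ℂ Y]

end defs

section
variable {X Y : Type*} [NormedAddCommGroup X] [NormedSpace ℂ X] [CompleteSpace X]
  [NormedAddCommGroup Y] [NormedSpace ℂ Y] [CompleteSpace Y]

/-- TARGET 1 -/
theorem idem_pres
    (L : (X →L[ℂ] X) → (Y →L[ℂ] Y)) (hL : IsRL L) (hr : ∀ T, sr (L T) = sr T)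
    {σ : ℂ →+* ℂ} (hσ : σ = RingHom.id ℂ ∨ σ = starRingEnd ℂ)
    (h1 : ∀ c : ℂ, L (c • (1 : X →L[ℂ] X)) = σ c • (1 : Y →L[ℂ] Y))
    (P : X →L[ℂ] X) (hP : P * P = P) : L P * L P = L P := by
  apply idem_of_im (L P) (spec_idem L hL hr hσ h1 P hP)
  intro g y
  obtain ⟨K, hK⟩ := hL.bound'
  obtain ⟨C, hC, hCs⟩ := spec_pert P hP
  refine ⟨C * (K * ‖g.smulRight y‖), ?_⟩
  intro t z hz
  obtain ⟨N, hN⟩ := hL.bij.surjective (t • g.smulRight y)
  rw [← hN, ← hL.add] at hz
  have hw : ∀ w ∈ spectrum ℂ (P + N), |w.im| ≤ C * ‖N‖ := by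
    intro w hw
    rcases hCs N w hw with h | h
    · exact (Complex.abs_im_le_norm w).trans h
    · have h2 := Complex.abs_im_le_norm (w - 1)
      have h3 : (w - 1).im = w.im := by simp
      rw [h3] at h2
      exact h2.trans h
  have hs : ∀ w : ℂ, |(σ w).im| = |w.im| := by
    intro w
    rcases hσ with h | h
    · rw [h]; rfl
    · rw [h]
      change |(starRingEnd ℂ w).im| = _
      rw [Complex.conj_im, abs_neg]
  have hA := (hull_eq L hL hr hσ h1 (P + N) Complex.I (C * ‖N‖)).2 (by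
    intro w hw1
    have h2 := hw w hw1
    rw [← hs w] at h2
    have h3 : (Complex.I * σ w).re = -(σ w).im := by simp
    rw [h3]
    exact (neg_le_abs _).trans h2) z hz
  have hB := (hull_eq L hL hr hσ h1 (P + N) (-Complex.I) (C * ‖N‖)).2 (by
    intro w hw1
    have h2 := hw w hw1
    rw [← hs w] at h2
    have h3 : (-Complex.I * σ w).re = (σ w).im := by simp
    rw [h3]
    exact (le_abs_self _).trans h2) z hz
  have hA' : -z.im ≤ C * ‖N‖ := by
    have h3 : (Complex.I * z).re = -z.im := by simp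
    rwa [h3] at hA
  have hB' : z.im ≤ C * ‖N‖ := by
    have h3 : (-Complex.I * z).re = z.im := by simp
    rwa [h3] at hB
  have h4 : |z.im| ≤ C * ‖N‖ := abs_le.2 ⟨by linarith, hB'⟩
  have h5 : ‖N‖ ≤ K * (‖t‖ * ‖g.smulRight y‖) := by
    have := hK N
    rw [hN, norm_smul] at this
    exact this
  calc |z.im| ≤ C * ‖N‖ := h4
    _ ≤ C * (K * (‖t‖ * ‖g.smulRight y‖)) := mul_le_mul_of_nonneg_left h5 hC
    _ = C * (K * ‖g.smulRight y‖) * ‖t‖ := by ring

/-- separation from a closed subspace -/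
theorem exists_sep_aux {Y : Type*} [NormedAddCommGroup Y] [NormedSpace ℂ Y]
    (W : Submodule ℂ Y) (hW : IsClosed (W : Set Y)) {y : Y} (hy : y ∉ W) :
    ∃ k : Y →L[ℂ] ℂ, k y = 1 ∧ ∀ w ∈ W, k w = 0 := by
  haveI : IsClosed (W : Set Y) := hW
  have hne : (W.mkQ y) ≠ 0 := by
    intro h
    exact hy ((Submodule.Quotient.mk_eq_zero W).1 h)
  obtain ⟨k, _, hk⟩ := exists_dual_vector ℂ (W.mkQ y) (norm_ne_zero_iff.2 hne)
  have hn : (‖W.mkQ y‖ : ℂ) ≠ 0 := by
    exact_mod_cast (norm_ne_zero_iff.2 hne)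
  refine ⟨(‖W.mkQ y‖ : ℂ)⁻¹ • (k.comp W.mkQL), ?_, ?_⟩
  · change (‖W.mkQ y‖ : ℂ)⁻¹ • k (W.mkQ y) = 1
    rw [hk]
    simp only [smul_eq_mul]
    exact inv_mul_cancel₀ hn
  · intro w hw
    change (‖W.mkQ y‖ : ℂ)⁻¹ • k (W.mkQ w) = 0
    have : W.mkQ w = 0 := (Submodule.Quotient.mk_eq_zero W).2 hw
    rw [this, map_zero, smul_zero]

/-- TARGET 2 -/
theorem rank_one_pres (L : (X →L[ℂ] X) → (Y →L[ℂ] Y))
    (hadd : ∀ S T, L (S + T) = L S + L T) (hbij : Function.Bijective L)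
    (hid : ∀ P, P * P = P → L P * L P = L P) (hid' : ∀ P, L P * L P = L P → P * P = P)
    (f : X →L[ℂ] ℂ) (x : X) (hfx : f x = 1) :
    ∃ (g : Y →L[ℂ] ℂ) (y : Y), g y = 1 ∧ L (f.smulRight x) = g.smulRight y := by
  set P : X →L[ℂ] X := f.smulRight x with hPdef
  have hP : P * P = P := by
    ext v
    simp [hPdef, hfx]
  have hL0 : L 0 = 0 := by
    have := hadd 0 0
    rw [add_zero] at this
    exact left_eq_add.1 this
  have hP0 : P ≠ 0 := by
    intro h
    have hx : P x = 0 := by rw [h]; rfl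
    have h2 : x = 0 := by
      simpa [hPdef, hfx] using hx
    rw [h2, map_zero] at hfx
    exact zero_ne_one hfx
  set E := L P with hEdef
  have hE : E * E = E := hid P hP
  have hEE : ∀ v, E (E v) = E v := fun v => by
    have := congrArg (fun T : Y →L[ℂ] Y => T v) hE
    exact this
  have hE0 : E ≠ 0 := by
    intro h
    apply hP0
    apply hbij.injective
    rw [hL0]
    exact h
  obtain ⟨v0, hv0⟩ : ∃ v, E v ≠ 0 := by
    by_contra hcon
    push Not at hcon
    apply hE0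
    ext v
    simpa using hcon v
  set y1 := E v0 with hy1
  have hEy1 : E y1 = y1 := hEE v0
  by_cases hall : ∀ v, ∃ c : ℂ, E v = c • y1
  · -- rank one
    obtain ⟨k, hk⟩ : ∃ k : Y →L[ℂ] ℂ, k y1 = 1 := by
      obtain ⟨k, _, hk⟩ := exists_dual_vector ℂ y1 (norm_ne_zero_iff.2 hv0)
      have hn : (‖y1‖ : ℂ) ≠ 0 := by
        exact_mod_cast (norm_ne_zero_iff.2 hv0)
      refine ⟨(‖y1‖ : ℂ)⁻¹ • k, ?_⟩
      change (‖y1‖ : ℂ)⁻¹ • k y1 = 1
      rw [hk]
      simp only [smul_eq_mul]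
      exact inv_mul_cancel₀ hn
    refine ⟨k.comp E, y1, ?_, ?_⟩
    · change k (E y1) = 1
      rw [hEy1, hk]
    · ext v
      obtain ⟨c, hc⟩ := hall v
      change E v = k (E v) • y1
      rw [hc, map_smul, hk]
      simp
  · exfalso
    push Not at hall
    obtain ⟨v2, hv2⟩ := hall
    set y2 := E v2 with hy2
    have hEy2 : E y2 = y2 := hEE v2
    -- functional with k y1 = 1, k y2 = 0
    obtain ⟨k, hk1, hk2⟩ : ∃ k : Y →L[ℂ] ℂ, k y1 = 1 ∧ k y2 = 0 := by
      -- y1 not in span y2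
      have hnot : y1 ∉ (Submodule.span ℂ {y2} : Submodule ℂ Y) := by
        intro h
        rw [Submodule.mem_span_singleton] at h
        obtain ⟨a, ha⟩ := h
        have ha0 : a ≠ 0 := by
          rintro rfl
          rw [zero_smul] at ha
          exact hv0 ha.symm
        apply hv2 a⁻¹
        rw [← ha, smul_smul, inv_mul_cancel₀ ha0, one_smul]
      have hcl : IsClosed ((Submodule.span ℂ {y2} : Submodule ℂ Y) : Set Y) :=
        Submodule.closed_of_finiteDimensional _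
      obtain ⟨k, hk1, hk2⟩ := exists_sep_aux (Submodule.span ℂ {y2}) hcl hnot
      exact ⟨k, hk1, hk2 y2 (Submodule.mem_span_singleton_self y2)⟩
    set E1 : Y →L[ℂ] Y := (k.comp E).smulRight y1 with hE1def
    have hE1v : ∀ v, E1 v = k (E v) • y1 := fun v => rfl
    have hE1sq : E1 * E1 = E1 := by
      ext v
      change E1 (E1 v) = E1 v
      rw [hE1v, hE1v, map_smul, hEy1, map_smul, hk1]
      simp
    have hEE1 : E * E1 = E1 := by
      ext v
      change E (E1 v) = E1 v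
      rw [hE1v, map_smul, hEy1]
    have hE1E : E1 * E = E1 := by
      ext v
      change E1 (E v) = E1 v
      rw [hE1v, hE1v, hEE]
    set E2 : Y →L[ℂ] Y := E - E1 with hE2def
    have hE2sq : E2 * E2 = E2 := by
      rw [hE2def, sub_mul, mul_sub, mul_sub, hE, hEE1, hE1E, hE1sq]
      abel
    have hE10 : E1 ≠ 0 := by
      intro h
      have : E1 y1 = 0 := by rw [h]; rfl
      rw [hE1v, hEy1, hk1, one_smul] at this
      exact hv0 this
    have hE20 : E2 ≠ 0 := by
      intro h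
      have h3 : E2 y2 = 0 := by rw [h]; rfl
      have h4 : E2 y2 = y2 := by
        change E y2 - E1 y2 = y2
        rw [hE1v, hEy2, hk2, zero_smul, sub_zero]
      rw [h4] at h3
      apply hv2 0
      rw [zero_smul]
      exact h3
    obtain ⟨P1, hP1⟩ := hbij.surjective E1
    obtain ⟨P2, hP2⟩ := hbij.surjective E2
    have hi1 : P1 * P1 = P1 := hid' P1 (by rw [hP1]; exact hE1sq)
    have hi2 : P2 * P2 = P2 := hid' P2 (by rw [hP2]; exact hE2sq)
    have h10 : P1 ≠ 0 := by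
      rintro rfl
      rw [hL0] at hP1
      exact hE10 hP1.symm
    have h20 : P2 ≠ 0 := by
      rintro rfl
      rw [hL0] at hP2
      exact hE20 hP2.symm
    have hsum : P1 + P2 = P := by
      apply hbij.injective
      rw [hadd, hP1, hP2, hE2def]
      abel
    have hcross : P1 * P2 + P2 * P1 = 0 := by
      have h := hP
      rw [← hsum, add_mul, mul_add, mul_add, hi1, hi2] at h
      have h3 : P1 * P2 + P2 * P1 = (P1 + P1 * P2 + (P2 * P1 + P2)) - (P1 + P2) := by abel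
      rw [h3, h, sub_self]
    -- multiply by P1
    have hl : P1 * P2 + P1 * P2 * P1 = 0 := by
      have := congrArg (fun T => P1 * T) hcross
      simp only [mul_add, mul_zero, ← mul_assoc, hi1] at this
      exact this
    have hr' : P1 * P2 * P1 + P2 * P1 = 0 := by
      have := congrArg (fun T => T * P1) hcross
      simp only [add_mul, zero_mul, mul_assoc, hi1] at this
      simp only [mul_assoc]
      exact this
    have heq : P1 * P2 = P2 * P1 := by
      have h3 : P1 * P2 = -(P1 * P2 * P1) := eq_neg_of_add_eq_zero_left hl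
      have h4 : P2 * P1 = -(P1 * P2 * P1) := eq_neg_of_add_eq_zero_right hr'
      rw [h3, h4]
    have h12 : P1 * P2 = 0 := by
      rw [← heq] at hcross
      have h3 : (2 : ℂ) • (P1 * P2) = 0 := by
        rw [two_smul]; exact hcross
      exact (smul_eq_zero.1 h3).resolve_left two_ne_zero
    have h21 : P2 * P1 = 0 := by rw [← heq]; exact h12
    have hPP1 : P * P1 = P1 := by
      rw [← hsum, add_mul, hi1, h21, add_zero]
    have hP1P : P1 * P = P1 := by
      rw [← hsum, mul_add, hi1, h12, add_zero]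
    -- P1 = c P
    have hc : P1 = (f (P1 x)) • P := by
      have h3 : P1 = P * (P1 * P) := by rw [hP1P, hPP1]
      ext v
      have h4 : P1 v = P (P1 (P v)) := by
        conv_lhs => rw [h3]
        rfl
      rw [h4]
      simp only [hPdef, ContinuousLinearMap.smulRight_apply, map_smul,
        ContinuousLinearMap.smul_apply, smul_smul, smul_eq_mul]
      congr 1
      ring
    set c := f (P1 x) with hcdef
    have hcc : c = 1 := by
      have hc0 : c ≠ 0 := by
        intro h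
        rw [h, zero_smul] at hc
        exact h10 hc
      have h3 : (c * c) • P = c • P := by
        have := hi1
        rw [hc, smul_mul_smul_comm, hP] at this
        exact this
      have h4 : (c * c - c) • P = 0 := by rw [sub_smul, h3, sub_self]
      have h5 := (smul_eq_zero.1 h4).resolve_right hP0
      have h6 : c * (c - 1) = 0 := by rw [mul_sub, mul_one]; exact h5
      have h7 := (mul_eq_zero.1 h6).resolve_left hc0
      exact sub_eq_zero.1 h7
    have hP1eq : P1 = P := by rw [hc, hcc, one_smul]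
    apply h20
    have h8 : P1 + P2 = P1 + 0 := by rw [add_zero, hsum, hP1eq]
    exact add_left_cancel h8
end


-- from sol_2139.lean



section
variable {X : Type*} [NormedAddCommGroup X] [NormedSpace ℂ X] [CompleteSpace X]
end

section
variable {X : Type*} [NormedAddCommGroup X] [NormedSpace ℂ X] [CompleteSpace X]
end

section defs
variable {X Y : Type*} [NormedAddCommGroup X] [NormedSpace ℂ X]
  [NormedAddCommGroup Y] [NormedSpace ℂ Y]

end defs

theorem norm_asymp (w a : ℂ) (hw : w ≠ 0) {l : ℝ} (hl0 : 0 < l) (hl : 2 * ‖a‖ ≤ l * ‖w‖) :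
    |‖(l : ℂ) * w + a‖ - l * ‖w‖ - ((starRingEnd ℂ) w * a).re / ‖w‖| ≤ ‖a‖ ^ 2 / (l * ‖w‖) := by
  have hN : 0 < ‖w‖ := norm_pos_iff.2 hw
  set N := ‖w‖ with hNdef
  set ρ := ((starRingEnd ℂ) w * a).re / N with hρdef
  have hρN : ((starRingEnd ℂ) w * a).re = N * ρ := by
    rw [hρdef]
    field_simp
  have hρ : |ρ| ≤ ‖a‖ := by
    rw [hρdef, abs_div, abs_of_pos hN, div_le_iff₀ hN]
    refine (Complex.abs_re_le_norm _).trans ?_
    rw [norm_mul, RCLike.norm_conj, mul_comm]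
  have hsq : ‖(l : ℂ) * w + a‖ ^ 2 = (l * N) ^ 2 + 2 * (l * N) * ρ + ‖a‖ ^ 2 := by
    have h1 : ‖(l : ℂ) * w + a‖ ^ 2 = l ^ 2 * N ^ 2 + 2 * l * ((starRingEnd ℂ) w * a).re + ‖a‖ ^ 2 := by
      rw [hNdef, Complex.sq_norm, Complex.sq_norm, Complex.sq_norm]
      simp only [Complex.normSq_apply, Complex.add_re, Complex.add_im, Complex.mul_re,
        Complex.mul_im, Complex.ofReal_re, Complex.ofReal_im, Complex.conj_re, Complex.conj_im]
      ring
    rw [h1, hρN]
    ring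
  have ha := norm_nonneg a
  have hz := norm_nonneg ((l : ℂ) * w + a)
  have hlN : 0 < l * N := mul_pos hl0 hN
  obtain ⟨hρ1, hρ2⟩ := abs_le.1 hρ
  have hρsq : ρ ^ 2 ≤ ‖a‖ ^ 2 := by nlinarith
  rw [abs_le]
  constructor
  · have h2 : l * N + ρ ≤ ‖(l : ℂ) * w + a‖ := by
      by_contra hc
      push Not at hc
      nlinarith
    have h3 : 0 ≤ ‖a‖ ^ 2 / (l * N) := by positivity
    linarith
  · set q := ‖a‖ ^ 2 / (l * N) with hq
    have hq0 : 0 ≤ q := by positivity
    have hqm : q * (l * N) = ‖a‖ ^ 2 := by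
      rw [hq]
      field_simp
    by_contra hc
    push Not at hc
    have h4 : l * N + ρ + q < ‖(l : ℂ) * w + a‖ := by linarith
    have h5 : 0 ≤ l * N + ρ + q := by linarith
    have h6 : (l * N + ρ + q) ^ 2 < ‖(l : ℂ) * w + a‖ ^ 2 := by
      apply pow_lt_pow_left₀ h4 h5
      norm_num
    rw [hsq] at h6
    have h7 : 0 ≤ q * (l * N + 2 * ρ) := by
      apply mul_nonneg hq0
      linarith
    nlinarith [sq_nonneg q, sq_nonneg ρ]

theorem norm_tendsto (w a : ℂ) (hw : w ≠ 0) :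
    Tendsto (fun l : ℝ => ‖(l : ℂ) * w + a‖ - l * ‖w‖) atTop
      (𝓝 (((starRingEnd ℂ) w * a).re / ‖w‖)) := by
  have hN : 0 < ‖w‖ := norm_pos_iff.2 hw
  rw [tendsto_iff_dist_tendsto_zero]
  have h0 : Tendsto (fun l : ℝ => ‖a‖ ^ 2 / (l * ‖w‖)) atTop (𝓝 0) := by
    apply Tendsto.const_div_atTop
    exact tendsto_id.atTop_mul_const hN
  refine squeeze_zero' (Eventually.of_forall fun l => dist_nonneg) ?_ h0
  filter_upwards [eventually_gt_atTop 0, eventually_ge_atTop (2 * ‖a‖ / ‖w‖)] with l hl0 hl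
  rw [Real.dist_eq]
  refine norm_asymp w a hw hl0 ?_
  rwa [div_le_iff₀ hN] at hl

theorem sr_asymp_bound {X : Type*} [NormedAddCommGroup X] [NormedSpace ℂ X] [CompleteSpace X]
    (T : X →L[ℂ] X) (f : X →L[ℂ] ℂ) (x : X) (hfx : f x = 1) {ε : ℝ} (hε : |ε| ≤ 1) {m p l : ℝ}
    (hm : 1 ≤ m) (hp : 1 ≤ p) (hT : ‖T‖ ≤ m) (hfp : ‖f‖ * ‖x‖ ≤ p) (hl : 100 * p * m ≤ l) :
    |sr (T + (l : ℂ) • f.smulRight x + (((ε * l : ℝ) : ℂ) * I) • (1 : X →L[ℂ] X)) -
      ‖(l : ℂ) * (1 + ε * I) + f (T x)‖| ≤ 100 * p ^ 2 * m ^ 2 / l := by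
  obtain ⟨⟨z, hz, hz1⟩, hall⟩ := busemann T f x hfx hm hp hT hfp hl
  have hpm : 1 ≤ p * m := by nlinarith
  have hl0 : 0 < l := by nlinarith
  set c : ℂ := ((ε * l : ℝ) : ℂ) * I with hc
  set a := f (T x) with ha
  have hcenter : (l : ℂ) * (1 + ε * I) + a = (l + a) + c := by
    rw [hc]
    push_cast
    ring
  have ha1 : ‖a‖ ≤ p * m := by
    calc ‖a‖ ≤ ‖f‖ * ‖T x‖ := f.le_opNorm _
      _ ≤ ‖f‖ * (‖T‖ * ‖x‖) := by gcongr; exact T.le_opNorm x
      _ = (‖f‖ * ‖x‖) * ‖T‖ := by ring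
      _ ≤ p * m := by gcongr
  have hcn : ‖c‖ = |ε| * l := by
    rw [hc, norm_mul, Complex.norm_I, mul_one, Complex.norm_real, Real.norm_eq_abs, abs_mul,
      abs_of_pos hl0]
  have hbig : (|ε| + 1 / 3) * l ≤ ‖(l : ℂ) * (1 + ε * I)‖ := by
    rw [norm_mul, Complex.norm_real, Real.norm_eq_abs, abs_of_pos hl0, mul_comm]
    apply mul_le_mul_of_nonneg_left _ hl0.le
    have h1 : ‖(1 + ε * I : ℂ)‖ ^ 2 = 1 + ε ^ 2 := by
      rw [Complex.sq_norm, Complex.normSq_apply]
      simp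
      ring
    have h2 := norm_nonneg (1 + ε * I : ℂ)
    have h3 : |ε| ^ 2 = ε ^ 2 := sq_abs ε
    have h4 := abs_nonneg ε
    by_contra hcon
    push Not at hcon
    nlinarith
  rw [hcenter, abs_le]
  constructor
  · have h1 : z + c ∈ spectrum ℂ (T + (l : ℂ) • f.smulRight x + c • (1 : X →L[ℂ] X)) := by
      rw [spec_add_smul]
      simpa using hz
    have h2 := norm_le_sr h1
    have h3 : ‖(l : ℂ) + a + c‖ ≤ ‖z + c‖ + ‖z - (l + a)‖ := by
      have h4 : (l : ℂ) + a + c = (z + c) - (z - (l + a)) := by ring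
      rw [h4]
      exact norm_sub_le _ _
    linarith
  · have hK : 0 ≤ 100 * p ^ 2 * m ^ 2 / l := by positivity
    have h5 : sr (T + (l : ℂ) • f.smulRight x + c • (1 : X →L[ℂ] X)) ≤
        ‖(l : ℂ) + a + c‖ + 100 * p ^ 2 * m ^ 2 / l := by
      apply sr_le (by positivity)
      intro u hu
      rw [spec_add_smul] at hu
      rcases hall _ hu with h6 | h6
      · have h7 : u = (u - c - (l + a)) + ((l : ℂ) + a + c) := by ring
        calc ‖u‖ = ‖(u - c - (l + a)) + ((l : ℂ) + a + c)‖ := by rw [← h7]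
          _ ≤ ‖u - c - (l + a)‖ + ‖(l : ℂ) + a + c‖ := norm_add_le _ _
          _ ≤ _ := by linarith
      · have h7 : ‖u‖ ≤ ‖u - c‖ + ‖c‖ := by
          have : u = (u - c) + c := by ring
          calc ‖u‖ = ‖(u - c) + c‖ := by rw [← this]
            _ ≤ _ := norm_add_le _ _
        have h8 : ‖(l : ℂ) * (1 + ε * I)‖ ≤ ‖(l : ℂ) + a + c‖ + ‖a‖ := by
          have : (l : ℂ) * (1 + ε * I) = ((l : ℂ) + a + c) - a := by
            rw [← hcenter]
            ring
          rw [this]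
          exact norm_sub_le _ _
        rw [hcn] at h7
        nlinarith
    linarith

theorem sr_tendsto {X : Type*} [NormedAddCommGroup X] [NormedSpace ℂ X] [CompleteSpace X]
    (T : X →L[ℂ] X) (f : X →L[ℂ] ℂ) (x : X) (hfx : f x = 1) {ε : ℝ} (hε : |ε| ≤ 1) :
    Tendsto (fun l : ℝ =>
      sr (T + (l : ℂ) • f.smulRight x + (((ε * l : ℝ) : ℂ) * I) • (1 : X →L[ℂ] X)) -
        l * ‖(1 + ε * I : ℂ)‖) atTop
      (𝓝 (((starRingEnd ℂ) (1 + ε * I) * f (T x)).re / ‖(1 + ε * I : ℂ)‖)) := by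
  have hw : (1 + ε * I : ℂ) ≠ 0 := by
    intro h
    have := congrArg Complex.re h
    simp at this
  set m := max 1 ‖T‖ with hm
  set p := max 1 (‖f‖ * ‖x‖) with hp
  have h1 := norm_tendsto (1 + ε * I) (f (T x)) hw
  have h2 : Tendsto (fun l : ℝ =>
      sr (T + (l : ℂ) • f.smulRight x + (((ε * l : ℝ) : ℂ) * I) • (1 : X →L[ℂ] X)) -
        ‖(l : ℂ) * (1 + ε * I) + f (T x)‖) atTop (𝓝 0) := by
    rw [tendsto_zero_iff_abs_tendsto_zero]
    have h3 : Tendsto (fun l : ℝ => 100 * p ^ 2 * m ^ 2 / l) atTop (𝓝 0) :=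
      tendsto_id.const_div_atTop _
    refine squeeze_zero' (Eventually.of_forall fun l => abs_nonneg _) ?_ h3
    filter_upwards [eventually_ge_atTop (100 * p * m)] with l hl
    exact sr_asymp_bound T f x hfx hε (le_max_left _ _) (le_max_left _ _) (le_max_right _ _)
      (le_max_right _ _) hl
  have h4 := h2.add h1
  simp only [zero_add] at h4
  refine h4.congr ?_
  intro l
  ring

section
variable {X Y : Type*} [NormedAddCommGroup X] [NormedSpace ℂ X] [CompleteSpace X]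
  [NormedAddCommGroup Y] [NormedSpace ℂ Y] [CompleteSpace Y]

theorem trace_eq_aux
    (L : (X →L[ℂ] X) → (Y →L[ℂ] Y)) (hL : IsRL L) (hr : ∀ T, sr (L T) = sr T)
    {σ : ℂ →+* ℂ} (h1 : ∀ c : ℂ, L (c • (1 : X →L[ℂ] X)) = σ c • (1 : Y →L[ℂ] Y))
    (f : X →L[ℂ] ℂ) (x : X) (hfx : f x = 1) (g : Y →L[ℂ] ℂ) (y : Y) (hgy : g y = 1)
    (hP : L (f.smulRight x) = g.smulRight y) (T : X →L[ℂ] X) (ε ε' : ℝ) (hε : |ε| ≤ 1)
    (hεε : |ε'| = |ε|) (hσε : ∀ l : ℝ, σ (((ε * l : ℝ) : ℂ) * I) = ((ε' * l : ℝ) : ℂ) * I) :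
    ((starRingEnd ℂ) (1 + ε * I) * f (T x)).re = ((starRingEnd ℂ) (1 + ε' * I) * g (L T y)).re := by
  have hX := sr_tendsto T f x hfx hε
  have hY := sr_tendsto (L T) g y hgy (ε := ε') (by rw [hεε]; exact hε)
  have hsq : ∀ e : ℝ, ‖(1 + e * I : ℂ)‖ ^ 2 = 1 + e ^ 2 := by
    intro e
    rw [Complex.sq_norm, Complex.normSq_apply]
    simp
    ring
  have hn : ‖(1 + ε' * I : ℂ)‖ = ‖(1 + ε * I : ℂ)‖ := by
    have h2 : ‖(1 + ε' * I : ℂ)‖ ^ 2 = ‖(1 + ε * I : ℂ)‖ ^ 2 := by
      rw [hsq, hsq, ← sq_abs ε', hεε, sq_abs]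
    exact (pow_left_inj₀ (norm_nonneg _) (norm_nonneg _) two_ne_zero).1 h2
  have hpos : ‖(1 + ε * I : ℂ)‖ ≠ 0 := by
    intro h0
    have := hsq ε
    rw [h0] at this
    nlinarith [sq_nonneg ε]
  have heq : ∀ l : ℝ,
      sr (L T + (l : ℂ) • g.smulRight y + (((ε' * l : ℝ) : ℂ) * I) • (1 : Y →L[ℂ] Y)) =
      sr (T + (l : ℂ) • f.smulRight x + (((ε * l : ℝ) : ℂ) * I) • (1 : X →L[ℂ] X)) := by
    intro l
    rw [← hr (T + (l : ℂ) • f.smulRight x + (((ε * l : ℝ) : ℂ) * I) • (1 : X →L[ℂ] X)),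
      hL.add, hL.add, hL.smul, hP, h1, hσε]
  rw [hn] at hY
  simp only [heq] at hY
  have h3 := tendsto_nhds_unique hX hY
  exact (div_left_inj' hpos).1 h3

/-- TARGET -/
theorem trace_eq
    (L : (X →L[ℂ] X) → (Y →L[ℂ] Y)) (hL : IsRL L) (hr : ∀ T, sr (L T) = sr T)
    {σ : ℂ →+* ℂ} (hσ : σ = RingHom.id ℂ ∨ σ = starRingEnd ℂ)
    (h1 : ∀ c : ℂ, L (c • (1 : X →L[ℂ] X)) = σ c • (1 : Y →L[ℂ] Y))
    (f : X →L[ℂ] ℂ) (x : X) (hfx : f x = 1) (g : Y →L[ℂ] ℂ) (y : Y) (hgy : g y = 1)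
    (hP : L (f.smulRight x) = g.smulRight y) (T : X →L[ℂ] X) :
    g (L T y) = σ (f (T x)) := by
  have hre := trace_eq_aux L hL hr h1 f x hfx g y hgy hP T 0 0 (by simp) rfl (by simp)
  simp at hre
  rcases hσ with hσ | hσ
  · have him := trace_eq_aux L hL hr h1 f x hfx g y hgy hP T 1 1 (by simp) rfl
      (by intro l; rw [hσ]; rfl)
    simp at him
    rw [hσ]
    apply Complex.ext
    · simp [hre]
    · simp
      linarith
  · have him := trace_eq_aux L hL hr h1 f x hfx g y hgy hP T 1 (-1) (by simp) (by simp)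
      (by intro l; rw [hσ]; simp)
    simp at him
    rw [hσ]
    apply Complex.ext
    · simp [hre]
    · simp
      linarith
end



section
variable {X Y : Type*} [NormedAddCommGroup X] [NormedSpace ℂ X] [CompleteSpace X]
  [NormedAddCommGroup Y] [NormedSpace ℂ Y] [CompleteSpace Y]

theorem final_form {σ : ℂ →+* ℂ} [RingHomInvPair σ σ] [RingHomIsometric σ] [Nontrivial X]
    (L : (X →L[ℂ] X) → (Y →L[ℂ] Y))
    (hadd : ∀ S T, L (S + T) = L S + L T) (hsmul : ∀ (c : ℂ) T, L (c • T) = σ c • L T)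
    (hbij : Function.Bijective L) (hbd : ∃ K : ℝ, ∀ T, ‖L T‖ ≤ K * ‖T‖)
    (h1 : ∀ (f : X →L[ℂ] ℂ) (x : X), f x = 1 → ∃ (g : Y →L[ℂ] ℂ) (y : Y), g y = 1 ∧
      L (f.smulRight x) = g.smulRight y ∧ ∀ T : X →L[ℂ] X, g (L T y) = σ (f (T x)))
    (h2 : ∀ (g : Y →L[ℂ] ℂ) (y : Y), g y = 1 → ∃ (f : X →L[ℂ] ℂ) (x : X), f x = 1 ∧
      L (f.smulRight x) = g.smulRight y) :
    (∃ A : X ≃SL[σ] Y, ∀ (T : X →L[ℂ] X) (x : X), L T (A x) = A (T x)) ∨
    (∃ A : (X →L[ℂ] ℂ) ≃SL[σ] Y, ∀ (T : X →L[ℂ] X) (f : X →L[ℂ] ℂ), L T (A f) = A (f.comp T)) := by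
  obtain ⟨x0, hx0⟩ := exists_ne (0 : X)
  obtain ⟨f0, hf0⟩ := SeparatingDual.exists_eq_one (R := ℂ) hx0
  obtain ⟨g0, y0, hg0, hL, -⟩ := h1 f0 x0 hf0
  by_cases hI : ∀ x, f0 x = 0 → L (f0.smulRight x) = g0.smulRight (L (f0.smulRight x) y0)
  · exact Or.inl (type_one L hadd hsmul hbij hbd h1 h2 hf0 hg0 hL hI)
  · rcases dichotomyX L hadd hsmul (fun f x hfx => by
      obtain ⟨g, y, h3, h4, -⟩ := h1 f x hfx
      exact ⟨g, y, h3, h4⟩) hf0 hg0 hL with h3 | h3
    · exact absurd h3 hI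
    · push Not at hI
      obtain ⟨x, hx1, hx2⟩ := hI
      refine Or.inr (type_two L hadd hsmul hbij hbd h1 h2 hf0 hg0 hL ⟨x, hx1, ?_⟩ h3)
      rintro rfl
      apply hx2
      have h4 : f0.smulRight (0 : X) = 0 := by ext v; simp
      have h5 : L (0 : X →L[ℂ] X) = 0 := by
        have := hadd 0 0
        rw [add_zero] at this
        exact left_eq_add.1 this
      rw [h4, h5]
      ext v; simp

theorem IsRL.map_zero {L : (X →L[ℂ] X) → (Y →L[ℂ] Y)} (hL : IsRL L) : L 0 = 0 := by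
  have := hL.add 0 0
  rw [add_zero] at this
  exact left_eq_add.1 this

theorem IsRL.map_neg {L : (X →L[ℂ] X) → (Y →L[ℂ] Y)} (hL : IsRL L) (T : X →L[ℂ] X) :
    L (-T) = - L T := by
  have h1 := hL.add T (-T)
  rw [add_neg_cancel, hL.map_zero] at h1
  exact eq_neg_of_add_eq_zero_right h1.symm

theorem IsRL.inverse {L : (X →L[ℂ] X) → (Y →L[ℂ] Y)} (hL : IsRL L)
    (Li : (Y →L[ℂ] Y) → (X →L[ℂ] X)) (h : ∀ S, L (Li S) = S) : IsRL Li := by
  have h' : ∀ T, Li (L T) = T := fun T => hL.bij.1 (h (L T))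
  refine ⟨?_, ?_, ⟨?_, ?_⟩, ?_, ?_⟩
  · intro S T
    apply hL.bij.1
    rw [hL.add, h, h, h]
  · intro r T
    apply hL.bij.1
    rw [hL.smul, h, h]
  · intro S T hST
    rw [← h S, ← h T, hST]
  · intro T
    exact ⟨L T, h' T⟩
  · obtain ⟨K, hK⟩ := hL.bound'
    refine ⟨K, fun T => ?_⟩
    have := hK (Li T)
    rwa [h] at this
  · obtain ⟨K, hK⟩ := hL.bound
    refine ⟨K, fun T => ?_⟩
    have := hK (Li T)
    rwa [h] at this

/-- the normalised linear case -/
theorem linear_normalised [Nontrivial X] (L : (X →L[ℂ] X) → (Y →L[ℂ] Y)) (hL : IsRL L)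
    (hr : ∀ T, sr (L T) = sr T) {σ : ℂ →+* ℂ} (hσ : σ = RingHom.id ℂ ∨ σ = starRingEnd ℂ)
    [RingHomInvPair σ σ] [RingHomIsometric σ]
    (h1 : ∀ c : ℂ, L (c • (1 : X →L[ℂ] X)) = σ c • (1 : Y →L[ℂ] Y)) :
    (∃ A : X ≃SL[σ] Y, ∀ (T : X →L[ℂ] X) (x : X), L T (A x) = A (T x)) ∨
    (∃ A : (X →L[ℂ] ℂ) ≃SL[σ] Y, ∀ (T : X →L[ℂ] X) (f : X →L[ℂ] ℂ), L T (A f) = A (f.comp T)) := by
  have hσσ : ∀ c, σ (σ c) = c := fun c => RingHomInvPair.comp_apply_eq
  obtain ⟨Li, hLi⟩ := hL.bij.2.hasRightInverse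
  have hLi' : ∀ T, Li (L T) = T := fun T => hL.bij.1 (hLi (L T))
  have hIL : IsRL Li := hL.inverse Li hLi
  have hri : ∀ S, sr (Li S) = sr S := fun S => by rw [← hr, hLi]
  have h1i : ∀ c : ℂ, Li (c • (1 : Y →L[ℂ] Y)) = σ c • (1 : X →L[ℂ] X) := by
    intro c
    apply hL.bij.1
    rw [hLi, h1, hσσ]
  have hid := idem_pres L hL hr hσ h1
  have hidi := idem_pres Li hIL hri hσ h1i
  have hid' : ∀ P, L P * L P = L P → P * P = P := by
    intro P hP
    have := hidi (L P) hP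
    rwa [hLi'] at this
  have hidi' : ∀ P, Li P * Li P = Li P → P * P = P := by
    intro P hP
    have := hid (Li P) hP
    rwa [hLi] at this
  have hR := rank_one_pres L hL.add hL.bij hid hid'
  have hRi := rank_one_pres Li hIL.add hIL.bij hidi hidi'
  have h2 : ∀ (g : Y →L[ℂ] ℂ) (y : Y), g y = 1 → ∃ (f : X →L[ℂ] ℂ) (x : X), f x = 1 ∧
      L (f.smulRight x) = g.smulRight y := by
    intro g y hgy
    obtain ⟨f, x, hfx, h⟩ := hRi g y hgy
    exact ⟨f, x, hfx, by rw [← h, hLi]⟩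
  have hT : ∀ (f : X →L[ℂ] ℂ) (x : X), f x = 1 → ∃ (g : Y →L[ℂ] ℂ) (y : Y), g y = 1 ∧
      L (f.smulRight x) = g.smulRight y ∧ ∀ T : X →L[ℂ] X, g (L T y) = σ (f (T x)) := by
    intro f x hfx
    obtain ⟨g, y, hgy, h⟩ := hR f x hfx
    exact ⟨g, y, hgy, h, trace_eq L hL hr hσ h1 f x hfx g y hgy h⟩
  have hsmul : ∀ (c : ℂ) T, L (c • T) = σ c • L T := by
    intro c T
    rw [← sub_eq_zero]
    ext y
    by_contra hne
    have hy : y ≠ 0 := by
      rintro rfl
      simp at hne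
    obtain ⟨g, hg1, hg2⟩ := SeparatingDual.exists_eq_one_ne_zero_of_ne_zero_pair (R := ℂ) hy hne
    obtain ⟨f, x, hfx, h⟩ := h2 g y hg1
    have e1 := trace_eq L hL hr hσ h1 f x hfx g y hg1 h (c • T)
    have e2 := trace_eq L hL hr hσ h1 f x hfx g y hg1 h T
    apply hg2
    have e3 : (L (c • T) - σ c • L T) y = L (c • T) y - σ c • L T y := rfl
    have e4 : (c • T) x = c • T x := rfl
    rw [e3, map_sub, map_smul, e1, e2, e4, map_smul, smul_eq_mul, smul_eq_mul, map_mul, sub_self]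
  exact final_form L hL.add hsmul hL.bij hL.bound hT h2

/-- classification of the real linear maps which preserve the spectral radius -/
theorem main_linear [Nontrivial X] (L : (X →L[ℂ] X) → (Y →L[ℂ] Y)) (hL : IsRL L)
    (hr : ∀ T, sr (L T) = sr T) :
    ∃ α : ℂ, ‖α‖ = 1 ∧
    ((∃ A : X ≃L[ℂ] Y, ∀ (T : X →L[ℂ] X) (x : X), L T (A x) = α • A (T x)) ∨
    (∃ A : X ≃SL[starRingEnd ℂ] Y, ∀ (T : X →L[ℂ] X) (x : X), L T (A x) = α • A (T x)) ∨
    (∃ A : (X →L[ℂ] ℂ) ≃L[ℂ] Y, ∀ (T : X →L[ℂ] X) (f : X →L[ℂ] ℂ),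
      L T (A f) = α • A (f.comp T)) ∨
    (∃ A : (X →L[ℂ] ℂ) ≃SL[starRingEnd ℂ] Y, ∀ (T : X →L[ℂ] X) (f : X →L[ℂ] ℂ),
      L T (A f) = α • A (f.comp T))) := by
  obtain ⟨α, hα, σ, hσ, hs⟩ := scalars L hL hr
  have hα0 : α ≠ 0 := by
    rintro rfl
    simp at hα
  refine ⟨α, hα, ?_⟩
  let L' : (X →L[ℂ] X) → (Y →L[ℂ] Y) := fun T => α⁻¹ • L T
  have hLL : ∀ T, L T = α • L' T := by
    intro T
    simp only [L']
    rw [smul_smul, mul_inv_cancel₀ hα0, one_smul]
  have hL' : IsRL L' := by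
    refine ⟨?_, ?_, ⟨?_, ?_⟩, ?_, ?_⟩
    · intro S T
      simp only [L']
      rw [hL.add, smul_add]
    · intro r T
      simp only [L']
      rw [hL.smul, smul_comm]
    · intro S T h
      apply hL.bij.1
      rw [hLL, hLL T, h]
    · intro S
      obtain ⟨T, hT⟩ := hL.bij.2 (α • S)
      refine ⟨T, ?_⟩
      simp only [L']
      rw [hT, smul_smul, inv_mul_cancel₀ hα0, one_smul]
    · obtain ⟨K, hK⟩ := hL.bound
      refine ⟨K, fun T => ?_⟩
      simp only [L']
      rw [norm_smul, norm_inv, hα, inv_one, one_mul]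
      exact hK T
    · obtain ⟨K, hK⟩ := hL.bound'
      refine ⟨K, fun T => ?_⟩
      simp only [L']
      rw [norm_smul, norm_inv, hα, inv_one, one_mul]
      exact hK T
  have hr' : ∀ T, sr (L' T) = sr T := by
    intro T
    simp only [L']
    rw [sr_smul _ (inv_ne_zero hα0), norm_inv, hα, inv_one, one_mul, hr]
  have hs' : ∀ c : ℂ, L' (c • (1 : X →L[ℂ] X)) = σ c • (1 : Y →L[ℂ] Y) := by
    intro c
    simp only [L']
    rw [hs, smul_smul, ← mul_assoc, inv_mul_cancel₀ hα0, one_mul]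
  rcases hσ with rfl | rfl
  · rcases linear_normalised L' hL' hr' (Or.inl rfl) hs' with ⟨A, hA⟩ | ⟨A, hA⟩
    · left
      refine ⟨A, fun T x => ?_⟩
      rw [hLL, ← hA]; rfl
    · right; right; left
      refine ⟨A, fun T x => ?_⟩
      rw [hLL, ← hA]; rfl
  · rcases linear_normalised L' hL' hr' (Or.inr rfl) hs' with ⟨A, hA⟩ | ⟨A, hA⟩
    · right; left
      refine ⟨A, fun T x => ?_⟩
      rw [hLL, ← hA]; rfl
    · right; right; right
      refine ⟨A, fun T x => ?_⟩
      rw [hLL, ← hA]; rfl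

end

end Pool.Agent.Helper729.SRD
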