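import Mathlib

/-!
# Reflexive spaces and standard maps between algebras of operators

Definitions used in the classification of the surjective maps `φ : 𝓑(X) → 𝓑(Y)` that preserve
the spectral radius of differences (or of sums).
-/

set_option autoImplicit false

namespace Pool.Agent.Helper729.SRD

variable {X Y : Type*} [NormedAddCommGroup X] [NormedSpace ℂ X]
  [NormedAddCommGroup Y] [NormedSpace ℂ Y]

/-- `X` is reflexive: the canonical map into the bidual is onto. -/
def IsReflexive (X : Type*) [NormedAddCommGroup X] [NormedSpace ℂ X] : Prop :=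
  Function.Surjective (NormedSpace.inclusionInDoubleDual ℂ X)

/-- The maps `φ : 𝓑(X) → 𝓑(Y)` of one of the four forms
`T ↦ α A T A⁻¹ + B` with `A : X → Y` a bounded bijective linear or conjugate-linear map, or
`T ↦ α A T* A⁻¹ + B` with `A : X* → Y` a bounded bijective linear or conjugate-linear map
(`X` reflexive). -/
def IsStandard (φ : (X →L[ℂ] X) → (Y →L[ℂ] Y)) (B : Y →L[ℂ] Y) : Prop :=
  ∃ α : ℂ, ‖α‖ = 1 ∧
    ((∃ A : X ≃L[ℂ] Y, ∀ T y, φ T y = α • A (T (A.symm y)) + B y) ∨
    (∃ A : X ≃SL[starRingEnd ℂ] Y, ∀ T y, φ T y = α • A (T (A.symm y)) + B y) ∨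
    (IsReflexive X ∧ ∃ A : StrongDual ℂ X ≃L[ℂ] Y,
      ∀ T y, φ T y = α • A ((A.symm y).comp T) + B y) ∨
    (IsReflexive X ∧ ∃ A : StrongDual ℂ X ≃SL[starRingEnd ℂ] Y,
      ∀ T y, φ T y = α • A ((A.symm y).comp T) + B y))

end Pool.Agent.Helper729.SRD
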