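import Pool.Agent.Helper729.SRDCore
import Pool.Agent.Helper729.SRDDefs

/-!
# Surjective maps preserving the spectral radius of differences or of sums
-/

set_option autoImplicit false
open Filter Topology Complex Set Metric

namespace Pool.Agent.Helper729.SRD

section final
variable {X Y : Type*} [NormedAddCommGroup X] [NormedSpace ℂ X]
  [NormedAddCommGroup Y] [NormedSpace ℂ Y]

variable [CompleteSpace X] [CompleteSpace Y]

theorem specRad_eq_of_sr {S : Y →L[ℂ] Y} {T : X →L[ℂ] X} (h : sr S = sr T) :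
    spectralRadius ℂ S = spectralRadius ℂ T :=
  (ENNReal.toReal_eq_toReal_iff' (specRad_ne_top S) (specRad_ne_top T)).1 h

theorem specRad_smul_unimod {α : ℂ} (hα : ‖α‖ = 1) (S : Y →L[ℂ] Y) :
    spectralRadius ℂ (α • S) = spectralRadius ℂ S := by
  apply specRad_eq_of_sr
  rw [sr_smul, hα, one_mul]
  rintro rfl
  simp at hα

theorem reflexive_iff : IsReflexive X ↔ Function.Surjective
    (fun x : X => (ContinuousLinearMap.apply ℂ ℂ x : (X →L[ℂ] ℂ) →L[ℂ] ℂ)) := by
  have h : ∀ x : X, (NormedSpace.inclusionInDoubleDual ℂ X x : (X →L[ℂ] ℂ) →L[ℂ] ℂ) =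
      (ContinuousLinearMap.apply ℂ ℂ x : (X →L[ℂ] ℂ) →L[ℂ] ℂ) := by
    intro x
    ext f
    simp
  constructor
  · intro hX ξ
    obtain ⟨x, hx⟩ := hX ξ
    exact ⟨x, (h x).symm.trans hx⟩
  · intro hX ξ
    obtain ⟨x, hx⟩ := hX ξ
    exact ⟨x, (h x).trans hx⟩

/-- A standard map is surjective and its differences have the right spectral radius; more
precisely, there is a surjection `M` with `φ T = M T + B`. -/
theorem standard_decomp {φ : (X →L[ℂ] X) → (Y →L[ℂ] Y)} {B : Y →L[ℂ] Y} (h : IsStandard φ B) :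
    ∃ M : (X →L[ℂ] X) → (Y →L[ℂ] Y), Function.Surjective M ∧ (∀ T, φ T = M T + B) ∧
      (∀ S T, M (S + T) = M S + M T) ∧ (∀ T, spectralRadius ℂ (M T) = spectralRadius ℂ T) := by
  obtain ⟨α, hα, h⟩ := h
  have hα0 : α ≠ 0 := by
    rintro rfl
    simp at hα
  have key : ∀ N : (X →L[ℂ] X) → (Y →L[ℂ] Y), Function.Surjective N →
      (∀ T, φ T = α • N T + B) → (∀ S T, N (S + T) = N S + N T) →
      (∀ T, spectralRadius ℂ (N T) = spectralRadius ℂ T) →
      ∃ M : (X →L[ℂ] X) → (Y →L[ℂ] Y), Function.Surjective M ∧ (∀ T, φ T = M T + B) ∧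
      (∀ S T, M (S + T) = M S + M T) ∧ (∀ T, spectralRadius ℂ (M T) = spectralRadius ℂ T) := by
    intro N h1 h2 h3 h4
    refine ⟨fun T => α • N T, ?_, h2, ?_, ?_⟩
    · intro S
      obtain ⟨T, hT⟩ := h1 (α⁻¹ • S)
      refine ⟨T, ?_⟩
      simp only [hT]
      rw [smul_smul, mul_inv_cancel₀ hα0, one_smul]
    · intro S T
      simp only [h3, smul_add]
    · intro T
      rw [specRad_smul_unimod hα, h4]
  have case1 : ∀ (σ : ℂ →+* ℂ) [RingHomInvPair σ σ] [RingHomIsometric σ] (A : X ≃SL[σ] Y),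
      (∀ T y, φ T y = α • A (T (A.symm y)) + B y) →
      ∃ M : (X →L[ℂ] X) → (Y →L[ℂ] Y), Function.Surjective M ∧ (∀ T, φ T = M T + B) ∧
      (∀ S T, M (S + T) = M S + M T) ∧ (∀ T, spectralRadius ℂ (M T) = spectralRadius ℂ T) := by
    intro σ _ _ A hA
    refine key (fun T => cj A T) ?_ ?_ ?_ ?_
    · intro S
      obtain ⟨T, hT⟩ := conj_surj A S
      refine ⟨T, ?_⟩
      ext y
      simp only [cj_apply]
      rw [← hT, A.apply_symm_apply]
    · intro T
      ext y
      rw [hA]
      rfl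
    · intro S T
      ext y
      simp only [cj_apply, add_apply, map_add]
    · intro T
      exact specRad_conj A T _ (fun x => by simp only [cj_apply, A.symm_apply_apply])
  have case2 : ∀ (σ : ℂ →+* ℂ) [RingHomInvPair σ σ] [RingHomIsometric σ]
      (A : StrongDual ℂ X ≃SL[σ] Y), IsReflexive X →
      (∀ T y, φ T y = α • A ((A.symm y).comp T) + B y) →
      ∃ M : (X →L[ℂ] X) → (Y →L[ℂ] Y), Function.Surjective M ∧ (∀ T, φ T = M T + B) ∧
      (∀ S T, M (S + T) = M S + M T) ∧ (∀ T, spectralRadius ℂ (M T) = spectralRadius ℂ T) := by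
    intro σ _ _ A hX hA
    let ad : (X →L[ℂ] X) → (StrongDual ℂ X →L[ℂ] StrongDual ℂ X) := fun T =>
      (ContinuousLinearMap.compL ℂ X X ℂ).flip T
    have had : ∀ T (f : StrongDual ℂ X), ad T f = f.comp T := fun T f => rfl
    refine key (fun T => cj A (ad T)) ?_ ?_ ?_ ?_
    · intro S
      obtain ⟨T, hT⟩ := dual_surj (reflexive_iff.1 hX) A S
      refine ⟨T, ?_⟩
      ext y
      simp only [cj_apply, had]
      rw [← hT, A.apply_symm_apply]
    · intro T
      ext y
      rw [hA]
      rfl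
    · intro S T
      ext y
      simp only [cj_apply, add_apply, had, ContinuousLinearMap.comp_add, map_add]
    · intro T
      exact specRad_dual A T _ (fun x => by simp only [cj_apply, had, A.symm_apply_apply])
  rcases h with ⟨A, hA⟩ | ⟨A, hA⟩ | ⟨hX, A, hA⟩ | ⟨hX, A, hA⟩
  · exact case1 (RingHom.id ℂ) A hA
  · exact case1 (starRingEnd ℂ) A hA
  · exact case2 (RingHom.id ℂ) A hX hA
  · exact case2 (starRingEnd ℂ) A hX hA

/-- the linear classification gives standard forms -/
theorem standard_of_linear [Nontrivial X] {φ : (X →L[ℂ] X) → (Y →L[ℂ] Y)} {B : Y →L[ℂ] Y}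
    {L : (X →L[ℂ] X) → (Y →L[ℂ] Y)} (hL : IsRL L) (hr : ∀ T, sr (L T) = sr T)
    (hφ : ∀ T, φ T = B + L T) : IsStandard φ B := by
  obtain ⟨α, hα, h⟩ := main_linear L hL hr
  have hα0 : α ≠ 0 := by
    rintro rfl
    simp at hα
  refine ⟨α, hα, ?_⟩
  have hrefl : ∀ (σ : ℂ →+* ℂ) [RingHomInvPair σ σ] (A : (X →L[ℂ] ℂ) ≃SL[σ] Y),
      (∀ (T : X →L[ℂ] X) (f : X →L[ℂ] ℂ), L T (A f) = α • A (f.comp T)) → IsReflexive X := by
    intro σ _ A hA
    rw [reflexive_iff]
    apply reflexive_of_adjoint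
    intro S
    obtain ⟨T, hT⟩ := hL.bij.2 (α • cj A S)
    refine ⟨T, fun f => ?_⟩
    have h1 := hA T f
    rw [hT] at h1
    have h2 : (α • cj A S) (A f) = α • A (S f) := by
      change α • (cj A S) (A f) = _
      rw [cj_apply, A.symm_apply_apply]
    rw [h2] at h1
    exact A.injective (smul_right_injective Y hα0 h1)
  rcases h with ⟨A, hA⟩ | ⟨A, hA⟩ | ⟨A, hA⟩ | ⟨A, hA⟩
  · left
    refine ⟨A, fun T y => ?_⟩
    rw [hφ, ← hA, A.apply_symm_apply, add_apply, add_comm]
  · right; left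
    refine ⟨A, fun T y => ?_⟩
    rw [hφ, ← hA, A.apply_symm_apply, add_apply, add_comm]
  · right; right; left
    refine ⟨hrefl _ A hA, A, fun T y => ?_⟩
    have := hA T (A.symm y)
    rw [A.apply_symm_apply] at this
    rw [hφ, add_apply, this, add_comm]
  · right; right; right
    refine ⟨hrefl _ A hA, A, fun T y => ?_⟩
    have := hA T (A.symm y)
    rw [A.apply_symm_apply] at this
    rw [hφ, add_apply, this, add_comm]

/-- the degenerate case -/
theorem standard_of_subsingleton [Subsingleton X] {φ : (X →L[ℂ] X) → (Y →L[ℂ] Y)}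
    (hφ : Function.Surjective φ) (B : Y →L[ℂ] Y) : IsStandard φ B := by
  have hX : Subsingleton (X →L[ℂ] X) := inferInstance
  have h1 : Subsingleton (Y →L[ℂ] Y) := hφ.subsingleton
  have hY : Subsingleton Y := by
    by_contra hcon
    rw [not_subsingleton_iff_nontrivial] at hcon
    have : Nontrivial (Y →L[ℂ] Y) := inferInstance
    exact not_subsingleton _ h1
  refine ⟨1, by simp, Or.inl ⟨?_, fun T y => Subsingleton.elim _ _⟩⟩
  exact
    { toFun := fun _ => 0
      invFun := fun _ => 0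
      map_add' := fun _ _ => Subsingleton.elim _ _
      map_smul' := fun _ _ => Subsingleton.elim _ _
      left_inv := fun _ => Subsingleton.elim _ _
      right_inv := fun _ => Subsingleton.elim _ _
      continuous_toFun := continuous_const
      continuous_invFun := continuous_const }

theorem q1 (φ : (X →L[ℂ] X) → (Y →L[ℂ] Y)) :
    (Function.Surjective φ ∧
      ∀ T S, spectralRadius ℂ (φ T - φ S) = spectralRadius ℂ (T - S)) ↔
    ∃ B : Y →L[ℂ] Y, IsStandard φ B := by
  constructor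
  · rintro ⟨hs, h⟩
    rcases subsingleton_or_nontrivial X with hX | hX
    · exact ⟨0, standard_of_subsingleton hs 0⟩
    have hp : Pair φ φ := ⟨hs, hs, fun T S => congrArg ENNReal.toReal (h T S)⟩
    obtain ⟨L, hL, hφ⟩ := hp.exists_linear
    refine ⟨φ 0, standard_of_linear hL ?_ hφ⟩
    intro T
    have h1 := hp.eq T 0
    rw [hφ T, add_sub_cancel_left, sub_zero] at h1
    exact h1
  · rintro ⟨B, hB⟩
    obtain ⟨M, hM, hφ, hadd, hr⟩ := standard_decomp hB
    refine ⟨?_, ?_⟩
    · intro S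
      obtain ⟨T, hT⟩ := hM (S - B)
      exact ⟨T, by rw [hφ, hT, sub_add_cancel]⟩
    · intro T S
      have h1 : M T = M (T - S) + M S := by rw [← hadd, sub_add_cancel]
      have h2 : φ T - φ S = M (T - S) := by
        rw [hφ, hφ, h1]; abel
      rw [h2, hr]

theorem q2 (φ : (X →L[ℂ] X) → (Y →L[ℂ] Y)) :
    (Function.Surjective φ ∧
      ∀ T S, spectralRadius ℂ (φ T + φ S) = spectralRadius ℂ (T + S)) ↔
    IsStandard φ 0 := by
  constructor
  · rintro ⟨hs, h⟩
    rcases subsingleton_or_nontrivial X with hX | hX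
    · exact standard_of_subsingleton hs 0
    have h' : ∀ T S, sr (φ T + φ S) = sr (T + S) := fun T S => congrArg ENNReal.toReal (h T S)
    have hp : Pair φ (fun S => - φ (-S)) := by
      refine ⟨hs, ?_, ?_⟩
      · intro S
        obtain ⟨T, hT⟩ := hs (-S)
        exact ⟨-T, by simp [hT]⟩
      · intro T S
        rw [sub_neg_eq_add, h', ← sub_eq_add_neg]
    obtain ⟨L, hL, hφ⟩ := hp.exists_linear
    have h1 : ∀ T, sr (φ 0 + φ 0 + L T) = sr T := by
      intro T
      have := h' T 0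
      rw [hφ T, add_zero] at this
      rw [← this]
      congr 1
      abel
    have h2 : ∀ T, sr (L T - (φ 0 + φ 0)) = sr T := by
      intro T
      have := h1 (-T)
      rw [hL.map_neg, ← sub_eq_add_neg, sr_sub_comm, sr_neg] at this
      exact this
    have h3 : (φ 0 + φ 0) + (φ 0 + φ 0) = 0 := by
      apply eq_zero_of_sr
      intro G
      obtain ⟨T, hT⟩ := hL.bij.2 (G + (φ 0 + φ 0))
      have e1 := h1 T
      have e2 := h2 T
      rw [hT] at e1 e2
      rw [add_sub_cancel_right] at e2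
      rw [e2, ← e1]
      congr 1
      abel
    have h4 : φ 0 = 0 := by
      have h5 : (4 : ℂ) • φ 0 = 0 := by
        rw [← h3]
        have : (4 : ℂ) = 1 + 1 + 1 + 1 := by norm_num
        rw [this, add_smul, add_smul, add_smul, one_smul]
        abel
      exact (smul_eq_zero.1 h5).resolve_left (by norm_num)
    rw [h4] at h1 hφ
    simp only [add_zero, zero_add] at h1
    exact standard_of_linear hL h1 hφ
  · intro hB
    obtain ⟨M, hM, hφ, hadd, hr⟩ := standard_decomp hB
    simp only [add_zero] at hφ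
    refine ⟨?_, ?_⟩
    · intro S
      obtain ⟨T, hT⟩ := hM S
      exact ⟨T, by rw [hφ, hT]⟩
    · intro T S
      rw [hφ, hφ, ← hadd, hr]

end final

end Pool.Agent.Helper729.SRD
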