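import Mathlib

/-!
# Standard maps between algebras of operators, up to a phase

Definitions used in the description of the surjective maps `φ : 𝓑(X) → 𝓑(Y)` that preserve the
spectral radius of one of the products `T S`, `S T S`, `T S + S T`, `T S - S T`, `T S - S T*`.
-/

set_option autoImplicit false

namespace Pool.Agent.Helper729.SRPDefs

section Banach
variable {X Y : Type*} [NormedAddCommGroup X] [NormedSpace ℂ X]
  [NormedAddCommGroup Y] [NormedSpace ℂ Y]

/-- `X` is reflexive: the canonical map into the bidual is onto. -/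
def IsReflexive (X : Type*) [NormedAddCommGroup X] [NormedSpace ℂ X] : Prop :=
  Function.Surjective (NormedSpace.inclusionInDoubleDual ℂ X)

/-- (a) `φ` preserves the spectral radius of `T S`. -/
def PreservesProduct (φ : (X →L[ℂ] X) → (Y →L[ℂ] Y)) : Prop :=
  ∀ T S : X →L[ℂ] X, spectralRadius ℂ (φ T * φ S) = spectralRadius ℂ (T * S)

/-- (b) `φ` preserves the spectral radius of `S T S`. -/
def PreservesTripleProduct (φ : (X →L[ℂ] X) → (Y →L[ℂ] Y)) : Prop :=
  ∀ T S : X →L[ℂ] X, spectralRadius ℂ (φ S * φ T * φ S) = spectralRadius ℂ (S * T * S)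

/-- (c) `φ` preserves the spectral radius of `T S + S T`. -/
def PreservesJordanProduct (φ : (X →L[ℂ] X) → (Y →L[ℂ] Y)) : Prop :=
  ∀ T S : X →L[ℂ] X, spectralRadius ℂ (φ T * φ S + φ S * φ T) = spectralRadius ℂ (T * S + S * T)

/-- (d) `φ` preserves the spectral radius of `T S - S T`. -/
def PreservesLieProduct (φ : (X →L[ℂ] X) → (Y →L[ℂ] Y)) : Prop :=
  ∀ T S : X →L[ℂ] X, spectralRadius ℂ (φ T * φ S - φ S * φ T) = spectralRadius ℂ (T * S - S * T)

/-- There is a function `c : 𝓑(X) → {|z| = 1}` such that `φ` is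
`T ↦ c(T) A T A⁻¹` with `A : X → Y` a bounded bijective linear or conjugate-linear map, or
`T ↦ c(T) A T* A⁻¹` with `A : X* → Y` a bounded bijective linear or conjugate-linear map
(`X` reflexive). Here `T*` is the Banach space adjoint `f ↦ f ∘ T`. -/
def IsStandardUpToPhase (φ : (X →L[ℂ] X) → (Y →L[ℂ] Y)) : Prop :=
  ∃ c : (X →L[ℂ] X) → ℂ, (∀ T, ‖c T‖ = 1) ∧
    ((∃ A : X ≃L[ℂ] Y, ∀ T y, φ T y = c T • A (T (A.symm y))) ∨
    (∃ A : X ≃SL[starRingEnd ℂ] Y, ∀ T y, φ T y = c T • A (T (A.symm y))) ∨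
    (IsReflexive X ∧ ∃ A : StrongDual ℂ X ≃L[ℂ] Y,
      ∀ T y, φ T y = c T • A ((A.symm y).comp T)) ∨
    (IsReflexive X ∧ ∃ A : StrongDual ℂ X ≃SL[starRingEnd ℂ] Y,
      ∀ T y, φ T y = c T • A ((A.symm y).comp T)))

/-- There are functions `c : 𝓑(X) → {|z| = 1}` and `d : 𝓑(X) → ℂ` such that `φ` is
`T ↦ c(T) A T A⁻¹ + d(T) 1` with `A : X → Y` a bounded bijective linear or conjugate-linear map,
or `T ↦ c(T) A T* A⁻¹ + d(T) 1` with `A : X* → Y` a bounded bijective linear or conjugate-linear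
map (`X` reflexive). Here `T*` is the Banach space adjoint `f ↦ f ∘ T`. -/
def IsStandardUpToPhaseAndShift (φ : (X →L[ℂ] X) → (Y →L[ℂ] Y)) : Prop :=
  ∃ c d : (X →L[ℂ] X) → ℂ, (∀ T, ‖c T‖ = 1) ∧
    ((∃ A : X ≃L[ℂ] Y, ∀ T y, φ T y = c T • A (T (A.symm y)) + d T • y) ∨
    (∃ A : X ≃SL[starRingEnd ℂ] Y, ∀ T y, φ T y = c T • A (T (A.symm y)) + d T • y) ∨
    (IsReflexive X ∧ ∃ A : StrongDual ℂ X ≃L[ℂ] Y,
      ∀ T y, φ T y = c T • A ((A.symm y).comp T) + d T • y) ∨
    (IsReflexive X ∧ ∃ A : StrongDual ℂ X ≃SL[starRingEnd ℂ] Y,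
      ∀ T y, φ T y = c T • A ((A.symm y).comp T) + d T • y))

end Banach

section Hilbert
variable {H K : Type*} [NormedAddCommGroup H] [InnerProductSpace ℂ H] [CompleteSpace H]
  [NormedAddCommGroup K] [InnerProductSpace ℂ K] [CompleteSpace K]

/-- (e) `φ` preserves the spectral radius of `T S - S T*` (Hilbert space adjoint). -/
def PreservesSkewLieProduct (φ : (H →L[ℂ] H) → (K →L[ℂ] K)) : Prop :=
  ∀ T S : H →L[ℂ] H, spectralRadius ℂ (φ T * φ S - φ S * ContinuousLinearMap.adjoint (φ T)) =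
    spectralRadius ℂ (T * S - S * ContinuousLinearMap.adjoint T)

/-- `T = l + i A` with `l` real and `A` selfadjoint, or `T = l + r V` with `l`, `r` real and `V`
unitary. (Equivalently: `T` is normal and its spectrum lies on a line `re z = l` or on a circle
centred on the real axis.) -/
def LineOrCircle (T : H →L[ℂ] H) : Prop :=
  (∃ (l : ℝ) (A : H →L[ℂ] H), IsSelfAdjoint A ∧ T = (l : ℂ) • 1 + Complex.I • A) ∨
  (∃ (l r : ℝ) (V : H →L[ℂ] H), V ∈ unitary (H →L[ℂ] H) ∧ T = (l : ℂ) • 1 + (r : ℂ) • V)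

/-- `φ T = ± U T U⁻¹`, or `T` satisfies `LineOrCircle` and `φ T = ± U T* U⁻¹`; here `T*` is the
Hilbert space adjoint and `V` stands for `U⁻¹`. -/
def SkewFormAt (φ : (H →L[ℂ] H) → (K →L[ℂ] K)) (U : H → K) (V : K → H) (T : H →L[ℂ] H) : Prop :=
  ∃ e : ℂ, (e = 1 ∨ e = -1) ∧ ((∀ y, φ T y = e • U (T (V y))) ∨
    (LineOrCircle T ∧ ∀ y, φ T y = e • U (ContinuousLinearMap.adjoint T (V y))))

/-- There is a linear or conjugate-linear isometry `U` of `H` onto `K` such that for every `T`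
either `φ T = ± U T U⁻¹`, or `T` satisfies `LineOrCircle` and `φ T = ± U T* U⁻¹`; the choice of
the sign and of the alternative may depend on `T`. -/
def IsSkewStandard (φ : (H →L[ℂ] H) → (K →L[ℂ] K)) : Prop :=
  (∃ U : H ≃ₗᵢ[ℂ] K, ∀ T, SkewFormAt φ U U.symm T) ∨
  (∃ U : H ≃ₛₗᵢ[starRingEnd ℂ] K, ∀ T, SkewFormAt φ U U.symm T)

end Hilbert

end Pool.Agent.Helper729.SRPDefs
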