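import Pool.Agent.Helper729.SRP.P6
import Pool.Agent.Helper729.SRPDefs

/-!
# Surjective maps preserving the spectral radius of a product: final statements
-/

set_option autoImplicit false
open Filter Topology Complex Set Metric

namespace Pool.Agent.Helper729.SRP

open Pool.Agent.Helper729.SRPDefs

section final
variable {X Y : Type*} [NormedAddCommGroup X] [NormedSpace ℂ X]
  [NormedAddCommGroup Y] [NormedSpace ℂ Y]

theorem refl_iff : IsReflexive X ↔ IsRefl X := by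
  have h : ∀ x : X, (NormedSpace.inclusionInDoubleDual ℂ X x : (X →L[ℂ] ℂ) →L[ℂ] ℂ) =
      (ContinuousLinearMap.apply ℂ ℂ x : (X →L[ℂ] ℂ) →L[ℂ] ℂ) := by
    intro x
    ext f
    simp
  constructor
  · intro hX ξ
    obtain ⟨x, hx⟩ := hX ξ
    exact ⟨x, (h x).symm.trans hx⟩
  · intro hX ξ
    obtain ⟨x, hx⟩ := hX ξ
    exact ⟨x, (h x).trans hx⟩

theorem formS_iff (φ : (X →L[ℂ] X) → (Y →L[ℂ] Y)) : FormS φ ↔ IsStandardUpToPhase φ := by
  constructor
  · rintro ((⟨A, hA⟩ | ⟨A, hA⟩) | ⟨hr, ⟨A, hA⟩ | ⟨A, hA⟩⟩)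
    · choose c hc using hA
      exact ⟨c, fun T => (hc T).1, Or.inl ⟨A, fun T => (hc T).2⟩⟩
    · choose c hc using hA
      exact ⟨c, fun T => (hc T).1, Or.inr (Or.inl ⟨A, fun T => (hc T).2⟩)⟩
    · choose c hc using hA
      exact ⟨c, fun T => (hc T).1, Or.inr (Or.inr (Or.inl ⟨refl_iff.2 hr, A, fun T => (hc T).2⟩))⟩
    · choose c hc using hA
      exact ⟨c, fun T => (hc T).1, Or.inr (Or.inr (Or.inr ⟨refl_iff.2 hr, A, fun T => (hc T).2⟩))⟩
  · rintro ⟨c, hc, ⟨A, hA⟩ | ⟨A, hA⟩ | ⟨hr, A, hA⟩ | ⟨hr, A, hA⟩⟩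
    · exact Or.inl (Or.inl ⟨A, fun T => ⟨c T, hc T, hA T⟩⟩)
    · exact Or.inl (Or.inr ⟨A, fun T => ⟨c T, hc T, hA T⟩⟩)
    · exact Or.inr ⟨refl_iff.1 hr, Or.inl ⟨A, fun T => ⟨c T, hc T, hA T⟩⟩⟩
    · exact Or.inr ⟨refl_iff.1 hr, Or.inr ⟨A, fun T => ⟨c T, hc T, hA T⟩⟩⟩

theorem formT_iff (φ : (X →L[ℂ] X) → (Y →L[ℂ] Y)) :
    FormT φ ↔ IsStandardUpToPhaseAndShift φ := by
  constructor
  · rintro ((⟨A, hA⟩ | ⟨A, hA⟩) | ⟨hr, ⟨A, hA⟩ | ⟨A, hA⟩⟩)
    · choose c d hc using hA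
      exact ⟨c, d, fun T => (hc T).1, Or.inl ⟨A, fun T => (hc T).2⟩⟩
    · choose c d hc using hA
      exact ⟨c, d, fun T => (hc T).1, Or.inr (Or.inl ⟨A, fun T => (hc T).2⟩)⟩
    · choose c d hc using hA
      exact ⟨c, d, fun T => (hc T).1,
        Or.inr (Or.inr (Or.inl ⟨refl_iff.2 hr, A, fun T => (hc T).2⟩))⟩
    · choose c d hc using hA
      exact ⟨c, d, fun T => (hc T).1,
        Or.inr (Or.inr (Or.inr ⟨refl_iff.2 hr, A, fun T => (hc T).2⟩))⟩
  · rintro ⟨c, d, hc, ⟨A, hA⟩ | ⟨A, hA⟩ | ⟨hr, A, hA⟩ | ⟨hr, A, hA⟩⟩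
    · exact Or.inl (Or.inl ⟨A, fun T => ⟨c T, d T, hc T, hA T⟩⟩)
    · exact Or.inl (Or.inr ⟨A, fun T => ⟨c T, d T, hc T, hA T⟩⟩)
    · exact Or.inr ⟨refl_iff.1 hr, Or.inl ⟨A, fun T => ⟨c T, d T, hc T, hA T⟩⟩⟩
    · exact Or.inr ⟨refl_iff.1 hr, Or.inr ⟨A, fun T => ⟨c T, d T, hc T, hA T⟩⟩⟩

theorem rank_le_one_of_no_pair (h : ¬ ∃ v : Fin 2 → X, LinearIndependent ℂ v) :
    Module.rank ℂ X ≤ 1 := by
  rw [rank_le_one_iff]
  rcases subsingleton_or_nontrivial X with hX | hX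
  · exact ⟨0, fun v => ⟨0, Subsingleton.elim _ _⟩⟩
  · obtain ⟨x0, hx0⟩ := exists_ne (0 : X)
    refine ⟨x0, fun v => ?_⟩
    by_contra hv
    push Not at hv
    apply h
    refine ⟨![x0, v], ?_⟩
    rw [LinearIndependent.pair_iff' hx0]
    exact hv

theorem comm_of_rank_le_one (h : Module.rank ℂ X ≤ 1) (T S : X →L[ℂ] X) : T * S = S * T := by
  rw [rank_le_one_iff] at h
  obtain ⟨x0, hx0⟩ := h
  obtain ⟨t, ht⟩ := hx0 (T x0)
  obtain ⟨s, hs⟩ := hx0 (S x0)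
  ext x
  obtain ⟨a, rfl⟩ := hx0 x
  change T (S (a • x0)) = S (T (a • x0))
  rw [map_smul, map_smul, map_smul, map_smul, ← ht, ← hs, map_smul, map_smul, ← ht, ← hs,
    smul_smul s t, smul_smul t s, mul_comm]

variable [CompleteSpace X] [CompleteSpace Y]

theorem specRad_eq_iff (S : Y →L[ℂ] Y) (T : X →L[ℂ] X) :
    spectralRadius ℂ S = spectralRadius ℂ T ↔ sr S = sr T :=
  (ENNReal.toReal_eq_toReal_iff' (SRD.specRad_ne_top S) (SRD.specRad_ne_top T)).symm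

theorem main_a (φ : (X →L[ℂ] X) → (Y →L[ℂ] Y)) (hs : Function.Surjective φ) :
    PreservesProduct φ ↔ IsStandardUpToPhase φ := by
  unfold PreservesProduct
  simp only [specRad_eq_iff]
  rw [← formS_iff]
  exact ⟨full_a φ hs, conv_a φ⟩

theorem main_b (φ : (X →L[ℂ] X) → (Y →L[ℂ] Y)) (hs : Function.Surjective φ) :
    PreservesTripleProduct φ ↔ IsStandardUpToPhase φ := by
  unfold PreservesTripleProduct
  simp only [specRad_eq_iff]
  rw [← formS_iff]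
  exact ⟨fun h => full_b φ hs fun T S => h S T, fun h T S => conv_b φ h S T⟩

theorem main_c (φ : (X →L[ℂ] X) → (Y →L[ℂ] Y)) (hs : Function.Surjective φ) :
    PreservesJordanProduct φ ↔ IsStandardUpToPhase φ := by
  unfold PreservesJordanProduct
  simp only [specRad_eq_iff]
  rw [← formS_iff]
  refine ⟨fun h => form_c φ hs fun T S => ?_, conv_c φ⟩
  unfold JF
  rw [one_smul, one_smul]
  exact h T S

theorem main_d (φ : (X →L[ℂ] X) → (Y →L[ℂ] Y)) (hs : Function.Surjective φ) :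
    PreservesLieProduct φ ↔
      IsStandardUpToPhaseAndShift φ ∨ (Module.rank ℂ X ≤ 1 ∧ Subsingleton Y) := by
  unfold PreservesLieProduct
  simp only [specRad_eq_iff]
  rw [← formT_iff]
  constructor
  · intro h
    rcases form_d φ hs (fun T S => by
      unfold JF
      rw [neg_one_smul, neg_one_smul, ← sub_eq_add_neg, ← sub_eq_add_neg]
      exact h T S) with h1 | ⟨h1, h2⟩
    · exact Or.inl h1
    · exact Or.inr ⟨rank_le_one_of_no_pair h2, h1⟩
  · rintro (h | ⟨h1, h2⟩)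
    · exact conv_d φ h
    · intro T S
      rw [comm_of_rank_le_one h1 T S, sub_self,
        show φ T * φ S - φ S * φ T = 0 from by ext y; exact Subsingleton.elim _ _]
      have h1 : sr (0 : Y →L[ℂ] Y) = 0 := by
        have := sr_smul' (0 : ℂ) (0 : Y →L[ℂ] Y)
        rwa [zero_smul, norm_zero, zero_mul] at this
      have h2 : sr (0 : X →L[ℂ] X) = 0 := by
        have := sr_smul' (0 : ℂ) (0 : X →L[ℂ] X)
        rwa [zero_smul, norm_zero, zero_mul] at this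
      rw [h1, h2]

end final

section hilbert
variable {H K : Type*} [NormedAddCommGroup H] [InnerProductSpace ℂ H] [CompleteSpace H]
  [NormedAddCommGroup K] [InnerProductSpace ℂ K] [CompleteSpace K]

theorem main_e (φ : (H →L[ℂ] H) → (K →L[ℂ] K)) (hs : Function.Surjective φ) :
    PreservesSkewLieProduct φ ↔ IsSkewStandard φ := by
  unfold PreservesSkewLieProduct
  simp only [specRad_eq_iff]
  change (∀ T S, SK (φ T) (φ S) = SK T S) ↔ _
  have key : ∀ (σ : ℂ →+* ℂ) [RingHomInvPair σ σ] [RingHomIsometric σ] (U : H ≃ₛₗᵢ[σ] K),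
      (∀ T, (∃ c : ℂ, (c = 1 ∨ c = -1) ∧ ∀ y, φ T y = c • U (T (U.symm y))) ∨
      ((∀ S, SK (star T) S = SK T S) ∧
        ∃ c : ℂ, (c = 1 ∨ c = -1) ∧ ∀ y, φ T y = c • U (star T (U.symm y)))) →
      ∀ T, SkewFormAt φ U U.symm T := by
    intro σ _ _ U hU T
    rcases hU T with ⟨c, hc, h1⟩ | ⟨h0, c, hc, h1⟩
    · exact ⟨c, hc, Or.inl h1⟩
    · rcases (SK_star_left_iff T).1 h0 with h2 | h2 | ⟨l, R, V, hV, h2⟩
      · refine ⟨c, hc, Or.inl ?_⟩
        have h3 : star T = T := h2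
        rwa [h3] at h1
      · exact ⟨c, hc, Or.inr ⟨Or.inl h2, h1⟩⟩
      · exact ⟨c, hc, Or.inr ⟨Or.inr ⟨l, R, V, hV, h2⟩, h1⟩⟩
  have key2 : ∀ (σ : ℂ →+* ℂ) [RingHomInvPair σ σ] [RingHomIsometric σ] (U : H ≃ₛₗᵢ[σ] K),
      (∀ T, SkewFormAt φ U U.symm T) →
      (∀ T, (∃ c : ℂ, (c = 1 ∨ c = -1) ∧ ∀ y, φ T y = c • U (T (U.symm y))) ∨
      ((∀ S, SK (star T) S = SK T S) ∧
        ∃ c : ℂ, (c = 1 ∨ c = -1) ∧ ∀ y, φ T y = c • U (star T (U.symm y)))) := by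
    intro σ _ _ U hU T
    rcases hU T with ⟨e, he, h1 | ⟨h0, h1⟩⟩
    · exact Or.inl ⟨e, he, h1⟩
    · refine Or.inr ⟨(SK_star_left_iff T).2 (Or.inr ?_), e, he, h1⟩
      rcases h0 with h0 | ⟨l, R, V, hV, h0⟩
      · exact Or.inl h0
      · exact Or.inr ⟨l, R, V, hV, h0⟩
  constructor
  · intro h
    rcases subsingleton_or_nontrivial H with hH | hH
    · have hK : Subsingleton K := by
        by_contra hK
        rw [not_subsingleton_iff_nontrivial] at hK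
        obtain ⟨T, hT⟩ := hs 0
        obtain ⟨S, hS⟩ := hs 1
        have hTS : T = S := by ext x; exact Subsingleton.elim _ _
        rw [hTS, hS] at hT
        exact one_ne_zero hT
      exact Or.inl ⟨LinearIsometryEquiv.mk
        { toFun := fun _ => 0, invFun := fun _ => 0, map_add' := by simp, map_smul' := by simp,
          left_inv := fun _ => Subsingleton.elim _ _,
          right_inv := fun _ => Subsingleton.elim _ _ } (fun x => by
            rw [Subsingleton.elim x 0]; simp), fun T => ⟨1, Or.inl rfl,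
            Or.inl fun y => Subsingleton.elim _ _⟩⟩
    · rcases skew_form φ hs h with ⟨U, hU⟩ | ⟨U, hU⟩
      · exact Or.inl ⟨U, key (RingHom.id ℂ) U hU⟩
      · exact Or.inr ⟨U, key (starRingEnd ℂ) U hU⟩
  · rintro (⟨U, hU⟩ | ⟨U, hU⟩)
    · exact skew_conv (Or.inl rfl) φ U (key2 _ U hU)
    · exact skew_conv (Or.inr rfl) φ U (key2 _ U hU)

end hilbert

end Pool.Agent.Helper729.SRP
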